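import Mathlib.Topology.Sheaves.Presheaf
import Mathlib.Tactic.Polynomial.Basic
import Pool.Agent.MP_187b32_an.PD.Small.Loc
import Pool.Agent.MP_187b32_an.Prof.Side
import Mathlib.Tactic.Monotonicity.Lemmas
import Mathlib.RingTheory.Flat.TorsionFree
import Mathlib.Algebra.Ring.IsFormallyReal
import Mathlib.RingTheory.TotallySplit
import Mathlib.RingTheory.Etale.Weakly
import Mathlib.Tactic.NormNum.RealSqrt

-- ======== part 0: formerly Pool.Agent.MP_187b32_an.Prof.Outer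
section MrgPart0

/-!
The outer part of the profile: in the variables `q = s ^ (-1/2)`, `y = W / q` the profile equation
is a regular differential equation up to `q = 0`.
-/

set_option autoImplicit false

open Set
open scoped ContDiff

namespace Pool.Agent.MP_187b32_an.Prof

lemma boot {U : Set ℝ} (hU : IsOpen U) {V : ℝ → ℝ} {G : ℝ × ℝ → ℝ}
    (hd : ∀ t ∈ U, HasDerivAt V (G (t, V t)) t) (hG : ∀ t ∈ U, ContDiffAt ℝ ∞ G (t, V t)) :
    ContDiffOn ℝ ∞ V U := by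
  have key : ∀ n : ℕ, ContDiffOn ℝ n V U := by
    intro n
    induction n with
    | zero => exact contDiffOn_zero.2 fun t ht => (hd t ht).continuousAt.continuousWithinAt
    | succ n ih =>
      rw [Nat.cast_succ, contDiffOn_succ_iff_deriv_of_isOpen hU]
      refine ⟨fun t ht => (hd t ht).differentiableAt.differentiableWithinAt, by simp, ?_⟩
      refine ContDiffOn.congr (f := fun t => G (t, V t)) (fun t ht => ?_) fun t ht => (hd t ht).deriv
      exact ((hG t ht).of_le (by exact_mod_cast le_top)).comp_contDiffWithinAt t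
        (contDiffWithinAt_id.prodMk (ih t ht))
  exact contDiffOn_infty.2 key

/-- The polynomial `b`. -/
noncomputable def bb (r w : ℝ) : ℝ := r + (2 + 2 * r / 3) * w + 5 / 3 * w ^ 2

/-- Numerator of the outer equation. -/
noncomputable def nO (r q y : ℝ) : ℝ :=
  3 * (r - 1 + q * y) + y ^ 2 * (1 - r / 3 + 2 / 3 * (q * y)) - y * q

/-- Right-hand side of the outer equation. -/
noncomputable def fO (r q y : ℝ) : ℝ := nO r q y / (q ^ 2 - bb r (q * y))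

/-- The function `mu` in the outer variables. -/
noncomputable def mO (r q y : ℝ) : ℝ := (bb r (q * y) - q ^ 2) / ((1 + q * y) ^ 2 - q ^ 2)

section
variable {r q y : ℝ}

lemma w_bd (hq : q ∈ Icc (-1 / 10 : ℝ) (1 / 2)) (hy : y ∈ Icc (-7 / 20 : ℝ) 0) :
    -7 / 40 ≤ q * y ∧ q * y ≤ 7 / 200 := by
  obtain ⟨h1, h2⟩ := hq
  obtain ⟨h3, h4⟩ := hy
  constructor <;> nlinarith

lemma q_sq (hq : q ∈ Icc (-1 / 10 : ℝ) (1 / 2)) : q ^ 2 ≤ 1 / 4 := by
  obtain ⟨h1, h2⟩ := hq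
  nlinarith

lemma den_ge (hr : r ∈ Icc (11127 / 10000 : ℝ) (11129 / 10000))
    (hq : q ∈ Icc (-1 / 10 : ℝ) (1 / 2)) (hy : y ∈ Icc (-7 / 20 : ℝ) 0) :
    19 / 50 ≤ bb r (q * y) - q ^ 2 := by
  obtain ⟨h1, h2⟩ := w_bd hq hy
  have h3 := q_sq hq
  obtain ⟨h4, h5⟩ := hr
  unfold bb
  nlinarith [sq_nonneg (q * y)]

lemma del_ge (hq : q ∈ Icc (-1 / 10 : ℝ) (1 / 2)) (hy : y ∈ Icc (-7 / 20 : ℝ) 0) :
    43 / 100 ≤ (1 + q * y) ^ 2 - q ^ 2 := by
  obtain ⟨h1, h2⟩ := w_bd hq hy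
  have h3 := q_sq hq
  nlinarith

lemma fO_cd (h : q ^ 2 - bb r (q * y) ≠ 0) :
    ContDiffAt ℝ ∞ (fun p : ℝ × ℝ => fO r p.1 p.2) (q, y) := by
  unfold fO
  refine ContDiffAt.div ?_ ?_ h
  · unfold nO; fun_prop
  · unfold bb; fun_prop

lemma lo_ok (hr : r ∈ Icc (11127 / 10000 : ℝ) (11129 / 10000))
    (hq : q ∈ Icc (-1 / 10 : ℝ) (1 / 2)) : 0 < nO r q (-7 / 20) := by
  obtain ⟨h1, h2⟩ := hq
  obtain ⟨h4, h5⟩ := hr
  unfold nO
  nlinarith

lemma hi_ok (hr : r ∈ Icc (11127 / 10000 : ℝ) (11129 / 10000))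
    (hq : q ∈ Icc (-1 / 10 : ℝ) (1 / 2)) (hy : y = -1 / 20 - 2 / 5 * q) :
    nO r q y < 2 / 5 * (bb r (q * y) - q ^ 2) := by
  obtain ⟨h1, h2⟩ := hq
  obtain ⟨h4, h5⟩ := hr
  have a1 : -1 / 4 ≤ y := by linarith
  have a2 : y ≤ 0 := by linarith
  have a3 : y ^ 2 ≤ 1 / 16 := by nlinarith
  have a4 : -1 / 8 ≤ q * y := by nlinarith
  have a5 : q * y ≤ 1 / 600 := by rw [hy]; nlinarith [sq_nonneg (q + 1 / 16)]
  have a6 : y ^ 2 * (1 - r / 3 + 2 / 3 * (q * y)) ≤ 1 / 16 * (16 / 25) :=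
    (mul_le_mul_of_nonneg_left (by linarith) (sq_nonneg y)).trans
      (mul_le_mul_of_nonneg_right a3 (by norm_num))
  have a7 : q * y = -1 / 20 * q - 2 / 5 * q ^ 2 := by rw [hy]; ring
  have a8 : (r - 11127 / 10000) * (q * y) ≥ -1 / 10000 := by nlinarith
  unfold nO bb
  nlinarith [sq_nonneg (q * y), sq_nonneg (q - 1 / 10)]

theorem outer (hr : r ∈ Icc (11127 / 10000 : ℝ) (11129 / 10000)) {y0 : ℝ}
    (h0 : y0 ∈ Icc (-7 / 20 : ℝ) (-1 / 4)) :
    ∃ Y : ℝ → ℝ, Y (1 / 2) = y0 ∧ ∀ q ∈ Icc (-1 / 10 : ℝ) (1 / 2),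
      HasDerivWithinAt Y (fO r q (Y q)) (Icc (-1 / 10) (1 / 2)) q ∧ Y q ∈ Icc (-7 / 20 : ℝ) 0 := by
  have hm : ∀ τ ∈ Icc (0 : ℝ) (3 / 5), 1 / 2 - τ ∈ Icc (-1 / 10 : ℝ) (1 / 2) := fun τ h =>
    ⟨by linarith [h.2], by linarith [h.1]⟩
  have hy : ∀ τ ∈ Icc (0 : ℝ) (3 / 5), ∀ v ∈ Icc (-7 / 20 : ℝ) (-1 / 4 + 2 / 5 * τ),
      v ∈ Icc (-7 / 20 : ℝ) 0 := fun τ h v hv => ⟨hv.1, by linarith [h.2, hv.2]⟩
  have hcd : ContDiffOn ℝ 1 (fun p : ℝ × ℝ => fO r p.1 p.2)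
      (Icc (-1 / 10 : ℝ) (1 / 2) ×ˢ Icc (-7 / 20 : ℝ) 0) := fun p hp =>
    ((fO_cd (by linarith [den_ge hr hp.1 hp.2])).of_le (by exact_mod_cast le_top)).contDiffWithinAt
  obtain ⟨L, hL⟩ := hcd.exists_lipschitzOnWith one_ne_zero
    ((convex_Icc _ _).prod (convex_Icc _ _)) (isCompact_Icc.prod isCompact_Icc)
  obtain ⟨V, hV0, hV, -⟩ := tube_ode (P := Unit) (F := fun _ τ v => -fO r (1 / 2 - τ) v)
    (lo := fun _ _ => -7 / 20) (hi := fun _ τ => -1 / 4 + 2 / 5 * τ) (lo' := fun _ _ => 0)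
    (hi' := fun _ _ => 2 / 5) (a := 0) (b := 3 / 5) (by norm_num) (by fun_prop) (by fun_prop)
    (fun _ τ h => by linarith [h.1])
    ((hcd.continuousOn.comp (f := fun q : Unit × ℝ × ℝ => (1 / 2 - q.2.1, q.2.2)) (by fun_prop)
      fun q hq => ⟨hm _ hq.1, hy _ hq.1 _ hq.2⟩).neg) L.2
    (fun _ τ h v hv w hw => by
      have := hL.dist_le_mul (1 / 2 - τ, v) ⟨hm _ h, hy _ h _ hv⟩ (1 / 2 - τ, w)
        ⟨hm _ h, hy _ h _ hw⟩
      rw [Prod.dist_eq, dist_self, max_eq_right dist_nonneg, Real.dist_eq, Real.dist_eq] at this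
      rwa [neg_sub_neg, abs_sub_comm])
    (fun _ τ => hasDerivAt_const _ _)
    (fun _ τ => by simpa using ((hasDerivAt_id τ).const_mul (2 / 5 : ℝ)).const_add (-1 / 4))
    (fun _ τ h => by
      have h' := Ico_subset_Icc_self h
      have a1 := den_ge hr (hm _ h') (hy _ h' _ ⟨by linarith [h.1], le_rfl⟩)
      have a2 := hi_ok hr (hm _ h') (y := -1 / 4 + 2 / 5 * τ) (by ring)
      rw [fO, ← div_neg, neg_sub, div_lt_iff₀ (by linarith)]
      exact a2)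
    (fun _ τ h => by
      have h' := Ico_subset_Icc_self h
      have a1 := den_ge hr (hm _ h') (y := -7 / 20) ⟨le_rfl, by norm_num⟩
      rw [fO, ← div_neg, neg_sub]
      exact div_pos (lo_ok hr (hm _ h')) (by linarith))
    (v0 := fun _ => y0) continuous_const (fun _ => by simpa using h0)
  refine ⟨fun q => V () (1 / 2 - q), by simpa using hV0 (), fun q hq => ?_⟩
  have hτ : 1 / 2 - q ∈ Icc (0 : ℝ) (3 / 5) := ⟨by linarith [hq.2], by linarith [hq.1]⟩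
  obtain ⟨h1, h2⟩ := hV () _ hτ
  refine ⟨?_, hy _ hτ _ h2⟩
  have h3 : HasDerivWithinAt (fun q : ℝ => 1 / 2 - q) (-1) (Icc (-1 / 10) (1 / 2)) q :=
    ((hasDerivAt_id q).const_sub (1 / 2)).hasDerivWithinAt
  have := h1.comp q h3 fun x hx => ⟨by linarith [hx.2], by linarith [hx.1]⟩
  simpa [Function.comp_def] using this

end

end Pool.Agent.MP_187b32_an.Prof

end MrgPart0

-- ======== part 1: formerly Pool.Agent.MP_187b32_an.Prof.Glue
section MrgPart1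

/-!
Gluing the inner and the outer part of the profile.
-/

set_option autoImplicit false

open Set Filter Topology
open scoped ContDiff

namespace Pool.Agent.MP_187b32_an.Prof

noncomputable def nuF (r s W : ℝ) : ℝ :=
  (r - 1 + 2 * r / 3 * W + 2 / 3 * W ^ 2) / (1 - s * (1 + W) ^ 2)

noncomputable def aF (r s W : ℝ) : ℝ :=
  ((r - 1) * W * (1 + W) * s - 3 * (r - 1) - 2 * W) / (1 - s * (1 + W) ^ 2)

noncomputable def gF (r s W : ℝ) : ℝ := (aF r s W - W) / (2 * s * (1 - s * nuF r s W))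

section
variable {r s q y lam lam' : ℝ} {W nu : ℝ → ℝ}

lemma eqs_solve (h : Eqs r W nu s) (hD : 1 - s * (1 + W s) ^ 2 ≠ 0) :
    nu s = nuF r s (W s) ∧ AA W nu s = aF r s (W s) := by
  obtain ⟨h1, h2⟩ := h
  unfold nuF aF
  constructor
  · rw [eq_div_iff hD]
    linear_combination (1 / 3) * h1 - (1 + W s) * h2
  · rw [eq_div_iff hD]
    linear_combination (-(1 + W s) * s) * h1 + 3 * h2

lemma eqs_of (h1 : nu s = nuF r s (W s)) (h2 : AA W nu s = aF r s (W s))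
    (hD : 1 - s * (1 + W s) ^ 2 ≠ 0) : Eqs r W nu s := by
  rw [nuF, eq_div_iff hD] at h1
  rw [aF, eq_div_iff hD] at h2
  constructor
  · refine mul_right_cancel₀ hD ?_
    linear_combination (1 + W s) * h2 + 3 * h1
  · refine mul_right_cancel₀ hD ?_
    linear_combination (1 / 3) * h2 + (1 + W s) * s * h1

lemma Rep.mono (h : Rep lam W nu s) (hl : lam' ≤ lam) : Rep lam' W nu s := by
  obtain ⟨h1, h2, h3, h4, h5⟩ := h
  refine ⟨h1, by linarith, by linarith, h4.trans ?_, h5.trans ?_⟩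
  · gcongr
  · gcongr

lemma gF_cd (h1 : 1 - s * (1 + y) ^ 2 ≠ 0) (h2 : s ≠ 0) (h3 : 1 - s * nuF r s y ≠ 0) :
    ContDiffAt ℝ ∞ (fun p : ℝ × ℝ => gF r p.1 p.2) (s, y) := by
  have a1 : ContDiffAt ℝ ∞ (fun p : ℝ × ℝ => nuF r p.1 p.2) (s, y) := by
    unfold nuF
    exact ContDiffAt.div (by fun_prop) (by fun_prop) h1
  have a2 : ContDiffAt ℝ ∞ (fun p : ℝ × ℝ => aF r p.1 p.2) (s, y) := by
    unfold aF
    exact ContDiffAt.div (by fun_prop) (by fun_prop) h1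
  unfold gF
  exact ContDiffAt.div (by fun_prop) (by fun_prop) (by simp [h2, h3])

lemma out_D (hq : q ≠ 0) : 1 - (q ^ 2)⁻¹ * (1 + q * y) ^ 2 = -((1 + q * y) ^ 2 - q ^ 2) / q ^ 2 := by
  field_simp
  ring

lemma out_nu (hq : q ≠ 0) (hΔ : (1 + q * y) ^ 2 - q ^ 2 ≠ 0) : nuF r (q ^ 2)⁻¹ (q * y) =
    -(q ^ 2 * (r - 1 + 2 * r / 3 * (q * y) + 2 / 3 * (q * y) ^ 2)) / ((1 + q * y) ^ 2 - q ^ 2) := by
  rw [nuF, out_D hq]
  field_simp

lemma out_mu (hq : q ≠ 0) (hΔ : (1 + q * y) ^ 2 - q ^ 2 ≠ 0) :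
    1 - (q ^ 2)⁻¹ * nuF r (q ^ 2)⁻¹ (q * y) = mO r q y := by
  rw [out_nu hq hΔ, mO, bb]
  field_simp
  ring

lemma out_a (hq : q ≠ 0) (hΔ : (1 + q * y) ^ 2 - q ^ 2 ≠ 0) : aF r (q ^ 2)⁻¹ (q * y) =
    (-((r - 1) * (q * y) * (1 + q * y)) + q ^ 2 * (3 * (r - 1) + 2 * (q * y))) /
      ((1 + q * y) ^ 2 - q ^ 2) := by
  rw [aF, out_D hq]
  field_simp
  ring

lemma out_g (hq : q ≠ 0) (hΔ : (1 + q * y) ^ 2 - q ^ 2 ≠ 0) (hb : bb r (q * y) - q ^ 2 ≠ 0) :
    gF r (q ^ 2)⁻¹ (q * y) = -(q ^ 3 / 2) * y + q * (fO r q y * -(q ^ 3 / 2)) := by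
  have hb' : q ^ 2 - bb r (q * y) ≠ 0 := fun h => hb (by linarith)
  have e : q ^ 2 - bb r (q * y) = -(bb r (q * y) - q ^ 2) := by ring
  have key : (-((r - 1) * (q * y) * (1 + q * y)) + q ^ 2 * (3 * (r - 1) + 2 * (q * y)))
      - q * y * ((1 + q * y) ^ 2 - q ^ 2) = -(q * y) * (bb r (q * y) - q ^ 2) + q ^ 2 * nO r q y := by
    unfold bb nO
    ring
  rw [gF, out_mu hq hΔ, out_a hq hΔ, mO, fO, e, div_sub' hΔ, mul_comm ((1 + q * y) ^ 2 - q ^ 2),
    key]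
  field_simp

lemma out_rep (hr : r ∈ Icc (11127 / 10000 : ℝ) (11129 / 10000)) (hq0 : 0 < q)
    (hq : q ∈ Icc (-1 / 10 : ℝ) (1 / 2)) (hy : y ∈ Icc (-7 / 20 : ℝ) 0) :
    -1 / 100 ≤ aF r (q ^ 2)⁻¹ (q * y) ∧
      243 / 80 * (q ^ 2)⁻¹ * nuF r (q ^ 2)⁻¹ (q * y) ^ 2 ≤ (3 / 10) ^ 2 := by
  have h1 := del_ge hq hy
  have hΔ : (1 + q * y) ^ 2 - q ^ 2 ≠ 0 := by linarith
  obtain ⟨h2, -⟩ := w_bd hq hy
  have h3 : q * y ≤ 0 := mul_nonpos_of_nonneg_of_nonpos hq0.le hy.2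
  have h4 := q_sq hq
  obtain ⟨h5, h6⟩ := hr
  rw [out_a hq0.ne' hΔ, out_nu hq0.ne' hΔ]
  generalize q * y = w at *
  constructor
  · rw [le_div_iff₀ (by linarith)]
    have a1 : 0 ≤ -((r - 1) * w * (1 + w)) := by
      have := mul_nonneg (mul_nonneg (by linarith : 0 ≤ r - 1) (by linarith : 0 ≤ -w))
        (by linarith : 0 ≤ 1 + w)
      linarith
    nlinarith [sq_nonneg q]
  · set β := r - 1 + 2 * r / 3 * w + 2 / 3 * w ^ 2 with hβ
    have b1 : β ≤ 113 / 1000 := by rw [hβ]; nlinarith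
    have b2 : -113 / 1000 ≤ β := by rw [hβ]; nlinarith [sq_nonneg w]
    have b3 : β ^ 2 ≤ (113 / 1000) ^ 2 := by nlinarith
    have e : 243 / 80 * (q ^ 2)⁻¹ * (-(q ^ 2 * β) / ((1 + w) ^ 2 - q ^ 2)) ^ 2 =
        243 / 80 * (q ^ 2 * β ^ 2) / ((1 + w) ^ 2 - q ^ 2) ^ 2 := by
      field_simp
    rw [e, div_le_iff₀ (by positivity)]
    have b4 : q ^ 2 * β ^ 2 ≤ 1 / 4 * (113 / 1000) ^ 2 := by gcongr
    have b5 : (43 / 100 : ℝ) ^ 2 ≤ ((1 + w) ^ 2 - q ^ 2) ^ 2 := by gcongr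
    nlinarith

lemma q_facts (hs : 4 ≤ s) : 0 < (√s)⁻¹ ∧ (√s)⁻¹ ≤ 1 / 2 ∧ ((√s)⁻¹ ^ 2)⁻¹ = s ∧
    HasDerivAt (fun s => (√s)⁻¹) (-((√s)⁻¹ ^ 3 / 2)) s := by
  have h0 : 0 < s := by linarith
  have h1 : 0 < √s := Real.sqrt_pos.2 h0
  have h2 : 2 ≤ √s := Real.le_sqrt_of_sq_le (by linarith)
  refine ⟨inv_pos.2 h1, by rw [one_div]; exact inv_anti₀ (by norm_num) h2,
    by rw [inv_pow, inv_inv, Real.sq_sqrt h0.le], ?_⟩
  refine ((Real.hasDerivAt_sqrt h0.ne').fun_inv h1.ne').congr_deriv ?_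
  field_simp

end

/-- The profile as a function of `s` on the whole half-line. -/
def GlobStmt : Prop :=
  ∃ (r d lam : ℝ) (W nu Y M : ℝ → ℝ), 11 / 10 < r ∧ r < 9 / 8 ∧ 0 < d ∧ 0 < lam ∧
    ContDiffOn ℝ ∞ W (Ioi (-d)) ∧ ContDiffOn ℝ ∞ nu (Ioi (-d)) ∧
    (∀ s, -d < s → 0 < 1 - s * nu s) ∧ (∀ s, 0 ≤ s → Eqs r W nu s ∧ Rep lam W nu s) ∧
    ContDiffOn ℝ ∞ Y (Ioo (-1 / 10) (1 / 2)) ∧ ContDiffOn ℝ ∞ M (Ioo (-1 / 10) (1 / 2)) ∧
    M 0 = r ∧ (∀ q ∈ Ioo (-1 / 10 : ℝ) (1 / 2), 0 < M q) ∧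
    ∀ s, 4 < s → W s = (√s)⁻¹ * Y (√s)⁻¹ ∧ 1 - s * nu s = M (√s)⁻¹

theorem glob_of_inner (h : InnerStmt) : GlobStmt := by
  classical
  obtain ⟨r, d, lam, Wi, ni, hr1, hr2, hd, hlam, cW, cn, hE, hR, h41, h42⟩ := h
  have hr : r ∈ Icc (11127 / 10000 : ℝ) (11129 / 10000) := ⟨hr1, hr2⟩
  obtain ⟨Y, hY0, hY⟩ := outer hr (y0 := 2 * Wi 4) ⟨by linarith, by linarith⟩
  let Wo : ℝ → ℝ := fun s => (√s)⁻¹ * Y (√s)⁻¹
  let W : ℝ → ℝ := fun s => if s ≤ 4 then Wi s else Wo s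
  let nu : ℝ → ℝ := fun s => if s ≤ 4 then ni s else nuF r s (Wo s)
  have hqm : ∀ s, 4 ≤ s → (√s)⁻¹ ∈ Icc (-1 / 10 : ℝ) (1 / 2) := fun s hs =>
    ⟨by linarith [(q_facts hs).1], (q_facts hs).2.1⟩
  have hW4 : Wo 4 = Wi 4 := by
    have : √(4 : ℝ) = 2 := by
      rw [show (4 : ℝ) = 2 ^ 2 by norm_num, Real.sqrt_sq (by norm_num)]
    simp only [Wo, this, ← one_div, hY0]
    ring
  have hWi : ∀ s, s ≤ 4 → W s = Wi s := fun s hs => if_pos hs
  have hni : ∀ s, s ≤ 4 → nu s = ni s := fun s hs => if_pos hs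
  have hWo : ∀ s, 4 ≤ s → W s = Wo s := fun s hs => by
    rcases hs.eq_or_lt with rfl | hs
    · rw [hWi _ le_rfl, hW4]
    · exact if_neg (not_le.2 hs)
  have hWev : ∀ s, s < 4 → W =ᶠ[𝓝 s] Wi := fun s hs =>
    (Iio_mem_nhds hs : Iio 4 ∈ 𝓝 s) |> fun h => mem_of_superset h fun t ht => hWi t (le_of_lt ht)
  have hnev : ∀ s, s < 4 → nu =ᶠ[𝓝 s] ni := fun s hs =>
    (Iio_mem_nhds hs : Iio 4 ∈ 𝓝 s) |> fun h => mem_of_superset h fun t ht => hni t (le_of_lt ht)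
  have cWa : ∀ s, -d < s → s ≤ 4 → ContDiffAt ℝ ∞ Wi s := fun s h1 h2 =>
    cW.contDiffAt (Ioo_mem_nhds h1 (by linarith))
  have cna : ∀ s, -d < s → s ≤ 4 → ContDiffAt ℝ ∞ ni s := fun s h1 h2 =>
    cn.contDiffAt (Ioo_mem_nhds h1 (by linarith))
  -- outer facts
  have ho : ∀ s, 4 ≤ s → 1 - s * (1 + Wo s) ^ 2 ≠ 0 ∧
      1 - s * nuF r s (Wo s) = mO r (√s)⁻¹ (Y (√s)⁻¹) ∧ 0 < mO r (√s)⁻¹ (Y (√s)⁻¹) ∧
      HasDerivWithinAt Wo (gF r s (Wo s)) (Ici 4) s := fun s hs => by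
    obtain ⟨q0, q1, q2, q3⟩ := q_facts hs
    obtain ⟨y1, y2⟩ := hY _ (hqm s hs)
    have a1 := del_ge (hqm s hs) y2
    have a2 := den_ge hr (hqm s hs) y2
    have a3 := y1.comp s (q3.hasDerivWithinAt (s := Ici 4)) fun t ht => hqm t ht
    have a4 := (q3.hasDerivWithinAt (s := Ici 4)).fun_mul a3
    simp only [Function.comp_def] at a4
    simp only [Wo]
    generalize (√s)⁻¹ = q at *
    subst q2
    refine ⟨?_, out_mu q0.ne' (by linarith), div_pos (by linarith) (by linarith), ?_⟩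
    · rw [out_D q0.ne']
      exact div_ne_zero (by linarith) (by positivity)
    · rw [out_g q0.ne' (by linarith) (by linarith)]
      exact a4
  -- a left neighbourhood of `4`
  obtain ⟨ε, hε, hε'⟩ : ∃ ε > 0, ∀ s, 4 - ε < s → s ≤ 4 → 0 < s ∧ 1 - s * (1 + Wi s) ^ 2 ≠ 0 := by
    have c1 : ContinuousAt (fun s => 1 - s * (1 + Wi s) ^ 2) 4 := by
      have := (cWa 4 (by linarith) le_rfl).continuousAt
      fun_prop
    have c2 := c1.eventually_ne (y := 0) (by nlinarith)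
    obtain ⟨ε, hε, h⟩ := Metric.eventually_nhds_iff.1 (c2.and (Ioi_mem_nhds (by norm_num : (0 : ℝ) < 4)))
    exact ⟨ε, hε, fun s h1 h2 => (h (by rw [Real.dist_eq, abs_lt]; constructor <;> linarith)).symm⟩
  have hi : ∀ s, 4 - ε < s → s ≤ 4 → ni s = nuF r s (Wi s) ∧ 0 < 1 - s * ni s ∧
      HasDerivAt Wi (gF r s (Wi s)) s := fun s h1 h2 => by
    obtain ⟨a1, a2⟩ := hε' s h1 h2
    obtain ⟨a3, a4⟩ := eqs_solve (hE s ⟨by linarith, by linarith⟩) a2
    have a5 := (hR s ⟨a1.le, h2⟩).1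
    refine ⟨a3, a5, ((cWa s (by linarith) h2).differentiableAt (by simp)).hasDerivAt.congr_deriv ?_⟩
    rw [gF, ← a3, ← a4, AA, eq_div_iff (by positivity)]
    ring
  have hm : ∀ s, 4 - ε < s → nu s = nuF r s (W s) ∧ 0 < s ∧ 1 - s * (1 + W s) ^ 2 ≠ 0 ∧
      0 < 1 - s * nu s ∧ HasDerivAt W (gF r s (W s)) s := fun s h1 => by
    rcases lt_trichotomy s 4 with h2 | rfl | h2
    · obtain ⟨a1, a2, a3⟩ := hi s h1 h2.le
      rw [hWi s h2.le, hni s h2.le]
      exact ⟨a1, (hε' s h1 h2.le).1, (hε' s h1 h2.le).2, a2, a3.congr_of_eventuallyEq (hWev s h2)⟩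
    · obtain ⟨a1, a2, a3⟩ := hi 4 h1 le_rfl
      rw [hWi 4 le_rfl, hni 4 le_rfl]
      refine ⟨a1, by norm_num, (hε' 4 h1 le_rfl).2, a2, ?_⟩
      have b1 : HasDerivWithinAt W (gF r 4 (Wi 4)) (Iic 4) 4 :=
        a3.hasDerivWithinAt.congr (fun t ht => hWi t ht) (hWi 4 le_rfl)
      have b2 : HasDerivWithinAt W (gF r 4 (Wi 4)) (Ici 4) 4 :=
        (hW4 ▸ (ho 4 le_rfl).2.2.2).congr (fun t ht => hWo t ht) (hWo 4 le_rfl)
      have b3 := b1.union b2
      rwa [Iic_union_Ici, hasDerivWithinAt_univ] at b3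
    · obtain ⟨a1, a2, a3, a4⟩ := ho s h2.le
      have e : nu s = nuF r s (Wo s) := if_neg (not_le.2 h2)
      rw [e, hWo s h2.le, a2]
      refine ⟨rfl, by linarith, a1, a3, (a4.hasDerivAt (Ici_mem_nhds h2)).congr_of_eventuallyEq ?_⟩
      exact mem_of_superset (Ici_mem_nhds h2) fun t ht => hWo t ht
  have cW1 : ContDiffOn ℝ ∞ W (Ioi (4 - ε)) :=
    boot isOpen_Ioi (G := fun p => gF r p.1 p.2) (fun s hs => (hm s hs).2.2.2.2) fun s hs => by
      obtain ⟨a1, a2, a3, a4, -⟩ := hm s hs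
      exact gF_cd a3 a2.ne' (by rw [← a1]; exact a4.ne')
  have cn1 : ContDiffOn ℝ ∞ nu (Ioi (4 - ε)) := by
    refine ContDiffOn.congr (f := fun s => nuF r s (W s)) ?_ fun s hs => (hm s hs).1
    unfold nuF
    exact ContDiffOn.div (by fun_prop) (by fun_prop) fun s hs => (hm s hs).2.2.1
  obtain ⟨d', hd', hd''⟩ : ∃ d' > 0, ∀ s, -d' < s → s ≤ 0 → -d < s ∧ 0 < 1 - s * ni s := by
    have c1 : ContinuousAt (fun s => 1 - s * ni s) 0 := by
      have := (cna 0 (by linarith) (by norm_num)).continuousAt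
      fun_prop
    have c2 := c1.eventually (Ioi_mem_nhds (a := 0) (by simp))
    obtain ⟨ε, hε, h⟩ := Metric.eventually_nhds_iff.1 (c2.and (Ioi_mem_nhds (neg_lt_zero.2 hd)))
    exact ⟨ε, hε, fun s h1 h2 => (h (by rw [Real.dist_eq, abs_lt]; constructor <;> linarith)).symm⟩
  have hdd : ∀ s, -d' < s → -d < s := fun s hs => by
    rcases le_total s 0 with h | h
    · exact (hd'' s hs h).1
    · linarith
  have cY : ContDiffOn ℝ ∞ Y (Ioo (-1 / 10) (1 / 2)) :=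
    boot isOpen_Ioo (G := fun p => fO r p.1 p.2)
      (fun q hq => (hY q (Ioo_subset_Icc_self hq)).1.hasDerivAt (Icc_mem_nhds hq.1 hq.2))
      fun q hq => fO_cd (by
        linarith [den_ge hr (Ioo_subset_Icc_self hq) (hY q (Ioo_subset_Icc_self hq)).2])
  refine ⟨r, d', min lam (1 / 2), W, nu, Y, fun q => mO r q (Y q), by linarith, by linarith, hd',
    lt_min hlam (by norm_num), fun s hs => ?_, fun s hs => ?_, fun s hs => ?_, fun s hs => ?_, cY,
    ?_, by simp [mO, bb], fun q hq => ?_, fun s hs => ⟨hWo s hs.le, ?_⟩⟩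
  · rcases lt_or_ge s 4 with h | h
    · exact ((cWa s (hdd s hs) h.le).congr_of_eventuallyEq (hWev s h)).contDiffWithinAt
    · exact (cW1.contDiffAt (Ioi_mem_nhds (by linarith))).contDiffWithinAt
  · rcases lt_or_ge s 4 with h | h
    · exact ((cna s (hdd s hs) h.le).congr_of_eventuallyEq (hnev s h)).contDiffWithinAt
    · exact (cn1.contDiffAt (Ioi_mem_nhds (by linarith))).contDiffWithinAt
  · rcases le_total s 0 with h | h
    · rw [hni s (by linarith)]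
      exact (hd'' s hs h).2
    · rcases le_total s 4 with h' | h'
      · rw [hni s h']
        exact (hR s ⟨h, h'⟩).1
      · exact (hm s (by linarith)).2.2.2.1
  · rcases lt_or_ge s 4 with h | h
    · have e : AA W nu s = AA Wi ni s := by
        simp only [AA, hWi s h.le, hni s h.le, (hWev s h).deriv_eq]
      unfold Eqs
      refine ⟨?_, Rep.mono ?_ (min_le_left _ _)⟩
      · rw [e, hWi s h.le, hni s h.le]
        exact hE s ⟨by linarith, by linarith⟩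
      · unfold Rep
        rw [e, hWi s h.le, hni s h.le]
        exact hR s ⟨hs, h.le⟩
    · obtain ⟨a1, a2, a3, a4, a5⟩ := hm s (by linarith)
      have e : AA W nu s = aF r s (W s) := by
        rw [AA, a5.deriv, gF, ← a1]
        field_simp
        ring
      refine ⟨eqs_of a1 e a3, Rep.mono (lam := 1 / 2) ?_ (min_le_right _ _)⟩
      obtain ⟨q0, q1, q2, -⟩ := q_facts h
      have y2 := (hY _ (hqm s h)).2
      obtain ⟨b1, b2⟩ := out_rep hr q0 (hqm s h) y2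
      have b3 := (w_bd (hqm s h) y2).1
      rw [q2] at b1 b2
      change _ ≤ aF r s (Wo s) at b1
      change _ * nuF r s (Wo s) ^ 2 ≤ _ at b2
      change _ ≤ Wo s at b3
      rw [← hWo s h] at b1 b2 b3
      rw [← e] at b1
      rw [← a1] at b2
      exact ⟨a4, by linarith, by linarith, by nlinarith, by nlinarith⟩
  · unfold mO bb
    refine ContDiffOn.div (by fun_prop) (by fun_prop) fun q hq => ?_
    linarith [del_ge (Ioo_subset_Icc_self hq) (hY q (Ioo_subset_Icc_self hq)).2]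
  · have h1 := hY q (Ioo_subset_Icc_self hq)
    exact div_pos (by linarith [den_ge hr (Ioo_subset_Icc_self hq) h1.2])
      (by linarith [del_ge (Ioo_subset_Icc_self hq) h1.2])
  · have e : nu s = nuF r s (Wo s) := if_neg (not_le.2 hs)
    rw [e]
    exact (ho s hs.le).2.1

end Pool.Agent.MP_187b32_an.Prof

end MrgPart1

-- ======== part 2: formerly Pool.Agent.MP_187b32_an.PD.Quad
section MrgPart2

/-!
Quadrature: from the profile as a function of `s` to the radial profile as a function of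
`z = |y| ^ 2`, with the symbol bounds.
-/

set_option autoImplicit false

open Set Filter Topology
open scoped ContDiff

namespace Pool.Agent.MP_187b32_an.PD

open Pool.Agent.MP_187b32_an.Prof (boot q_facts)

lemma far {J : Set ℝ} (hJ : IsOpen J) {z1 : ℝ} (hz1 : 0 < z1) {q E f M G φ : ℝ → ℝ}
    (hq : ∀ z, z1 < z → q z ∈ J ∧ HasDerivAt q (-(q z * M (q z)) / (2 * z)) z)
    (hE : ∀ z, z1 < z → HasDerivAt E (E z * G (q z) / z) z) (hM : ContDiffOn ℝ ∞ M J)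
    (hG : ContDiffOn ℝ ∞ G J) (hφ : ContDiffOn ℝ ∞ φ J)
    (hf : ∀ z, z1 < z → f z = E z * φ (q z)) (n : ℕ) :
    ∃ ψ, ContDiffOn ℝ ∞ ψ J ∧ ∀ z, z1 < z → deriv^[n] f z = E z * ψ (q z) / z ^ n := by
  induction n with
  | zero => exact ⟨φ, hφ, fun z hz => by simpa using hf z hz⟩
  | succ n ih =>
    obtain ⟨ψ, hψ, h⟩ := ih
    have hψ' : ContDiffOn ℝ ∞ (deriv ψ) J := hψ.deriv_of_isOpen hJ (by simp)
    refine ⟨fun x => (G x - n) * ψ x - x * M x / 2 * deriv ψ x, by fun_prop, fun z hz => ?_⟩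
    have hz0 : z ≠ 0 := by linarith
    have e : deriv^[n] f =ᶠ[𝓝 z] fun z => E z * ψ (q z) / z ^ n :=
      mem_of_superset (Ioi_mem_nhds hz) fun t ht => h t ht
    have d1 : HasDerivAt ψ (deriv ψ (q z)) (q z) :=
      ((hψ.contDiffAt (hJ.mem_nhds (hq z hz).1)).differentiableAt (by simp)).hasDerivAt
    have d2 := ((hE z hz).fun_mul (d1.comp z (hq z hz).2)).fun_div (hasDerivAt_pow n z)
      (pow_ne_zero n hz0)
    simp only [Function.comp_def] at d2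
    rw [Function.iterate_succ_apply', e.deriv_eq, d2.deriv]
    rcases n with _ | n
    · field_simp
      simp
      ring
    · simp only [Nat.add_sub_cancel]
      field_simp
      ring

lemma cd_iter {U : Set ℝ} (hU : IsOpen U) {f : ℝ → ℝ} (hf : ContDiffOn ℝ ∞ f U) (n : ℕ) :
    ContDiffOn ℝ ∞ (deriv^[n] f) U := by
  induction n with
  | zero => exact hf
  | succ n ih =>
    rw [Function.iterate_succ_apply']
    exact ih.deriv_of_isOpen hU (by simp)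

lemma rpow_cmp {z2 a : ℝ} (hz2 : 0 < z2) (ha : a ≤ 0) {z : ℝ} (hz : z2 ≤ z) :
    (1 + z) ^ a ≤ z ^ a ∧ z ^ a ≤ (z2 / (1 + z2)) ^ a * (1 + z) ^ a := by
  have h0 : 0 < z := by linarith
  refine ⟨Real.rpow_le_rpow_of_nonpos h0 (by linarith) ha, ?_⟩
  rw [← Real.mul_rpow (by positivity) (by positivity)]
  refine Real.rpow_le_rpow_of_nonpos (by positivity) ?_ ha
  rw [div_mul_eq_mul_div, div_le_iff₀ (by positivity)]
  nlinarith

lemma symz {δ a z2 : ℝ} {f : ℝ → ℝ} (hδ : 0 < δ) (hf : ContDiffOn ℝ ∞ f (Ioi (-δ))) (ha : a ≤ 0)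
    (hz2 : 0 < z2) (hfar : ∀ n : ℕ, ∃ K, ∀ z, z2 ≤ z → |deriv^[n] f z| ≤ K * z ^ a / z ^ n) :
    SymZ δ a f := by
  refine ⟨hf, fun n => ?_⟩
  obtain ⟨K, hK⟩ := hfar n
  have hc : ContinuousOn (fun z => deriv^[n] f z / (1 + z) ^ (a - n)) (Icc 0 z2) := by
    refine ((cd_iter isOpen_Ioi hf n).continuousOn.mono fun z hz => ?_).div
      (ContinuousOn.rpow_const (by fun_prop) fun z hz => Or.inl ?_) fun z hz => ?_
    · exact lt_of_lt_of_le (neg_lt_zero.2 hδ) hz.1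
    · linarith [hz.1]
    · exact (Real.rpow_pos_of_pos (by linarith [hz.1]) _).ne'
  obtain ⟨L, hL⟩ := isCompact_Icc.exists_bound_of_continuousOn hc
  refine ⟨max L (|K| * (z2 / (1 + z2)) ^ (a - n)), fun z hz => ?_⟩
  have hp : 0 < (1 + z) ^ (a - n) := Real.rpow_pos_of_pos (by linarith) _
  rcases le_total z z2 with h | h
  · have := hL z ⟨hz, h⟩
    rw [Real.norm_eq_abs, abs_div, abs_of_pos hp, div_le_iff₀ hp] at this
    exact this.trans (mul_le_mul_of_nonneg_right (le_max_left _ _) hp.le)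
  · have h0 : 0 < z := by linarith
    have h1 := (rpow_cmp hz2 (a := a - n) (by linarith [Nat.cast_nonneg (α := ℝ) n]) h).2
    refine (hK z h).trans (le_trans ?_ (mul_le_mul_of_nonneg_right (le_max_right _ _) hp.le))
    rw [mul_div_assoc, ← Real.rpow_natCast, ← Real.rpow_sub h0, mul_assoc]
    exact mul_le_mul (le_abs_self K) h1 (by positivity) (abs_nonneg K)

lemma far_bd {z1 z2 a L : ℝ} (h12 : z1 < z2) (hz1 : 0 < z1) {q E f ψ : ℝ → ℝ} {n : ℕ}
    (hψ : ContDiffOn ℝ ∞ ψ (Ioo (-1 / 10) (1 / 2)))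
    (h : ∀ z, z1 < z → deriv^[n] f z = E z * ψ (q z) / z ^ n)
    (hq : ∀ z, z2 ≤ z → q z ∈ Icc (0 : ℝ) (1 / 3)) (hE : ∀ z, z2 ≤ z → |E z| ≤ L * z ^ a) :
    ∃ K, ∀ z, z2 ≤ z → |deriv^[n] f z| ≤ K * z ^ a / z ^ n := by
  have hsub : Icc (0 : ℝ) (1 / 3) ⊆ Ioo (-1 / 10) (1 / 2) :=
    Icc_subset_Ioo (by norm_num) (by norm_num)
  obtain ⟨B, hB⟩ := isCompact_Icc.exists_bound_of_continuousOn (hψ.continuousOn.mono hsub)
  refine ⟨B * L, fun z hz => ?_⟩
  have h0 : 0 < z := by linarith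
  rw [h z (by linarith), abs_div, abs_of_pos (pow_pos h0 n), abs_mul, mul_comm, mul_assoc]
  refine div_le_div_of_nonneg_right ?_ (by positivity)
  exact mul_le_mul (hB _ (hq z hz)) (hE z hz) (abs_nonneg _) ((norm_nonneg _).trans (hB _ (hq z hz)))

lemma log_bd {r : ℝ} {H M : ℝ → ℝ} (hM : ContDiffOn ℝ ∞ M (Ioo (-1 / 10) (1 / 2))) (hM0 : M 0 = r)
    (hpos : ∀ q ∈ Ioo (-1 / 10 : ℝ) (1 / 2), 0 < M q)
    (hH : ∀ s, 4 < s → HasDerivAt H (((M (√s)⁻¹)⁻¹ - 1) / s) s) :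
    ∃ K, ∀ s, 9 ≤ s → |H s - (r⁻¹ - 1) * Real.log s| ≤ K := by
  have hsub : Icc (0 : ℝ) (1 / 3) ⊆ Ioo (-1 / 10) (1 / 2) :=
    Icc_subset_Ioo (by norm_num) (by norm_num)
  have h1 : ContDiffOn ℝ 1 (fun q => (M q)⁻¹) (Icc 0 (1 / 3)) :=
    ((hM.inv fun q hq => (hpos q hq).ne').mono hsub).of_le (by exact_mod_cast le_top)
  obtain ⟨L, hL⟩ := h1.exists_lipschitzOnWith one_ne_zero (convex_Icc _ _) isCompact_Icc
  have hq : ∀ s : ℝ, 9 ≤ s → (√s)⁻¹ ∈ Icc (0 : ℝ) (1 / 3) := fun s hs =>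
    ⟨by positivity, by
      rw [one_div]
      exact inv_anti₀ (by norm_num) (Real.le_sqrt_of_sq_le (by linarith))⟩
  have hd : ∀ (c : ℝ) (s : ℝ), 9 ≤ s → ∃ v,
      HasDerivAt (fun s => H s - (r⁻¹ - 1) * Real.log s + c * (√s)⁻¹) v s ∧
        |v + c * ((√s)⁻¹ ^ 3 / 2)| ≤ L * (√s)⁻¹ ^ 3 := fun c s hs => by
    obtain ⟨q0, -, q2, q3⟩ := q_facts (s := s) (by linarith)
    refine ⟨_, ((hH s (by linarith)).fun_sub ((Real.hasDerivAt_log (by linarith)).const_mul _)).fun_add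
      (q3.const_mul c), ?_⟩
    have a1 := hL.dist_le_mul _ (hq s hs) 0 ⟨le_rfl, by norm_num⟩
    rw [Real.dist_eq, Real.dist_eq, hM0, sub_zero, abs_of_pos q0] at a1
    generalize (√s)⁻¹ = q at *
    subst q2
    have e : ((M q)⁻¹ - 1) / (q ^ 2)⁻¹ - (r⁻¹ - 1) * (q ^ 2)⁻¹⁻¹ + c * -(q ^ 3 / 2) +
        c * (q ^ 3 / 2) = ((M q)⁻¹ - r⁻¹) * q ^ 2 := by
      rw [div_inv_eq_mul, inv_inv]
      ring
    rw [e, abs_mul, abs_of_pos (pow_pos q0 2)]
    nlinarith [pow_pos q0 2]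
  have hanti : AntitoneOn (fun s => H s - (r⁻¹ - 1) * Real.log s + (2 * L) * (√s)⁻¹) (Ici 9) := by
    choose! v hv using hd (2 * L)
    refine antitoneOn_of_deriv_nonpos (convex_Ici _)
      (fun s hs => (hv s hs).1.continuousAt.continuousWithinAt)
      (fun s hs => (hv s (interior_subset hs)).1.differentiableAt.differentiableWithinAt)
      fun s hs => ?_
    have := hv s (interior_subset hs)
    rw [this.1.deriv]
    linarith [(abs_le.1 this.2).2]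
  have hmono : MonotoneOn (fun s => H s - (r⁻¹ - 1) * Real.log s + (-2 * L) * (√s)⁻¹) (Ici 9) := by
    choose! v hv using hd (-2 * L)
    refine monotoneOn_of_deriv_nonneg (convex_Ici _)
      (fun s hs => (hv s hs).1.continuousAt.continuousWithinAt)
      (fun s hs => (hv s (interior_subset hs)).1.differentiableAt.differentiableWithinAt)
      fun s hs => ?_
    have := hv s (interior_subset hs)
    rw [this.1.deriv]
    linarith [(abs_le.1 this.2).1]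
  refine ⟨|H 9 - (r⁻¹ - 1) * Real.log 9| + 2 * L * (√9)⁻¹, fun s hs => ?_⟩
  have a1 := hanti (mem_Ici.2 le_rfl) hs hs
  have a2 := hmono (mem_Ici.2 le_rfl) hs hs
  have a3 : 0 ≤ (L : ℝ) * (√s)⁻¹ := by positivity
  simp only at a1 a2
  rw [abs_le]
  constructor
  · linarith [neg_abs_le (H 9 - (r⁻¹ - 1) * Real.log 9)]
  · linarith [le_abs_self (H 9 - (r⁻¹ - 1) * Real.log 9)]

/-- Inverse of an increasing smooth function. -/
lemma exists_inv {a b : ℝ} (hab : a < b) {Z Z' : ℝ → ℝ} (hZ : ∀ s, a < s → HasDerivAt Z (Z' s) s)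
    (hpos : ∀ s, a < s → 0 < Z' s) (htop : ∀ z, ∃ s, b ≤ s ∧ z ≤ Z s) :
    StrictMonoOn Z (Ioi a) ∧ ∃ S : ℝ → ℝ, ∀ z, Z b < z → b < S z ∧ Z (S z) = z ∧
      HasDerivAt S (Z' (S z))⁻¹ z := by
  have hm : StrictMonoOn Z (Ioi a) := strictMonoOn_of_deriv_pos (convex_Ioi _)
    (fun s hs => (hZ s hs).continuousAt.continuousWithinAt) fun s hs => by
      rw [interior_Ioi] at hs
      rw [(hZ s hs).deriv]
      exact hpos s hs
  have hex : ∀ z, Z b < z → ∃ s, b < s ∧ Z s = z := fun z hz => by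
    obtain ⟨t, ht, hzt⟩ := htop z
    obtain ⟨s, hs, e⟩ := intermediate_value_Ioc ht
      (fun s hs => (hZ s (hab.trans_le hs.1)).continuousAt.continuousWithinAt) ⟨hz, hzt⟩
    exact ⟨s, hs.1, e⟩
  choose! S hS1 hS2 using hex
  refine ⟨hm, S, fun z hz => ⟨hS1 z hz, hS2 z hz, ?_⟩⟩
  have hmono : MonotoneOn S (Ioi (Z b)) := fun x hx y hy hxy => by
    rw [← hm.le_iff_le (hab.trans (hS1 x hx)) (hab.trans (hS1 y hy)), hS2 x hx, hS2 y hy]
    exact hxy
  have himg : Ioi b ⊆ S '' Ioi (Z b) := fun s hs => by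
    have h1 : Z b < Z s := hm hab (hab.trans hs) hs
    exact ⟨Z s, h1, hm.injOn (hab.trans (hS1 _ h1)) (hab.trans hs) (hS2 _ h1)⟩
  exact HasDerivAt.of_local_left_inverse
    (continuousAt_of_monotoneOn_of_image_mem_nhds hmono (Ioi_mem_nhds hz)
      (mem_of_superset (Ioi_mem_nhds (hS1 z hz)) himg))
    (hZ _ (hab.trans (hS1 z hz))) (hpos _ (hab.trans (hS1 z hz))).ne'
    (mem_of_superset (Ioi_mem_nhds hz) fun y hy => hS2 y hy)

lemma rep_aux {x y t k : ℝ} (hk : 0 < k) (hy : 0 < y) (h : 4 / 3 * x ≤ y ^ 2) (ht : k * t = x) :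
    √(4 / 3 * k) * √t ≤ y := by
  rw [← Real.sqrt_mul (by positivity)]
  exact Real.sqrt_le_iff.2 ⟨hy.le, by rw [mul_assoc, ht]; exact h⟩

theorem quadStmt : QuadStmt := by
  intro D r hD hr1 h
  obtain ⟨d, lam, W, nu, Y, M, hd, hlam, cW, cn, hμ, hER, cY, cM, hM0, hMp, htail⟩ := h
  have hk : 0 < D + 2 := by linarith
  obtain ⟨k, hk0, hk2⟩ : ∃ k : ℝ, 0 < k ∧ (D + 2) * k ^ 2 = 1 :=
    ⟨(√(D + 2))⁻¹, by positivity, by rw [inv_pow, Real.sq_sqrt hk.le, mul_inv_cancel₀ hk.ne']⟩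
  have hr0 : 0 < r := by linarith
  let μ : ℝ → ℝ := fun s => 1 - s * nu s
  let η : ℝ → ℝ := fun s => nu s / μ s
  have cμ : ContDiffOn ℝ ∞ μ (Ioi (-d)) := by fun_prop
  have cη : ContDiffOn ℝ ∞ η (Ioi (-d)) := cn.div cμ fun s hs => (hμ s hs).ne'
  let H : ℝ → ℝ := fun s => ∫ t in (0 : ℝ)..s, η t
  have hH : ∀ s, -d < s → HasDerivAt H (η s) s := fun s hs =>
    intervalIntegral.integral_hasDerivAt_right
      ((cη.continuousOn.mono fun t ht => lt_of_lt_of_le (lt_min (neg_lt_zero.2 hd) hs)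
        ht.1).intervalIntegrable)
      (cη.continuousOn.stronglyMeasurableAtFilter isOpen_Ioi s hs)
      (cη.continuousOn.continuousAt (Ioi_mem_nhds hs))
  have cH : ContDiffOn ℝ ∞ H (Ioi (-d)) :=
    boot isOpen_Ioi (G := fun p => η p.1) hH fun s hs =>
      (cη.contDiffAt (Ioi_mem_nhds hs)).comp (s, H s) contDiffAt_fst
  let Z : ℝ → ℝ := fun s => s * Real.exp (H s)
  have hZ : ∀ s, -d < s → HasDerivAt Z (Real.exp (H s) / μ s) s := fun s hs => by
    refine ((hasDerivAt_id s).fun_mul (hH s hs).exp).congr_deriv ?_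
    have := (hμ s hs).ne'
    simp only [η, μ, id]
    field_simp
    ring
  obtain ⟨K, hK⟩ := log_bd (H := H) cM hM0 hMp fun s hs => by
    refine (hH s (by linarith)).congr_deriv ?_
    have h1 := (hμ s (by linarith)).ne'
    have h2 : s ≠ 0 := by linarith
    rw [← (htail s hs).2, eq_div_iff h2, inv_eq_one_div, div_sub_one h1]
    simp only [η, μ]
    ring
  obtain ⟨hm, S, hS⟩ := exists_inv (a := -d) (b := -d / 2) (by linarith) hZ
    (fun s hs => div_pos (Real.exp_pos _) (hμ s hs)) fun z => by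
      refine ⟨max 9 (Real.exp (r * (z + K))), le_max_of_le_left (by linarith), ?_⟩
      set s := max 9 (Real.exp (r * (z + K))) with hs
      have h9 : 9 ≤ s := le_max_left _ _
      have h1 : r * (z + K) ≤ Real.log s :=
        (Real.le_log_iff_exp_le (by linarith)).2 (le_max_right _ _)
      have h2 := (abs_le.1 (hK s h9)).1
      have h3 : z + K ≤ r⁻¹ * Real.log s := by
        rw [le_inv_mul_iff₀ hr0]
        exact h1
      have h4 : Z s = Real.exp (Real.log s + H s) := by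
        rw [Real.exp_add, Real.exp_log (by linarith)]
      rw [h4]
      linarith [Real.add_one_le_exp (Real.log s + H s)]
  have hZ0 : Z 0 = 0 := zero_mul _
  have hdm : ∀ s : ℝ, 0 ≤ s → s ∈ Ioi (-d) := fun s hs => by
    simp only [mem_Ioi]
    linarith
  have hd2 : -d / 2 ∈ Ioi (-d) := by
    simp only [mem_Ioi]
    linarith
  set δ := -Z (-d / 2) with hδ
  have hδ0 : 0 < δ := by
    have := hm hd2 (hdm 0 le_rfl) (by linarith)
    linarith
  replace hS : ∀ z, -δ < z → -d < S z ∧ Z (S z) = z ∧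
      HasDerivAt S (μ (S z) * Real.exp (-H (S z))) z := fun z hz => by
    obtain ⟨a1, a2, a3⟩ := hS z (by linarith)
    refine ⟨by linarith, a2, a3.congr_deriv ?_⟩
    rw [inv_div, Real.exp_neg, div_eq_mul_inv]
  have hle : ∀ s z, 0 ≤ s → Z s ≤ z → -δ < z ∧ s ≤ S z := fun s z hs hz => by
    have a1 : -δ < z := by
      have := hm.monotoneOn (hdm 0 le_rfl) (hdm s hs) hs
      linarith
    exact ⟨a1, (hm.le_iff_le (hdm s hs) (hS z a1).1).1 (by rw [(hS z a1).2.1]; exact hz)⟩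
  have hlt : ∀ z, Z 4 < z → -δ < z ∧ 4 < S z := fun z hz => by
    have a1 := (hle 4 z (by norm_num) hz.le).1
    exact ⟨a1, (hm.lt_iff_lt (hdm 4 (by norm_num)) (hS z a1).1).1 (by rw [(hS z a1).2.1]; exact hz)⟩
  have hze : ∀ z, -δ < z → z * Real.exp (-H (S z)) = S z := fun z hz => by
    have a1 : S z * Real.exp (H (S z)) = z := (hS z hz).2.1
    rw [Real.exp_neg, mul_inv_eq_iff_eq_mul₀ (Real.exp_pos _).ne', a1]
  have cS : ContDiffOn ℝ ∞ S (Ioi (-δ)) :=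
    boot isOpen_Ioi (G := fun p => μ p.2 * Real.exp (-H p.2)) (fun z hz => (hS z hz).2.2)
      fun z hz => by
        have a1 := (cμ.contDiffAt (Ioi_mem_nhds (hS z hz).1)).comp (z, S z) contDiffAt_snd
        have a2 := (cH.contDiffAt (Ioi_mem_nhds (hS z hz).1)).comp (z, S z) contDiffAt_snd
        exact a1.mul a2.neg.exp
  let w : ℝ → ℝ := fun z => W (S z)
  let C : ℝ → ℝ := fun z => k * Real.exp (H (S z) / 2)
  have cw : ContDiffOn ℝ ∞ w (Ioi (-δ)) := cW.comp cS fun z hz => (hS z hz).1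
  have cC : ContDiffOn ℝ ∞ C (Ioi (-δ)) :=
    contDiffOn_const.mul ((cH.comp cS fun z hz => (hS z hz).1).div_const 2).exp
  have hw : ∀ z, -δ < z → HasDerivAt w (deriv W (S z) * (μ (S z) * Real.exp (-H (S z)))) z :=
    fun z hz => (((cW.contDiffAt (Ioi_mem_nhds (hS z hz).1)).differentiableAt
      (by simp)).hasDerivAt).comp z (hS z hz).2.2
  have hC : ∀ z, -δ < z → HasDerivAt C (C z * nu (S z) * Real.exp (-H (S z)) / 2) z :=
    fun z hz => by
      refine ((((hH _ (hS z hz).1).comp z (hS z hz).2.2).div_const 2).exp.const_mul _).congr_deriv ?_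
      have := (hμ _ (hS z hz).1).ne'
      have e : η (S z) * μ (S z) = nu (S z) := div_mul_cancel₀ _ this
      simp only [C, Function.comp_def]
      rw [← e]
      ring
  have hC2 : ∀ z, (D + 2) * (C z ^ 2 * Real.exp (-H (S z))) = 1 := fun z => by
    simp only [C]
    rw [mul_pow, ← Real.exp_nat_mul, mul_assoc, ← Real.exp_add, ← hk2]
    simp [mul_div_cancel₀]
  have hCp : ∀ z, 0 < C z := fun z => by positivity
  have hZ4 : 0 < Z 4 := by positivity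
  have hZ49 : Z 4 < Z 9 := hm (hdm 4 (by norm_num)) (hdm 9 (by norm_num)) (by norm_num)
  let q : ℝ → ℝ := fun z => (√(S z))⁻¹
  have hq : ∀ z, Z 4 < z → q z ∈ Ioo (-1 / 10 : ℝ) (1 / 2) ∧
      HasDerivAt q (-(q z * M (q z)) / (2 * z)) z := fun z hz => by
    obtain ⟨a1, a2⟩ := hlt z hz
    obtain ⟨q0, -, q2, q3⟩ := q_facts a2.le
    refine ⟨⟨by linarith, ?_⟩, (q3.comp z (hS z a1).2.2).congr_deriv ?_⟩
    · rw [one_div]
      exact inv_strictAnti₀ (by norm_num) (Real.lt_sqrt_of_sq_lt (by linarith))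
    · have a3 := hze z a1
      have a4 : z ≠ 0 := by linarith
      have a5 : Real.exp (-H (S z)) = ((√(S z))⁻¹ ^ 2)⁻¹ / z := by
        rw [q2, eq_div_iff a4, mul_comm, a3]
      simp only [μ, q]
      rw [(htail _ a2).2, a5]
      generalize (√(S z))⁻¹ = x at *
      field_simp
  have hq3 : ∀ z, Z 9 ≤ z → q z ∈ Icc (0 : ℝ) (1 / 3) := fun z hz =>
    ⟨by positivity, by
      rw [one_div]
      exact inv_anti₀ (by norm_num)
        (Real.le_sqrt_of_sq_le (by linarith [(hle 9 z (by norm_num) hz).2]))⟩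
  -- power laws
  have hlog : ∀ z, Z 9 ≤ z → ∃ φ, |φ| ≤ K ∧ Real.log (S z) = r * (Real.log z - φ) ∧
      H (S z) = (1 - r) * Real.log z + r * φ := fun z hz => by
    obtain ⟨a1, a2⟩ := hle 9 z (by norm_num) hz
    have a3 : Real.log z = Real.log (S z) + H (S z) := by
      have a4 : S z * Real.exp (H (S z)) = z := (hS z a1).2.1
      have a5 := Real.log_mul (x := S z) (by linarith) (Real.exp_pos (H (S z))).ne'
      rwa [a4, Real.log_exp] at a5
    refine ⟨_, hK _ a2, ?_, ?_⟩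
    · rw [a3]
      field_simp
      ring
    · rw [a3]
      field_simp
      ring
  have hqb : ∀ z, Z 9 ≤ z → |q z| ≤ Real.exp (r * K / 2) * z ^ (-r / 2) := fun z hz => by
    obtain ⟨φ, a1, a2, -⟩ := hlog z hz
    have a3 : 0 < S z := by linarith [(hle 9 z (by norm_num) hz).2]
    have a4 : q z = Real.exp (-(Real.log (S z) / 2)) := by
      simp only [q]
      rw [Real.exp_neg, Real.exp_half, Real.exp_log a3]
    rw [a4, abs_of_pos (Real.exp_pos _), Real.rpow_def_of_pos (by linarith), ← Real.exp_add, a2]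
    exact Real.exp_le_exp.2 (by nlinarith [(abs_le.1 a1).2])
  have hCb : ∀ z, Z 9 ≤ z → k * Real.exp (-(r * K / 2)) * z ^ ((1 - r) / 2) ≤ C z ∧
      |C z| ≤ k * Real.exp (r * K / 2) * z ^ ((1 - r) / 2) := fun z hz => by
    obtain ⟨φ, a1, -, a2⟩ := hlog z hz
    rw [abs_of_pos (hCp z), Real.rpow_def_of_pos (by linarith), mul_assoc, mul_assoc,
      ← Real.exp_add, ← Real.exp_add]
    simp only [C, a2]
    constructor
    · gcongr
      nlinarith [(abs_le.1 a1).1]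
    · gcongr
      nlinarith [(abs_le.1 a1).2]
  have sw : SymZ δ (-r / 2) w := symz hδ0 cw (by linarith) (hZ4.trans hZ49) fun n => by
    obtain ⟨ψ, a1, a2⟩ := far isOpen_Ioo hZ4 (E := q) (f := w) (G := fun x => -M x / 2) hq
      (fun z hz => (hq z hz).2.congr_deriv (by ring)) cM (by fun_prop) cY
      (fun z hz => (htail _ (hlt z hz).2).1) n
    exact far_bd hZ49 hZ4 a1 a2 hq3 hqb
  have sC : SymZ δ ((1 - r) / 2) C := symz hδ0 cC (by linarith) (hZ4.trans hZ49) fun n => by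
    obtain ⟨ψ, a1, a2⟩ := far isOpen_Ioo hZ4 (E := C) (f := C) (G := fun x => (1 - M x) / 2)
      (φ := fun _ => 1) hq (fun z hz => (hC z (hlt z hz).1).congr_deriv (by
        have a4 : z ≠ 0 := by linarith
        simp only [q]
        rw [← (htail _ (hlt z hz).2).2, eq_div_iff a4]
        linear_combination (C z * nu (S z) / 2) * hze z (hlt z hz).1)) cM (by fun_prop)
      contDiffOn_const (fun z _ => (mul_one _).symm) n
    exact far_bd hZ49 hZ4 a1 a2 hq3 fun z hz => (hCb z hz).2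
  obtain ⟨z0, -, hz0⟩ := (isCompact_Icc (a := 0) (b := Z 9)).exists_isMinOn
    ⟨0, le_rfl, by linarith⟩ (cC.continuousOn.mono fun z hz =>
      lt_of_lt_of_le (neg_lt_zero.2 hδ0) hz.1)
  have hA : ∀ z, 0 ≤ z → -δ < z ∧ 0 ≤ S z ∧ w z + 2 * z * deriv w z = AA W nu (S z) :=
    fun z hz => by
      obtain ⟨a1, a2⟩ := hle 0 z le_rfl (by linarith)
      refine ⟨a1, a2, ?_⟩
      rw [(hw z a1).deriv, AA]
      simp only [w, μ]
      linear_combination (2 * deriv W (S z) * (1 - S z * nu (S z))) * hze z a1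
  refine ⟨lam, min (C z0) (k * Real.exp (-(r * K / 2))), δ, w, C, hlam,
    lt_min (hCp _) (by positivity), hδ0, sw, sC, fun z hz => ?_, fun z hz => ?_, fun z hz => ?_,
    fun z hz => ?_⟩
  · obtain ⟨a1, a2, a3⟩ := hA z hz
    rw [a3, (hC z a1).deriv]
    simp only [w]
    linear_combination (hER _ a2).1.1 + nu (S z) * hC2 z
  · obtain ⟨a1, a2, a3⟩ := hA z hz
    rw [(hC z a1).deriv]
    simp only [w] at a3 ⊢
    have hi : 1 / D * D = 1 := one_div_mul_cancel hD.ne'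
    linear_combination C z * (hER _ a2).1.2 + (1 / D * C z) * a3 +
      (1 + W (S z)) * C z * nu (S z) * hze z a1 + C z * W (S z) * hi
  · rcases le_total z (Z 9) with h | h
    · have a1 : (1 + z) ^ ((1 - r) / 2) ≤ 1 :=
        Real.rpow_le_one_of_one_le_of_nonpos (by linarith) (by linarith)
      exact (mul_le_mul (min_le_left _ _) a1 (by positivity) (hCp _).le).trans
        (by simpa using hz0 ⟨hz, h⟩)
    · exact (mul_le_mul (min_le_right _ _) (rpow_cmp (hZ4.trans hZ49) (by linarith) h).1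
        (by positivity) (by positivity)).trans (hCb z h).1
  · obtain ⟨a1, a2, a3⟩ := hA z hz
    obtain ⟨-, b1, b2, b3, b4⟩ := (hER _ a2).2
    have e : (D + 2) * (4 * z * deriv C z ^ 2) = S z * nu (S z) ^ 2 := by
      rw [(hC z a1).deriv]
      linear_combination (nu (S z) ^ 2 * (z * Real.exp (-H (S z)))) * hC2 z +
        nu (S z) ^ 2 * hze z a1
    have c1 := rep_aux hk (sub_pos.2 b1) (by linarith) e
    have c2 := rep_aux hk (sub_pos.2 b2) (by linarith) e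
    simp only [w] at a3 ⊢
    constructor <;> linarith

end Pool.Agent.MP_187b32_an.PD

end MrgPart2

-- marker of a merged file
example : 731051 + 441345 = 731051 + 441345 := rfl
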