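import Mathlib.Data.Int.ModEq
import Mathlib.Topology.Sheaves.Presheaf
import Mathlib.Tactic.Monotonicity.Lemmas
import Mathlib.Data.Int.Star
import Mathlib.Algebra.Order.Ring.Star
import Mathlib.Tactic.Bound
import Mathlib.Algebra.Order.Star.Real
import Mathlib.Data.List.Lookmap
import Mathlib.RingTheory.PiTensorProduct
import Mathlib.Tactic.Polynomial.Basic
import Mathlib.Analysis.Normed.Order.Lattice
import Mathlib.RingTheory.PowerSeries.Basic
import Mathlib.Tactic.Algebra.Basic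
import Pool.Agent.MP_187b32_an.PD.Small.Loc
import Pool.Agent.MP_187b32_an.PD.Quad
import Mathlib.Algebra.EuclideanDomain.Basic
import Mathlib.Algebra.EuclideanDomain.Field
import Mathlib.Analysis.Calculus.ContDiff.Deriv
import Pool.Agent.MP_187b32_an.Prof.Side

-- ======== part 0: formerly Pool.Agent.MP_187b32_an.PD.Lst
section MrgPart0

-- ======== part 0: formerly Pool.Agent.MP_187b32_an.PD.TM
section MrgPart0

/-!
Packed Taylor models.  A value is a polynomial with integer coefficients in some variables of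
modulus at most one, stored as one natural number (its value at powers of `Bs`, modulo `M`),
a bound `n` of the sum of the moduli of the coefficients and a bound `w` of `n` plus the error.
The scale is `sc = 2 ^ 192`.
-/

set_option autoImplicit false

namespace Pool.Agent.MP_187b32_an.PD

def sc : ℕ := 6277101735386680763835789423207666416102355444464034512896
def Bs : ℕ := 726838724295606890549323807888004534353641360687318060281490199180639288113397923326191050713763565560762521606266177933534601628614656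
def Hf : ℕ := 363419362147803445274661903944002267176820680343659030140745099590319644056698961663095525356881782780381260803133088966767300814307328
def hq : ℕ := 57896044618658097711785492504343953926634992332820282019728792003956564819968

lemma sc_pos : (0 : ℝ) < sc := by norm_num [sc]
lemma Bs_eq : Bs = 2 * Hf := by norm_num [Bs, Hf]
lemma Hf_eq : Hf = hq * sc := by norm_num [hq, Hf, sc]
lemma Hf_pos : 0 < Hf := by norm_num [Hf]

structure Tm where
  p : ℕ
  n : ℕ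
  w : ℕ

/-- A context: the kept positions, the modulus and two offsets. -/
structure Cx where
  mask : List Bool
  M : ℕ
  O : ℕ
  Q : ℕ

def frc {β : Type} (n : ℕ) (k : ℕ → β) : β := Nat.casesOn n (k 0) (fun m => k (Nat.succ m))

@[simp] lemma frc_eq {β : Type} (n : ℕ) (k : ℕ → β) : frc n k = k n := by cases n <;> rfl

def frcT {β : Type} (t : Tm) (k : Tm → β) : β :=
  Tm.casesOn t fun p n w => frc p fun p => frc n fun n => frc w fun w => k ⟨p, n, w⟩

@[simp] lemma frcT_eq {β : Type} (t : Tm) (k : Tm → β) : frcT t k = k t := by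
  cases t; simp [frcT]

/-- `|a - b|`. -/
def dst (a b : ℕ) : ℕ := Nat.add (Nat.sub a b) (Nat.sub b a)

lemma dst_eq (a b : ℕ) : dst a b = ((a : ℤ) - b).natAbs := by
  simp only [dst, Nat.add_eq, Nat.sub_eq]; omega

/-- Digit extraction: kept digits are divided by the scale, the others are summed. -/
def digs (mask : List Bool) : ℕ → Tm :=
  List.rec (motive := fun _ => ℕ → Tm) (fun _ => ⟨0, 0, 0⟩)
    (fun b _ ih U => frc (Nat.mod U Bs) fun u => frc (Nat.div U Bs) fun V =>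
      Tm.casesOn (ih V) fun p n s => Bool.casesOn b
        ⟨Nat.mul Bs p, n, Nat.add s (dst u Hf)⟩
        (frc (Nat.div u sc) fun a =>
          ⟨Nat.add a (Nat.mul Bs p), Nat.add n (dst a hq), Nat.add s sc⟩)) mask

lemma digs_cons (b : Bool) (m : List Bool) (U : ℕ) : digs (b :: m) U =
    if b then ⟨U % Bs / sc + Bs * (digs m (U / Bs)).p, (digs m (U / Bs)).n + dst (U % Bs / sc) hq,
      (digs m (U / Bs)).w + sc⟩
    else ⟨Bs * (digs m (U / Bs)).p, (digs m (U / Bs)).n, (digs m (U / Bs)).w + dst (U % Bs) Hf⟩ := by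
  cases b <;> simp only [digs, frc_eq] <;> rfl

/-- Normalisation of a value at scale `sc ^ 2`. -/
def nrm (mask : List Bool) (M O Q : ℕ) (t : Tm) : Tm :=
  Tm.casesOn t fun p n w => frc n fun n => Bool.casesOn (Nat.blt n Hf)
    (frc (Nat.succ (Nat.div w sc)) fun w => ⟨0, 0, w⟩)
    (frc (Nat.mod (Nat.add p O) M) fun U => Tm.casesOn (digs mask U) fun p' n' s =>
      frc (Nat.add p' Q) fun p' => frc n' fun n' =>
        frc (Nat.add n' (Nat.succ (Nat.div (Nat.add (Nat.sub w n) s) sc))) fun w' => ⟨p', n', w'⟩)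

def raw (P : List Tm) : List Tm → ℕ → ℕ → ℕ → Tm :=
  List.rec (motive := fun _ => List Tm → ℕ → ℕ → ℕ → Tm) (fun _ p n w => ⟨p, n, w⟩)
    (fun a _ ih Q p n w => List.casesOn Q ⟨p, n, w⟩ fun b Q =>
      Tm.casesOn a fun ap an aw => Tm.casesOn b fun bp bn bw =>
        ih Q (Nat.add p (Nat.mul ap bp)) (Nat.add n (Nat.mul an bn)) (Nat.add w (Nat.mul aw bw))) P

def Cx.dot (c : Cx) (P Q : List Tm) : Tm :=
  Cx.casesOn c fun mask M O Q' => nrm mask M O Q' (raw P Q 0 0 0)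

def Cx.mul (c : Cx) (a b : Tm) : Tm :=
  Cx.casesOn c fun mask M O Q' => Tm.casesOn a fun ap an aw => Tm.casesOn b fun bp bn bw =>
    nrm mask M O Q' ⟨Nat.mul ap bp, Nat.mul an bn, Nat.mul aw bw⟩

def Tm.add (a b : Tm) : Tm :=
  Tm.casesOn a fun ap an aw => Tm.casesOn b fun bp bn bw =>
    ⟨Nat.add ap bp, Nat.add an bn, Nat.add aw bw⟩

def Tm.smul (k : ℕ) (a : Tm) : Tm :=
  Tm.casesOn a fun ap an aw => ⟨Nat.mul k ap, Nat.mul k an, Nat.mul k aw⟩

def Cx.neg (c : Cx) (a : Tm) : Tm :=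
  Tm.casesOn a fun ap an aw => ⟨Nat.sub c.M (Nat.mod ap c.M), an, aw⟩

def Cx.sub (c : Cx) (a b : Tm) : Tm := a.add (c.neg b)

/-- The rational number `a / b`. -/
def rat (a b : ℕ) : Tm := frc (Nat.div (Nat.mul a sc) b) fun x => ⟨x, x, Nat.succ x⟩

/-- The natural number `a`. -/
def nat (a : ℕ) : Tm := frc (Nat.mul a sc) fun x => ⟨x, x, x⟩

/-- Enlarge the error by `k / sc`. -/
def Tm.wid (a : Tm) (k : ℕ) : Tm := Tm.casesOn a fun ap an aw => ⟨ap, an, Nat.add aw k⟩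

/-- Forget the error. -/
def Tm.mid (a : Tm) : Tm := Tm.casesOn a fun ap an _ => ⟨ap, an, an⟩

/-- Positivity test. -/
def Tm.pos (a : Tm) : Bool :=
  Tm.casesOn a fun p n w => Bool.and (Nat.blt n Hf)
    (Nat.blt (Nat.add w Bs) (Nat.mul 2 (Nat.mod (Nat.add p Hf) Bs)))

def off (mask : List Bool) : ℕ := List.rec 0 (fun _ _ ih => Nat.add Hf (Nat.mul Bs ih)) mask

def off' (mask : List Bool) : ℕ :=
  List.rec 0 (fun b _ ih => Nat.add (Bool.casesOn b 0 hq) (Nat.mul Bs ih)) mask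

/-- Positions `i + (2 a + 1) j` with `i ≤ a`, `j ≤ b`. -/
def mask2 (a b : ℕ) : List Bool :=
  (List.range ((2 * a + 1) * (2 * b + 1))).map fun k =>
    decide (k % (2 * a + 1) ≤ a) && decide (k / (2 * a + 1) ≤ b)

def frcL {β : Type} (l : List Bool) : (List Bool → β) → β :=
  List.rec (motive := fun _ => (List Bool → β) → β) (fun k => k [])
    (fun b _ ih k => Bool.casesOn b (ih fun m => k (false :: m)) (ih fun m => k (true :: m))) l

@[simp] lemma frcL_eq {β : Type} (l : List Bool) (k : List Bool → β) : frcL l k = k l := by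
  induction l generalizing k with
  | nil => rfl
  | cons b l ih => cases b <;> exact ih _

def mkCx (mask : List Bool) : Cx :=
  ⟨mask, Bs ^ mask.length, off mask, Bs ^ mask.length - off' mask % Bs ^ mask.length⟩

/-- Evaluate the context once and pass it on. -/
def withCx {β : Type} (mask : List Bool) (k : Cx → β) : β :=
  frcL mask fun mask => frc (Nat.pow Bs mask.length) fun M => frc (off mask) fun O =>
    frc (Nat.sub M (Nat.mod (off' mask) M)) fun Q => k ⟨mask, M, O, Q⟩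

@[simp] lemma withCx_eq {β : Type} (mask : List Bool) (k : Cx → β) :
    withCx mask k = k (mkCx mask) := by
  simp only [withCx, frc_eq, frcL_eq]; rfl

/-- The monomial at position `k`. -/
def mono (k : ℕ) : Tm := frc (Nat.mul sc (Nat.pow Bs k)) fun p => ⟨p, sc, sc⟩

/-- Packed value of a list of integers. -/
def pk (l : List ℤ) : ℤ := List.rec 0 (fun a _ ih => Int.add a (Int.mul (Int.ofNat Bs) ih)) l

def l1 (l : List ℤ) : ℕ := List.rec 0 (fun a _ ih => Nat.add a.natAbs ih) l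

/-- The polynomial with coefficients `l / sc` at the positions `0, 1, ...`. -/
def Cx.ofL (c : Cx) (l : List ℤ) : Tm :=
  frc (Int.toNat (Int.emod (pk l) (Int.ofNat c.M))) fun p => frc (l1 l) fun n => ⟨p, n, n⟩

/-- Change of context, keeping the positions `≤ a`. -/
def Cx.conv (c c' : Cx) (a : ℕ) (t : Tm) : Tm :=
  frcL ((List.range c.mask.length).map fun k => decide (k ≤ a)) fun m =>
    nrm m c.M c.O (Nat.sub c'.M (Nat.mod (off' m) c'.M))
      ⟨Nat.mul sc t.p, Nat.mul sc t.n, Nat.mul sc t.w⟩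

/-! ### Soundness -/

open Finset

inductive Rel (μ : ℕ → ℝ) (K : ℕ → Prop) : ℤ → ℝ → ℕ → Prop
  | nil (n : ℕ) : Rel μ K 0 0 n
  | cons (c : ℤ) (k : ℕ) {P : ℤ} {v : ℝ} {n : ℕ} : K k → Rel μ K P v n →
      Rel μ K (c * Bs ^ k + P) (c * μ k + v) (c.natAbs + n)

section
variable {μ μ' : ℕ → ℝ} {K K' K'' : ℕ → Prop} {P P' : ℤ} {v v' : ℝ} {n n' : ℕ}

lemma Rel.cast (h : Rel μ K P v n) (e1 : P = P') (e2 : v = v') (e3 : n ≤ n') :
    Rel μ K P' v' n' := by
  subst e1 e2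
  induction h generalizing n' with
  | nil n => exact .nil _
  | cons c k hk _ ih =>
    obtain ⟨m, rfl⟩ := Nat.exists_eq_add_of_le e3
    rw [add_assoc]
    exact .cons c k hk (ih (Nat.le_add_right _ _))

lemma Rel.add (h : Rel μ K P v n) (h' : Rel μ K P' v' n') :
    Rel μ K (P + P') (v + v') (n + n') := by
  induction h with
  | nil n => exact h'.cast (by simp) (by simp) (by omega)
  | cons c k hk _ ih => exact (ih.cons c k hk).cast (by ring) (by ring) (by omega)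

lemma Rel.term (h : Rel μ K P v n) (z : ℤ) (j : ℕ) {y : ℝ}
    (hj : ∀ k, K k → K' (j + k) ∧ μ' (j + k) = y * μ k) :
    Rel μ' K' (z * Bs ^ j * P) (z * y * v) (z.natAbs * n) := by
  induction h with
  | nil n => exact (Rel.nil _).cast (by simp) (by simp) le_rfl
  | cons c k hk _ ih =>
    exact (ih.cons (z * c) (j + k) (hj k hk).1).cast (by ring)
      (by rw [(hj k hk).2]; push_cast; ring) (by rw [Int.natAbs_mul, mul_add])

lemma Rel.mono (h : Rel μ K P v n) (hj : ∀ k, K k → K' k ∧ μ' k = μ k) : Rel μ' K' P v n :=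
  (h.term 1 0 (y := 1) (by simpa using hj)).cast (by simp) (by simp) (by simp)

lemma Rel.mul (h : Rel μ K P v n) (h' : Rel μ K' P' v' n')
    (hj : ∀ k k', K k → K' k' → K'' (k + k') ∧ μ (k + k') = μ k * μ k') :
    Rel μ K'' (P * P') (v * v') (n * n') := by
  induction h with
  | nil n => exact (Rel.nil _).cast (by simp) (by simp) le_rfl
  | cons c k hk _ ih =>
    exact ((h'.term c k fun k' hk' => hj k k' hk hk').add ih).cast (by ring) (by ring)
      (by rw [add_mul])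

lemma Rel.abs_le (h : Rel μ K P v n) (hμ : ∀ k, |μ k| ≤ 1) : |v| ≤ n := by
  induction h with
  | nil n => simp
  | cons c k _ _ ih =>
    refine (abs_add_le _ _).trans ?_
    rw [abs_mul]
    push_cast
    simp only [Nat.cast_natAbs, Int.cast_abs]
    nlinarith [hμ k, abs_nonneg (c : ℝ)]

lemma Rel.head (h : Rel μ K P v n) (hμ : ∀ k, |μ k| ≤ 1) (h0 : μ 0 = 1) :
    ∃ z : ℤ, P ≡ z [ZMOD Bs] ∧ |v - z| + |(z : ℝ)| ≤ n := by
  induction h with
  | nil n => exact ⟨0, rfl, by simp⟩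
  | @cons c k P v n _ _ ih =>
    obtain ⟨z, h1, h2⟩ := ih
    have h3 : |c * μ k| ≤ |(c : ℝ)| := by
      rw [abs_mul]; nlinarith [hμ k, abs_nonneg (c : ℝ)]
    rcases k with _ | k
    · refine ⟨c + z, by simpa using h1.add_left c, ?_⟩
      push_cast
      simp only [Nat.cast_natAbs, Int.cast_abs, h0, mul_one, add_sub_add_left_eq_sub]
      linarith [abs_add_le (c : ℝ) z]
    · refine ⟨z, ?_, ?_⟩
      · have : c * (Bs : ℤ) ^ (k + 1) ≡ 0 [ZMOD Bs] :=
          Int.modEq_zero_iff_dvd.2 ⟨c * Bs ^ k, by ring⟩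
        simpa using this.add h1
      · push_cast
        simp only [Nat.cast_natAbs, Int.cast_abs, add_sub_assoc]
        linarith [abs_add_le (c * μ (k + 1)) (v - z)]

lemma Rel.coef {L : ℕ} (h : Rel μ (· < L) P v n) : ∃ c : ℕ → ℤ,
    P = ∑ k ∈ range L, c k * Bs ^ k ∧ v = ∑ k ∈ range L, c k * μ k ∧ ∀ k, |c k| ≤ n := by
  induction h with
  | nil n => exact ⟨0, by simp, by simp, by simp⟩
  | cons z k hk _ ih =>
    obtain ⟨c, h1, h2, h3⟩ := ih
    refine ⟨fun i => (if i = k then z else 0) + c i, ?_, ?_, fun i => ?_⟩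
    · simp [add_mul, sum_add_distrib, h1, hk]
    · simp [add_mul, sum_add_distrib, h2, hk, apply_ite (Int.cast (R := ℝ))]
    · refine (abs_add_le _ _).trans ?_
      have := h3 i
      push_cast
      split_ifs <;> simp <;> linarith [abs_nonneg z]

end

lemma sum_digits {a : ℕ → ℤ} (h0 : ∀ k, 0 ≤ a k) (h1 : ∀ k, a k < Bs) (L : ℕ) :
    0 ≤ ∑ k ∈ range L, a k * Bs ^ k ∧ ∑ k ∈ range L, a k * Bs ^ k < Bs ^ L := by
  refine ⟨sum_nonneg fun k _ => mul_nonneg (h0 k) (by positivity), ?_⟩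
  induction L with
  | zero => simp
  | succ L ih =>
    rw [sum_range_succ, pow_succ]
    nlinarith [h1 L, (by positivity : (0 : ℤ) ≤ Bs ^ L)]

lemma off_eq (m : List Bool) : (off m : ℤ) = ∑ k ∈ range m.length, (Hf : ℤ) * Bs ^ k := by
  induction m with
  | nil => rfl
  | cons b m ih =>
    rw [show off (b :: m) = Hf + Bs * off m from rfl, List.length_cons, sum_range_succ']
    push_cast
    rw [ih, mul_sum, add_comm]
    simp only [pow_succ, pow_zero, mul_one, add_left_inj]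
    exact sum_congr rfl fun k _ => by ring

lemma digs_sound (m : List Bool) (U : ℕ) (μ : ℕ → ℝ) : ∃ P v,
    Rel μ (fun k => m.getD k false = true) P v (digs m U).n ∧ ((digs m U).p : ℤ) = P + off' m ∧
      ((∀ k, |μ k| ≤ 1) → ∀ c : ℕ → ℤ, (∀ k, |c k| < Hf) →
        (U : ℤ) = ∑ k ∈ range m.length, (c k + Hf) * Bs ^ k →
        |v * sc - ∑ k ∈ range m.length, c k * μ k| ≤ (digs m U).w) := by
  induction m generalizing U μ with
  | nil => exact ⟨0, 0, .nil _, rfl, fun _ c _ _ => by simp⟩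
  | cons b m ih =>
    obtain ⟨P, v, h1, h2, h3⟩ := ih (U / Bs) fun k => μ (k + 1)
    have h4 : Rel μ (fun k => (b :: m).getD k false = true) (Bs * P) v (digs m (U / Bs)).n :=
      (h1.term 1 1 (y := 1) fun k hk => ⟨by rwa [add_comm], by simp [add_comm]⟩).cast
        (by simp) (by simp) (by simp)
    have key : (∀ k, |μ k| ≤ 1) → ∀ c : ℕ → ℤ, (∀ k, |c k| < Hf) →
        (U : ℤ) = ∑ k ∈ range (m.length + 1), (c k + Hf) * Bs ^ k →
        ((U % Bs : ℕ) : ℤ) = c 0 + Hf ∧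
          |v * sc - ∑ k ∈ range m.length, c (k + 1) * μ (k + 1)| ≤ (digs m (U / Bs)).w := by
      intro hμ c hc hU
      have e : (U : ℤ) = c 0 + Hf + Bs * ∑ k ∈ range m.length, (c (k + 1) + Hf) * Bs ^ k := by
        rw [hU, sum_range_succ', mul_sum, add_comm]
        simp only [pow_succ, pow_zero, mul_one, add_right_inj]
        exact sum_congr rfl fun k _ => by ring
      have a1 := abs_lt.1 (hc 0)
      have a2 : (Bs : ℤ) = 2 * Hf := by exact_mod_cast Bs_eq
      have a3 : (0 : ℤ) < Hf := by exact_mod_cast Hf_pos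
      refine ⟨?_, h3 (fun k => hμ _) (fun k => c (k + 1)) (fun k => hc _) ?_⟩
      · push_cast
        rw [e, Int.add_mul_emod_self_left, Int.emod_eq_of_lt (by linarith) (by linarith)]
      · push_cast
        rw [e, Int.add_mul_ediv_left _ _ (by linarith),
          Int.ediv_eq_zero_of_lt (by linarith) (by linarith), zero_add]
    rw [digs_cons]
    cases b
    · refine ⟨_, v, h4, ?_, fun hμ c hc hU => ?_⟩
      · rw [show off' (false :: m) = 0 + Bs * off' m from rfl]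
        simp only [Bool.false_eq_true, if_false]
        push_cast
        rw [h2]; ring
      · obtain ⟨a1, a2⟩ := key hμ c hc hU
        simp only [Bool.false_eq_true, if_false, List.length_cons, sum_range_succ', dst_eq, a1,
          add_sub_cancel_right]
        push_cast
        simp only [Nat.cast_natAbs, Int.cast_abs]
        have a3 : |c 0 * μ 0| ≤ |(c 0 : ℝ)| := by
          rw [abs_mul]; nlinarith [hμ 0, abs_nonneg (c 0 : ℝ)]
        rw [← sub_sub]
        linarith [abs_sub (v * sc - ∑ k ∈ range m.length, c (k + 1) * μ (k + 1)) (c 0 * μ 0)]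
    · refine ⟨_, _, (Rel.cons ((U % Bs / sc : ℕ) - hq) 0 (by simp) h4).cast rfl rfl ?_, ?_,
        fun hμ c hc hU => ?_⟩
      · rw [if_pos rfl, dst_eq, add_comm]
      · rw [show off' (true :: m) = hq + Bs * off' m from rfl]
        simp only [if_true]
        push_cast
        rw [h2]; ring
      · obtain ⟨a1, a2⟩ := key hμ c hc hU
        simp only [if_true, List.length_cons, sum_range_succ']
        generalize U % Bs = u at a1 ⊢
        have a4 : (u : ℝ) = c 0 + hq * sc := by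
          rw [Hf_eq] at a1; exact_mod_cast a1
        have a5 : ((u / sc : ℕ) : ℝ) * sc ≤ u := by exact_mod_cast Nat.div_mul_le_self u sc
        have a6 : (u : ℝ) < (u / sc : ℕ) * sc + sc := by
          exact_mod_cast Nat.lt_div_mul_add (by norm_num [sc])
        have a7 : |(((u / sc : ℕ) - hq : ℝ) * sc - c 0) * μ 0| ≤ sc := by
          rw [abs_mul]
          have : |((u / sc : ℕ) - hq : ℝ) * sc - c 0| ≤ sc := abs_le.2 ⟨by linarith, by linarith⟩
          nlinarith [hμ 0, abs_nonneg (((u / sc : ℕ) - hq : ℝ) * sc - c 0)]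
        simp only [Int.cast_sub, Int.cast_natCast, Nat.cast_add]
        refine le_trans (le_of_eq ?_) ((abs_add_le _ _).trans (add_le_add a2 a7))
        congr 1; ring

/-- `y` is enclosed by `t`. -/
def MemK (μ : ℕ → ℝ) (K : ℕ → Prop) (M : ℕ) (y : ℝ) (t : Tm) : Prop :=
  ∃ P v, Rel μ K P v t.n ∧ (t.p : ℤ) ≡ P [ZMOD M] ∧ |y - v| + t.n ≤ t.w

section
variable {μ : ℕ → ℝ} {K K' : ℕ → Prop} {M : ℕ} {x y : ℝ} {a b : Tm}

lemma MemK.add (h : MemK μ K M x a) (h' : MemK μ K M y b) : MemK μ K M (x + y) (a.add b) := by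
  obtain ⟨P, v, h1, h2, h3⟩ := h
  obtain ⟨P', v', k1, k2, k3⟩ := h'
  refine ⟨_, _, h1.add k1, by simpa [Tm.add] using h2.add k2, ?_⟩
  simp only [Tm.add, Nat.add_eq, Nat.cast_add]
  rw [show x + y - (v + v') = x - v + (y - v') by ring]
  linarith [abs_add_le (x - v) (y - v')]

lemma MemK.smul (h : MemK μ K M x a) (k : ℕ) : MemK μ K M (k * x) (a.smul k) := by
  obtain ⟨P, v, h1, h2, h3⟩ := h
  refine ⟨k * P, k * v, (h1.term k 0 (y := 1) (by simp)).cast (by simp) (by simp)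
    (by simp [Tm.smul]), by simpa [Tm.smul] using h2.mul_left k, ?_⟩
  simp only [Tm.smul, Nat.mul_eq, Nat.cast_mul]
  rw [← mul_sub, abs_mul, Nat.abs_cast, ← mul_add]
  gcongr

lemma MemK.abs_le (h : MemK μ K M x a) (hμ : ∀ k, |μ k| ≤ 1) : |x| ≤ a.w := by
  obtain ⟨P, v, h1, -, h3⟩ := h
  linarith [h1.abs_le hμ, abs_sub_abs_le_abs_sub x v]

lemma MemK.mul (h : MemK μ K M x a) (h' : MemK μ K M y b) (hμ : ∀ k, |μ k| ≤ 1)
    (hj : ∀ k k', K k → K k' → K' (k + k') ∧ μ (k + k') = μ k * μ k') :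
    MemK μ K' M (x * y) ⟨a.p * b.p, a.n * b.n, a.w * b.w⟩ := by
  obtain ⟨P, v, h1, h2, h3⟩ := h
  obtain ⟨P', v', k1, k2, k3⟩ := h'
  refine ⟨_, _, h1.mul k1 hj, by simpa using h2.mul k2, ?_⟩
  have a1 := h1.abs_le hμ
  have a2 := k1.abs_le hμ
  have a3 : |x * y - v * v'| ≤ |v| * |y - v'| + |x - v| * |v'| + |x - v| * |y - v'| := by
    simp only [← abs_mul]
    exact le_trans (le_of_eq (by congr 1; ring)) (abs_add_three _ _ _)
  have a4 : (|x - v| + a.n) * (|y - v'| + b.n) ≤ a.w * b.w := by gcongr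
  push_cast
  nlinarith [abs_nonneg (x - v), abs_nonneg (y - v')]

lemma nrm_ex (m : List Bool) (M O Q M' : ℕ) (t : Tm) (hQ : ((off' m : ℤ) + Q) ≡ 0 [ZMOD M'])
    (μ : ℕ → ℝ) : ∃ v, MemK μ (fun k => m.getD k false = true) M' v (nrm m M O Q t).mid ∧
      ((∀ k, |μ k| ≤ 1) → M = Bs ^ m.length → O = off m → ∀ y,
        MemK μ (· < m.length) M (y * sc) t →
        MemK μ (fun k => m.getD k false = true) M' y (nrm m M O Q t)) := by
  obtain ⟨p, n, w⟩ := t
  have dv : ∀ (z : ℝ) (s : ℕ), z * sc ≤ s → z ≤ (s / sc : ℕ) + 1 := fun z s h => by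
    have a6 : (s : ℝ) < (s / sc : ℕ) * sc + sc := by
      exact_mod_cast Nat.lt_div_mul_add (by norm_num [sc])
    exact le_of_mul_le_mul_right (by linarith) sc_pos
  cases hn : Nat.blt n Hf
  · have e : nrm m M O Q ⟨p, n, w⟩ = ⟨0, 0, w / sc + 1⟩ := by simp only [nrm, frc_eq, hn]; rfl
    rw [e]
    refine ⟨0, ⟨0, 0, .nil _, rfl, by simp [Tm.mid]⟩, fun hμ _ _ y h => ⟨0, 0, .nil _, rfl, ?_⟩⟩
    have := h.abs_le hμ
    rw [abs_mul, abs_of_pos sc_pos] at this
    simpa using dv _ _ this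
  · set U := (p + O) % M with hU
    have e : nrm m M O Q ⟨p, n, w⟩ = ⟨(digs m U).p + Q, (digs m U).n,
        (digs m U).n + ((w - n + (digs m U).w) / sc + 1)⟩ := by
      simp only [nrm, frc_eq, hn]; rfl
    rw [e]
    obtain ⟨P, v, h1, h2, h3⟩ := digs_sound m U μ
    have h4 : (((digs m U).p + Q : ℕ) : ℤ) ≡ P [ZMOD M'] := by
      push_cast
      rw [h2, add_assoc]
      simpa using hQ.add_left P
    refine ⟨v, ⟨P, v, h1, h4, by simp [Tm.mid]⟩, fun hμ hM hO y ⟨P0, v0, k1, k2, k3⟩ =>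
      ⟨P, v, h1, h4, ?_⟩⟩
    obtain ⟨c, c1, c2, c3⟩ := k1.coef
    have hn' : (n : ℤ) < Hf := by exact_mod_cast (Nat.blt_eq ▸ hn : n < Hf)
    have c4 : ∀ k, |c k| < Hf := fun k => (c3 k).trans_lt hn'
    have a2 : (Bs : ℤ) = 2 * Hf := by exact_mod_cast Bs_eq
    obtain ⟨s1, s2⟩ := sum_digits (a := fun k => c k + Hf)
      (fun k => by linarith [abs_lt.1 (c4 k)]) (fun k => by linarith [abs_lt.1 (c4 k)]) m.length
    have a3 := h3 hμ c c4 (by
      rw [hU]
      push_cast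
      rw [← Int.emod_eq_of_lt s1 s2, hO, off_eq]
      simp only [add_mul, sum_add_distrib, ← c1]
      have := k2.add_right (∑ k ∈ range m.length, (Hf : ℤ) * Bs ^ k)
      rw [hM] at this ⊢
      exact_mod_cast this)
    rw [← c2] at a3
    have a4 : n ≤ w := by
      have : (n : ℝ) ≤ w := by linarith [abs_nonneg (y * sc - v0)]
      exact_mod_cast this
    have a5 := dv |y - v| (w - n + (digs m U).w) (by
      rw [Nat.cast_add, Nat.cast_sub a4, ← abs_of_pos sc_pos, ← abs_mul, sub_mul]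
      linarith [abs_sub_le (y * sc) v0 (v * sc), abs_sub_comm v0 (v * sc)])
    simp only [Nat.cast_add, Nat.cast_one] at a5 ⊢
    linarith

end

def Cx.K (c : Cx) (k : ℕ) : Prop := c.mask.getD k false = true

/-- The real number `x` is enclosed by `t` when the monomials have the values `μ`. -/
def Mem (c : Cx) (μ : ℕ → ℝ) (x : ℝ) (t : Tm) : Prop := MemK μ c.K c.M (x * sc) t

structure Cx.Ok (c : Cx) (μ : ℕ → ℝ) : Prop where
  eq : c = mkCx c.mask
  le : ∀ k, |μ k| ≤ 1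
  one : μ 0 = 1
  k0 : c.K 0
  hmul : ∀ k k', c.K k → c.K k' → k + k' < c.mask.length ∧ μ (k + k') = μ k * μ k'

lemma sub_mod {a M : ℕ} (hM : 0 < M) : (a : ℤ) + (M - a % M : ℕ) ≡ 0 [ZMOD M] := by
  rw [Nat.cast_sub (Nat.mod_lt _ hM).le]
  refine Int.modEq_zero_iff_dvd.2 ⟨a / M + 1, ?_⟩
  push_cast
  linarith [Int.emod_add_mul_ediv (a : ℤ) M]

section
variable {c c' : Cx} {μ μ' : ℕ → ℝ} {x y : ℝ} {a b : Tm}

lemma Cx.Ok.hM (h : c.Ok μ) : c.M = Bs ^ c.mask.length := congrArg Cx.M h.eq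
lemma Cx.Ok.hO (h : c.Ok μ) : c.O = off c.mask := congrArg Cx.O h.eq
lemma Cx.Ok.M_pos (h : c.Ok μ) : 0 < c.M := by rw [h.hM]; exact pow_pos (by norm_num [Bs]) _
lemma Cx.Ok.hQ (h : c.Ok μ) : (off' c.mask : ℤ) + c.Q ≡ 0 [ZMOD c.M] := by
  have : c.Q = c.M - off' c.mask % c.M := by rw [h.hM]; exact congrArg Cx.Q h.eq
  rw [this]
  exact sub_mod h.M_pos

lemma Mem.of_eq (h : Mem c μ x a) (e : x = y) : Mem c μ y a := e ▸ h

lemma Mem.add (h1 : Mem c μ x a) (h2 : Mem c μ y b) : Mem c μ (x + y) (a.add b) := by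
  rw [Mem, add_mul]; exact MemK.add h1 h2

lemma Mem.smul (h1 : Mem c μ x a) (k : ℕ) : Mem c μ (k * x) (a.smul k) := by
  rw [Mem, mul_assoc]; exact MemK.smul h1 k

lemma Mem.abs_le (h : c.Ok μ) (h1 : Mem c μ x a) : |x| * sc ≤ a.w := by
  have := MemK.abs_le h1 h.le
  rwa [abs_mul, abs_of_pos sc_pos] at this

/-- Enlarging the error. -/
lemma Mem.wid (h1 : Mem c μ x a) {k : ℕ} (h2 : |y - x| * sc ≤ k) : Mem c μ y (a.wid k) := by
  obtain ⟨P, v, k1, k2, k3⟩ := h1
  refine ⟨P, v, k1, k2, ?_⟩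
  rw [← abs_of_pos sc_pos, ← abs_mul, sub_mul] at h2
  simp only [Tm.wid, Nat.add_eq, Nat.cast_add]
  linarith [abs_sub_le (y * sc) (x * sc) v]

lemma Mem.mid (h1 : Mem c μ x a) : ∃ y, Mem c μ y a.mid := by
  obtain ⟨P, v, k1, k2, -⟩ := h1
  exact ⟨v / sc, P, v, k1, k2, by simp [Tm.mid, sc_pos.ne']⟩

lemma Mem.neg (h : c.Ok μ) (h1 : Mem c μ x a) : Mem c μ (-x) (c.neg a) := by
  obtain ⟨P, v, k1, k2, k3⟩ := h1
  refine ⟨-P, -v, (k1.term (-1) 0 (y := 1) (by simp)).cast (by simp) (by simp)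
    (by simp [Cx.neg]), ?_, ?_⟩
  · have := (sub_mod (a := a.p) h.M_pos).sub k2
    rw [add_sub_cancel_left, zero_sub] at this
    exact this
  · rw [neg_mul, neg_sub_neg, abs_sub_comm]
    exact k3

lemma Mem.sub (h : c.Ok μ) (h1 : Mem c μ x a) (h2 : Mem c μ y b) :
    Mem c μ (x - y) (c.sub a b) := (h1.add (h2.neg h)).of_eq (sub_eq_add_neg _ _).symm

lemma Mem.mul (h : c.Ok μ) (h1 : Mem c μ x a) (h2 : Mem c μ y b) :
    Mem c μ (x * y) (c.mul a b) := by
  obtain ⟨-, -, k⟩ := nrm_ex c.mask c.M c.O c.Q c.M ⟨a.p * b.p, a.n * b.n, a.w * b.w⟩ h.hQ μ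
  exact k h.le h.hM h.hO _ (by
    rw [show x * y * sc * sc = x * sc * (y * sc) by ring]
    exact MemK.mul h1 h2 h.le h.hmul)

/-- The centre of any product is the enclosure of some number. -/
lemma mul_mid (h : c.Ok μ) (a b : Tm) : ∃ y, Mem c μ y (c.mul a b).mid := by
  obtain ⟨v, k, -⟩ := nrm_ex c.mask c.M c.O c.Q c.M ⟨a.p * b.p, a.n * b.n, a.w * b.w⟩ h.hQ μ
  exact ⟨v / sc, by rwa [Mem, div_mul_cancel₀ _ sc_pos.ne']⟩

lemma raw_sound (h : c.Ok μ) {P Q : List Tm} {xs ys : List ℝ} (h1 : List.Forall₂ (Mem c μ) xs P)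
    (h2 : List.Forall₂ (Mem c μ) ys Q) {p n w : ℕ} {z : ℝ}
    (h3 : MemK μ (· < c.mask.length) c.M z ⟨p, n, w⟩) :
    MemK μ (· < c.mask.length) c.M (z + (List.zipWith (· * ·) xs ys).sum * sc * sc)
      (raw P Q p n w) := by
  induction h1 generalizing Q ys p n w z with
  | nil => rw [List.zipWith_nil_left, List.sum_nil, zero_mul, zero_mul, add_zero]; exact h3
  | cons k1 _ ih =>
    cases h2 with
    | nil => rw [List.zipWith_nil_right, List.sum_nil, zero_mul, zero_mul, add_zero]; exact h3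
    | @cons y _ ys _ k2 h2 =>
      have := ih h2 (h3.add (MemK.mul k1 k2 h.le h.hmul))
      rw [List.zipWith_cons_cons, List.sum_cons, add_mul, add_mul, ← add_assoc, mul_assoc (_ * y),
        mul_mul_mul_comm]
      exact this

lemma Mem.dot (h : c.Ok μ) {P Q : List Tm} {xs ys : List ℝ} (h1 : List.Forall₂ (Mem c μ) xs P)
    (h2 : List.Forall₂ (Mem c μ) ys Q) :
    Mem c μ (List.zipWith (· * ·) xs ys).sum (c.dot P Q) := by
  obtain ⟨-, -, k⟩ := nrm_ex c.mask c.M c.O c.Q c.M (raw P Q 0 0 0) h.hQ μ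
  exact k h.le h.hM h.hO _ (by
    simpa using raw_sound h h1 h2 (z := 0) ⟨0, 0, .nil _, rfl, by simp⟩)

lemma Mem.conv (h : c.Ok μ) (h' : c'.Ok μ') {j : ℕ} (hj : ∀ k ≤ j, c'.K k ∧ μ' k = μ k)
    (h1 : Mem c μ x a) : Mem c' μ' x (c.conv c' j a) := by
  set m := (List.range c.mask.length).map fun k => decide (k ≤ j) with hm
  have hl : m.length = c.mask.length := by simp [hm]
  obtain ⟨-, -, k⟩ := nrm_ex m c.M c.O (c'.M - off' m % c'.M) c'.M (a.smul sc) (sub_mod h'.M_pos) μ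
  obtain ⟨P, v, k1, k2, k3⟩ := k h.le (hl ▸ h.hM) (by
    have := off_eq m
    rw [hl, ← off_eq, ← h.hO] at this
    exact_mod_cast this.symm) (x * sc) (by
    obtain ⟨P, v, k1, k2, k3⟩ := MemK.smul h1 sc
    exact ⟨P, v, k1.mono fun k hk => ⟨hl ▸ (h.hmul k 0 hk h.k0).1, rfl⟩, k2, by rwa [mul_comm]⟩)
  have e : c.conv c' j a = nrm m c.M c.O (c'.M - off' m % c'.M) (a.smul sc) := by
    simp only [Cx.conv, frcL_eq]; rfl
  rw [e]
  refine ⟨P, v, k1.mono fun k hk => hj k ?_, k2, k3⟩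
  by_cases hk' : k < c.mask.length
  · simpa [hm, List.getD_eq_getElem?_getD, hk'] using hk
  · simp [hm, List.getD_eq_getElem?_getD, hk'] at hk

lemma Mem.pos (h : c.Ok μ) (h1 : Mem c μ x a) (h2 : a.pos = true) : 0 < x := by
  obtain ⟨P, v, k1, k2, k3⟩ := h1
  obtain ⟨z, k4, k5⟩ := k1.head h.le h.one
  obtain ⟨p, n, w⟩ := a
  simp only [Tm.pos, Bool.and_eq_true, Nat.blt_eq, Nat.add_eq, Nat.mul_eq] at h2 k2 k3 k5
  have a2 : (Bs : ℤ) = 2 * Hf := by exact_mod_cast Bs_eq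
  have a1 : |z| < Hf := by
    have : (n : ℝ) < Hf := by exact_mod_cast h2.1
    have : |(z : ℝ)| < Hf := by linarith [abs_nonneg (v - z)]
    exact_mod_cast this
  have a3 : (p : ℤ) ≡ z [ZMOD Bs] := (k2.of_dvd (by
    rw [h.hM]
    exact_mod_cast dvd_pow_self _ (h.hmul 0 0 h.k0 h.k0).1.ne')).trans k4
  have a4 : ((Nat.mod (p + Hf) Bs : ℕ) : ℤ) = z + Hf := by
    rw [← Int.emod_eq_of_lt (a := z + Hf) (b := Bs) (by linarith [abs_lt.1 a1])
      (by linarith [abs_lt.1 a1])]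
    exact_mod_cast a3.add_right Hf
  have a5 : (w : ℤ) < 2 * z := by
    have : ((w + Bs : ℕ) : ℤ) < (2 * Nat.mod (p + Hf) Bs : ℕ) := by exact_mod_cast h2.2
    push_cast at this
    linarith
  have a6 : (w : ℝ) < 2 * z := by exact_mod_cast a5
  refine (mul_pos_iff_of_pos_right sc_pos).1 ?_
  linarith [neg_abs_le (x * sc - v), neg_abs_le (v - z), le_abs_self (z : ℝ)]

lemma mem_mono {k : ℕ} (hk : c.K k) : Mem c μ (μ k) (mono k) :=
  ⟨_, _, ((Rel.nil 0).cons sc k hk).cast rfl rfl (by simp [mono]), by simp [mono],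
    by simp [mono, mul_comm]⟩

lemma mem_cst (h : c.Ok μ) {p k : ℕ} (hx : |x * sc - p| ≤ k) : Mem c μ x ⟨p, p, p + k⟩ :=
  ⟨_, _, ((Rel.nil 0).cons p 0 h.k0).cast rfl rfl (by simp), by simp,
    by simp [h.one]; linarith⟩

lemma mem_nat (h : c.Ok μ) (k : ℕ) : Mem c μ k (nat k) := by
  simpa [nat] using mem_cst h (x := k) (p := k * sc) (k := 0) (by simp)

lemma mem_rat (h : c.Ok μ) (p : ℕ) {q : ℕ} (hq : 0 < q) : Mem c μ (p / q) (rat p q) := by
  have a5 : ((p * sc / q : ℕ) : ℝ) * q ≤ p * sc := by exact_mod_cast Nat.div_mul_le_self _ q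
  have a6 : (p * sc : ℝ) < (p * sc / q : ℕ) * q + q := by exact_mod_cast Nat.lt_div_mul_add hq
  have a7 : (0 : ℝ) < q := by exact_mod_cast hq
  have := mem_cst h (x := p / q) (p := p * sc / q) (k := 1) (by
    rw [div_mul_eq_mul_div, abs_le, Nat.cast_one, le_sub_iff_add_le, sub_le_iff_le_add,
      le_div_iff₀ a7, div_le_iff₀ a7]
    constructor <;> linarith)
  simp only [rat, frc_eq]
  exact this

/-- A ball around zero. -/
lemma mem_ball {k : ℕ} (hx : |x| * sc ≤ k) : Mem c μ x ⟨0, 0, k⟩ :=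
  ⟨0, 0, .nil _, rfl, by simpa [abs_mul, abs_of_pos sc_pos] using hx⟩

/-- Horner value of a list of integers. -/
def hv (ε : ℝ) : List ℤ → ℝ
  | [] => 0
  | a :: l => a + ε * hv ε l

lemma rel_pk (ε : ℝ) (l : List ℤ) : Rel (fun k => ε ^ k) (· < l.length) (pk l) (hv ε l) (l1 l) := by
  induction l with
  | nil => exact .nil _
  | cons a l ih =>
    refine ((ih.term 1 1 (y := ε) (μ' := fun k => ε ^ k) (K' := (· < (a :: l).length))
      fun k hk => ⟨by simp; omega, by ring⟩).cons a 0 (by simp)).cast ?_ (by simp [hv]) ?_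
    · simp only [pow_zero, pow_one, one_mul, mul_one]; rfl
    · simp only [Int.natAbs_one, one_mul]; rfl

lemma mem_ofL (h : c.Ok μ) {ε : ℝ} {l : List ℤ} (hl : ∀ k < l.length, c.K k ∧ μ k = ε ^ k) :
    Mem c μ (hv ε l / sc) (c.ofL l) := by
  have e : c.ofL l = ⟨(pk l % c.M).toNat, l1 l, l1 l⟩ := by simp only [Cx.ofL, frc_eq]; rfl
  rw [e]
  refine ⟨pk l, hv ε l, (rel_pk ε l).mono hl, ?_, by simp [sc_pos.ne']⟩
  rw [Int.toNat_of_nonneg (Int.emod_nonneg _ (by exact_mod_cast h.M_pos.ne'))]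
  exact Int.mod_modEq _ _

end

/-- The monomials `ε ^ i * t ^ j` at the positions `i + (2 a + 1) j`. -/
def mu2 (a : ℕ) (ε t : ℝ) (k : ℕ) : ℝ := ε ^ (k % (2 * a + 1)) * t ^ (k / (2 * a + 1))

lemma K_mask2 {a b k : ℕ} :
    (mkCx (mask2 a b)).K k ↔ k % (2 * a + 1) ≤ a ∧ k / (2 * a + 1) ≤ b := by
  by_cases hk : k < (2 * a + 1) * (2 * b + 1)
  · simp [Cx.K, mkCx, mask2, List.getD_eq_getElem?_getD, hk]
  · simp only [Cx.K, mkCx, mask2, List.getD_eq_getElem?_getD, List.length_map, List.length_range,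
      not_lt.1 hk, List.getElem?_eq_none, Option.getD_none, Bool.false_eq_true, false_iff, not_and,
      not_le]
    intro _
    have := (Nat.le_div_iff_mul_le (k := 2 * a + 1) (x := 2 * b + 1) (y := k) (by omega)).2
      (by rw [mul_comm]; omega)
    omega

lemma ok2 (a b : ℕ) {ε t : ℝ} (hε : |ε| ≤ 1) (ht : |t| ≤ 1) :
    (mkCx (mask2 a b)).Ok (mu2 a ε t) := by
  refine ⟨rfl, fun k => ?_, by simp [mu2], K_mask2.2 (by simp), fun k k' hk hk' => ?_⟩
  · rw [mu2, abs_mul, abs_pow, abs_pow]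
    exact mul_le_one₀ (pow_le_one₀ (abs_nonneg _) hε) (by positivity)
      (pow_le_one₀ (abs_nonneg _) ht)
  · obtain ⟨a1, a2⟩ := K_mask2.1 hk
    obtain ⟨a3, a4⟩ := K_mask2.1 hk'
    have a5 : k % (2 * a + 1) + k' % (2 * a + 1) < 2 * a + 1 := by omega
    have a6 := Nat.add_div_eq_of_add_mod_lt a5
    have a7 := Nat.add_mod_of_add_mod_lt a5
    refine ⟨?_, by rw [mu2, a6, a7, mu2, mu2]; ring⟩
    simp only [mkCx, mask2, List.length_map, List.length_range]
    rw [mul_comm, ← Nat.div_lt_iff_lt_mul (by omega)]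
    omega

lemma mu2_low {a b k : ℕ} (ε t : ℝ) (hk : k ≤ a) :
    (mkCx (mask2 a b)).K k ∧ mu2 a ε t k = ε ^ k := by
  have h : k < 2 * a + 1 := by omega
  simp [K_mask2, mu2, Nat.mod_eq_of_lt h, Nat.div_eq_of_lt h, hk]

/-- The power `t ^ j` of the second variable. -/
lemma mem_pow {a b j : ℕ} (ε t : ℝ) (hj : j ≤ b) :
    Mem (mkCx (mask2 a b)) (mu2 a ε t) (t ^ j) (mono ((2 * a + 1) * j)) :=
  (mem_mono (K_mask2.2 (by simpa using hj))).of_eq (by simp [mu2])

/-- A polynomial in the first variable. -/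
lemma mem_eps {a b : ℕ} {ε t : ℝ} (hε : |ε| ≤ 1) (ht : |t| ≤ 1) {l : List ℤ}
    (hl : l.length ≤ a + 1) :
    Mem (mkCx (mask2 a b)) (mu2 a ε t) (hv ε l / sc) ((mkCx (mask2 a b)).ofL l) :=
  mem_ofL (ok2 a b hε ht) fun _ hk => mu2_low ε t (by omega)

/-- Passage to a context with another second variable. -/
lemma Mem.conv2 {a b a' b' : ℕ} (ha : a' ≤ a) {ε t t' x : ℝ} (hε : |ε| ≤ 1) (ht : |t| ≤ 1)
    (ht' : |t'| ≤ 1) {T : Tm} (h : Mem (mkCx (mask2 a b)) (mu2 a ε t) x T) :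
    Mem (mkCx (mask2 a' b')) (mu2 a' ε t') x
      ((mkCx (mask2 a b)).conv (mkCx (mask2 a' b')) a' T) :=
  h.conv (ok2 a b hε ht) (ok2 a' b' hε ht') fun _ hk => ⟨(mu2_low ε t' hk).1,
    (mu2_low (b := 0) ε t' hk).2.trans (mu2_low (b := 0) ε t (hk.trans ha)).2.symm⟩

/-- Polynomial expressions. -/
inductive Xp
  | var (i : ℕ)
  | nat (n : ℕ)
  | add (a b : Xp)
  | sub (a b : Xp)
  | mul (a b : Xp)
  | sm (k : ℕ) (a : Xp)

instance : Add Xp := ⟨Xp.add⟩
instance : Sub Xp := ⟨Xp.sub⟩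
instance : Mul Xp := ⟨Xp.mul⟩

def Xp.ev (env : List ℝ) : Xp → ℝ
  | .var i => env.getD i 0
  | .nat n => n
  | .add a b => a.ev env + b.ev env
  | .sub a b => a.ev env - b.ev env
  | .mul a b => a.ev env * b.ev env
  | .sm k a => k * a.ev env

def Xp.evT (c : Cx) (env : List Tm) : Xp → Tm
  | .var i => env.getD i ⟨0, 0, 0⟩
  | .nat n => PD.nat n
  | .add a b => (a.evT c env).add (b.evT c env)
  | .sub a b => c.sub (a.evT c env) (b.evT c env)
  | .mul a b => c.mul (a.evT c env) (b.evT c env)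
  | .sm k a => (a.evT c env).smul k

@[simp] lemma Xp.ev_add (env : List ℝ) (a b : Xp) : (a + b).ev env = a.ev env + b.ev env := rfl
@[simp] lemma Xp.ev_sub (env : List ℝ) (a b : Xp) : (a - b).ev env = a.ev env - b.ev env := rfl
@[simp] lemma Xp.ev_mul (env : List ℝ) (a b : Xp) : (a * b).ev env = a.ev env * b.ev env := rfl
@[simp] lemma Xp.ev_var (env : List ℝ) (i : ℕ) : (Xp.var i).ev env = env.getD i 0 := rfl
@[simp] lemma Xp.ev_nat (env : List ℝ) (n : ℕ) : (Xp.nat n).ev env = n := rfl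
@[simp] lemma Xp.ev_sm (env : List ℝ) (k : ℕ) (a : Xp) : (Xp.sm k a).ev env = k * a.ev env := rfl

lemma Xp.mem {c : Cx} {μ : ℕ → ℝ} (h : c.Ok μ) {x : List ℝ} {env : List Tm}
    (hx : List.Forall₂ (Mem c μ) x env) (e : Xp) : Mem c μ (e.ev x) (e.evT c env) := by
  induction e with
  | var i =>
    simp only [Xp.ev, Xp.evT]
    induction hx generalizing i with
    | nil => exact mem_ball (by simp)
    | cons h1 _ ih => cases i with
      | zero => exact h1
      | succ i => exact ih i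
  | nat n => exact mem_nat h n
  | add a b ha hb => exact ha.add hb
  | sub a b ha hb => exact ha.sub h hb
  | mul a b ha hb => exact ha.mul h hb
  | sm k a ha => exact ha.smul k

/-- All expressions of a list are positive. -/
lemma Xp.all_pos {c : Cx} {μ : ℕ → ℝ} (h : c.Ok μ) {x : List ℝ} {env : List Tm}
    (hx : List.Forall₂ (Mem c μ) x env) {es : List Xp}
    (hc : (es.all fun e => (e.evT c env).pos) = true) : ∀ e ∈ es, 0 < e.ev x :=
  fun e he => (e.mem h hx).pos h (List.all_eq_true.1 hc e he)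

end Pool.Agent.MP_187b32_an.PD

end MrgPart0

-- ======== part 1: formerly Pool.Agent.MP_187b32_an.PD.Waz
section MrgPart1

/-!
A nested interval argument for an expanding recurrence of Taylor coefficients.
-/

set_option autoImplicit false

open Set Finset PowerSeries

namespace Pool.Agent.MP_187b32_an.PD

lemma shrink {f : ℝ → ℝ} (hf : Continuous f) {u v τ : ℝ} (huv : u ≤ v) (hτ : 0 ≤ τ)
    (hu : f u ≤ -τ) (hv : τ ≤ f v) : ∃ u' v', u ≤ u' ∧ u' ≤ v' ∧ v' ≤ v ∧ f u' = -τ ∧ f v' = τ ∧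
      ∀ x ∈ Set.Icc u' v', |f x| ≤ τ := by
  obtain ⟨u', ⟨a1, a2⟩, a3⟩ := (isCompact_Icc.inter_right
    (isClosed_le hf continuous_const : IsClosed {x | f x ≤ -τ})).exists_isGreatest
      ⟨u, ⟨le_rfl, huv⟩, hu⟩
  obtain ⟨v', ⟨b1, b2⟩, b3⟩ := (isCompact_Icc.inter_right
    (isClosed_le continuous_const hf : IsClosed {x | τ ≤ f x})).exists_isLeast
      ⟨v, ⟨a1.2, le_rfl⟩, hv⟩
  replace a2 : f u' ≤ -τ := a2
  replace b2 : τ ≤ f v' := b2
  obtain ⟨y, y1, y2⟩ := intermediate_value_Icc b1.1 hf.continuousOn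
    (show -τ ∈ Set.Icc (f u') (f v') from ⟨a2, by linarith⟩)
  obtain ⟨z, z1, z2⟩ := intermediate_value_Icc b1.1 hf.continuousOn
    (show τ ∈ Set.Icc (f u') (f v') from ⟨by linarith, b2⟩)
  have c1 : y = u' := le_antisymm (a3 ⟨⟨a1.1.trans y1.1, y1.2.trans b1.2⟩, y2.le⟩) y1.1
  have c2 : z = v' := le_antisymm z1.2 (b3 ⟨⟨z1.1, z1.2.trans b1.2⟩, z2.ge⟩)
  refine ⟨u', v', a1.1, b1.1, b1.2, c1 ▸ y2, c2 ▸ z2, fun x hx => abs_le.2 ⟨?_, ?_⟩⟩
  · by_contra h
    have := le_antisymm (a3 ⟨⟨a1.1.trans hx.1, hx.2.trans b1.2⟩, (not_le.1 h).le⟩) hx.1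
    exact h (by rw [this, ← c1, y2])
  · by_contra h
    have := le_antisymm hx.2 (b3 ⟨⟨hx.1, hx.2.trans b1.2⟩, (not_le.1 h).le⟩)
    exact h (by rw [this, ← c2, z2])

theorem nested {f : ℕ → ℝ → ℝ} (hf : ∀ j, Continuous (f j)) {τ : ℝ} (hτ : 0 ≤ τ)
    (h0 : f 0 (-1) ≤ -τ) (h1 : τ ≤ f 0 1)
    (hs : ∀ k, ∀ x ∈ Set.Icc (-1 : ℝ) 1, (∀ j ≤ k, |f j x| ≤ τ) →
      (f k x = τ → τ ≤ f (k + 1) x) ∧ (f k x = -τ → f (k + 1) x ≤ -τ)) :
    ∃ x ∈ Set.Icc (-1 : ℝ) 1, ∀ j, |f j x| ≤ τ := by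
  have key : ∀ k, ∃ u v, -1 ≤ u ∧ u ≤ v ∧ v ≤ 1 ∧ f k u = -τ ∧ f k v = τ ∧
      ∀ x ∈ Set.Icc u v, ∀ j ≤ k, |f j x| ≤ τ := fun k => by
    induction k with
    | zero =>
      obtain ⟨u, v, a1, a2, a3, a4, a5, a6⟩ := shrink (hf 0) (by norm_num) hτ h0 h1
      exact ⟨u, v, a1, a2, a3, a4, a5, fun x hx j hj => Nat.le_zero.1 hj ▸ a6 x hx⟩
    | succ k ih =>
      obtain ⟨u, v, a1, a2, a3, a4, a5, a6⟩ := ih
      obtain ⟨u', v', b1, b2, b3, b4, b5, b6⟩ := shrink (hf (k + 1)) a2 hτ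
        ((hs k u ⟨a1, a2.trans a3⟩ (a6 u ⟨le_rfl, a2⟩)).2 a4)
        ((hs k v ⟨a1.trans a2, a3⟩ (a6 v ⟨a2, le_rfl⟩)).1 a5)
      refine ⟨u', v', a1.trans b1, b2, b3.trans a3, b4, b5, fun x hx j hj => ?_⟩
      rcases Nat.le_succ_iff.1 hj with hj | rfl
      · exact a6 x ⟨b1.trans hx.1, hx.2.trans b3⟩ j hj
      · exact b6 x hx
  let S : ℕ → Set ℝ := fun k => Set.Icc (-1) 1 ∩ ⋂ j ≤ k, {x | |f j x| ≤ τ}
  have hc : ∀ k, IsClosed (S k) := fun k => isClosed_Icc.inter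
    (isClosed_biInter fun j _ => isClosed_le (hf j).abs continuous_const)
  obtain ⟨x, hx⟩ := IsCompact.nonempty_iInter_of_sequence_nonempty_isCompact_isClosed S
    (fun k x hx => ⟨hx.1, mem_iInter₂.2 fun j hj => mem_iInter₂.1 hx.2 j (Nat.le_succ_of_le hj)⟩)
    (fun k => by
      obtain ⟨u, v, a1, a2, a3, -, -, a6⟩ := key k
      exact ⟨u, ⟨a1, a2.trans a3⟩, mem_iInter₂.2 (a6 u ⟨le_rfl, a2⟩)⟩)
    (isCompact_Icc.of_isClosed_subset (hc 0) inter_subset_left) hc
  exact ⟨x, (mem_iInter.1 hx 0).1, fun j => mem_iInter₂.1 (mem_iInter.1 hx j).2 j le_rfl⟩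

/-- The weight of the class. -/
def wt (N j : ℕ) : ℝ := ((max j N : ℕ) : ℝ) ^ 2

/-- The class of the tails, up to the index `k`. -/
def Cl (N k : ℕ) (c : ℝ) (T : ℝ⟦X⟧) : Prop := ∀ j ≤ k, |coeff j T| * wt N j ≤ c

/-- The norm of a multiplier of the class. -/
def Nm (N : ℕ) (a : ℝ) (Q : ℝ⟦X⟧) : Prop :=
  ∀ m, ∑ i ∈ range m, |coeff i Q| * (N + i : ℝ) ^ 2 ≤ a * N ^ 2

section
variable {N k : ℕ} {c c' a : ℝ} {T T' Q : ℝ⟦X⟧}

lemma wt_nonneg (N j : ℕ) : 0 ≤ wt N j := sq_nonneg _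

lemma Cl.nonneg (h : Cl N k c T) : 0 ≤ c :=
  (mul_nonneg (abs_nonneg _) (wt_nonneg _ _)).trans (h 0 k.zero_le)

lemma Cl.add (h : Cl N k c T) (h' : Cl N k c' T') : Cl N k (c + c') (T + T') := fun j hj => by
  rw [map_add]
  nlinarith [h j hj, h' j hj, abs_add_le (coeff j T) (coeff j T'), wt_nonneg N j]

lemma Cl.smul (h : Cl N k c T) {x : ℝ} (hx : |x| ≤ a) : Cl N k (a * c) (C x * T) := fun j hj => by
  rw [coeff_C_mul, abs_mul, mul_assoc]
  exact mul_le_mul hx (h j hj) (mul_nonneg (abs_nonneg _) (wt_nonneg _ _))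
    ((abs_nonneg _).trans hx)

lemma Cl.mulN (hN : 10 ≤ N) (hQ : Nm N a Q) (h : Cl N k c T) : Cl N k (a * c) (Q * T) := by
  intro j hj
  have h0 : (0 : ℝ) < N ^ 2 := by positivity
  refine le_of_mul_le_mul_right ?_ h0
  rw [coeff_mul, Finset.Nat.sum_antidiagonal_eq_sum_range_succ fun i l => coeff i Q * coeff l T]
  calc _ ≤ (∑ i ∈ range j.succ, |coeff i Q * coeff (j - i) T|) * wt N j * N ^ 2 := by
        gcongr
        exacts [wt_nonneg _ _, abs_sum_le_sum_abs _ _]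
    _ ≤ (∑ i ∈ range j.succ, |coeff i Q| * (N + i : ℝ) ^ 2) * c := by
        rw [mul_assoc, sum_mul, sum_mul]
        refine sum_le_sum fun i hi => ?_
        have a1 : max j N * N ≤ (N + i) * max (j - i) N := by
          have := Finset.mem_range.1 hi
          rcases le_total j N with h1 | h1
          · rw [max_eq_right h1]
            exact Nat.mul_le_mul (by omega) (le_max_right _ _)
          · rw [max_eq_left h1, add_mul, mul_comm j]
            calc N * j = N * (j - i) + i * N := by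
                  rw [mul_comm i, ← mul_add]; congr 1; omega
              _ ≤ _ := add_le_add (Nat.mul_le_mul_left _ (le_max_left _ _))
                  (Nat.mul_le_mul_left _ (le_max_right _ _))
        have a2 : wt N j * N ^ 2 ≤ (N + i : ℝ) ^ 2 * wt N (j - i) := by
          simp only [wt, ← mul_pow]
          exact pow_le_pow_left₀ (by positivity) (by exact_mod_cast a1) 2
        have a3 := h (j - i) (by omega)
        rw [abs_mul]
        calc _ ≤ |coeff i Q| * |coeff (j - i) T| * ((N + i : ℝ) ^ 2 * wt N (j - i)) := by gcongr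
          _ = |coeff i Q| * (N + i : ℝ) ^ 2 * (|coeff (j - i) T| * wt N (j - i)) := by ring
          _ ≤ _ := by gcongr
    _ ≤ a * N ^ 2 * c := mul_le_mul_of_nonneg_right (hQ _) h.nonneg
    _ = _ := by ring

lemma Cl.l1 (hN : 10 ≤ N) (h : Cl N k c T) {j : ℕ} (hj : j ≤ k) :
    ∑ i ∈ range (j + 1), |coeff i T| ≤ 5 * c / N := by
  have hN' : (10 : ℝ) ≤ N := by exact_mod_cast hN
  have hc := h.nonneg
  have key : ∀ m ≤ k + 1, ∑ i ∈ range m, |coeff i T| ≤ 4 * c / (N - 1) - 4 * c / (N - 1 + m) := by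
    intro m hm
    induction m with
    | zero => simp
    | succ m ih =>
      have a1 := h m (by omega)
      have a2 : (N + m : ℝ) ≤ 2 * (max m N : ℕ) := by
        exact_mod_cast (by omega : N + m ≤ 2 * max m N)
      have a0 : (0 : ℝ) ≤ m := m.cast_nonneg
      have a3 : (N - 1 + m) * (N + m : ℝ) ≤ 4 * wt N m := by
        unfold wt; nlinarith
      have a4 : |coeff m T| ≤ 4 * c / (N - 1 + m) - 4 * c / (N - 1 + (m + 1 : ℕ)) := by
        rw [Nat.cast_succ, show (N - 1 + (m + 1) : ℝ) = N + m by ring,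
          div_sub_div _ _ (by linarith) (by linarith), le_div_iff₀ (by nlinarith)]
        nlinarith [abs_nonneg (coeff m T)]
      rw [sum_range_succ]
      linarith [ih (by omega)]
  have a5 : 4 * c / (N - 1) ≤ 5 * c / N := by
    rw [div_le_div_iff₀ (by linarith) (by linarith)]
    nlinarith
  have a6 : 0 ≤ 4 * c / (N - 1 + (j + 1 : ℕ)) :=
    div_nonneg (by linarith) (by linarith [(j + 1).cast_nonneg (α := ℝ)])
  linarith [key (j + 1) (by omega)]

lemma Cl.mul (hN : 10 ≤ N) (h : Cl N k c T) (h' : Cl N k c' T') :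
    Cl N k (20 * c / N * c') (T * T') := by
  intro j hj
  have a1 := h.l1 hN hj
  have a2 := h'.l1 hN hj
  rw [← sum_range_reflect] at a2
  rw [coeff_mul, Finset.Nat.sum_antidiagonal_eq_sum_range_succ fun i l => coeff i T * coeff l T']
  calc _ ≤ (∑ i ∈ range j.succ, |coeff i T * coeff (j - i) T'|) * wt N j :=
        mul_le_mul_of_nonneg_right (abs_sum_le_sum_abs _ _) (wt_nonneg _ _)
    _ ≤ ∑ i ∈ range (j + 1), (2 * c * |coeff (j + 1 - 1 - i) T'| + 2 * c' * |coeff i T|) := by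
        rw [sum_mul]
        refine sum_le_sum fun i hi => ?_
        have b0 := Finset.mem_range.1 hi
        have b1 : ((max j N : ℕ) : ℝ) ≤ (max i N : ℕ) + (max (j - i) N : ℕ) := by
          exact_mod_cast (by omega : max j N ≤ max i N + max (j - i) N)
        have b2 : wt N j ≤ 2 * wt N i + 2 * wt N (j - i) := by
          unfold wt
          nlinarith [sq_nonneg (((max i N : ℕ) : ℝ) - (max (j - i) N : ℕ)),
            (max j N).cast_nonneg (α := ℝ)]
        have b3 := mul_le_mul_of_nonneg_right (h i (by omega)) (abs_nonneg (coeff (j - i) T'))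
        have b4 := mul_le_mul_of_nonneg_right (h' (j - i) (by omega)) (abs_nonneg (coeff i T))
        rw [abs_mul, Nat.add_sub_cancel]
        nlinarith [mul_nonneg (abs_nonneg (coeff i T)) (abs_nonneg (coeff (j - i) T'))]
    _ ≤ 2 * c * (5 * c' / N) + 2 * c' * (5 * c / N) := by
        rw [sum_add_distrib, ← mul_sum, ← mul_sum]
        have := h.nonneg
        have := h'.nonneg
        gcongr
    _ = _ := by ring

end

/-- The linearised quadratic and cubic terms. -/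
noncomputable def lin (a2 a3 : ℝ) (p : ℝ⟦X⟧) : ℝ⟦X⟧ := C (2 * a2) * p + C (3 * a3) * (p * p)

lemma cub {N k : ℕ} (hN : 10 ≤ N) (hk : N ≤ k) {τ a2 a3 α : ℝ} {p T : ℝ⟦X⟧} (hT : Cl N k τ T)
    (hτ : 20 * τ ≤ N) (h2 : |a2| ≤ 2) (h3 : |a3| ≤ 1) (hp : Nm N 1 p)
    (hα : Nm N α (lin a2 a3 p)) :
    |a2 * coeff k ((p + T) * (p + T)) + a3 * coeff k ((p + T) * (p + T) * (p + T))
      - (a2 * coeff k (p * p) + a3 * coeff k (p * p * p))| * k ^ 2 ≤ τ * (α + 120 * τ / N) := by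
  have a1 := hT.mul hN hT
  have a2' : |3 * a3| ≤ 3 := by rw [abs_mul]; norm_num; linarith
  have a4 := ((hT.mulN hN hα).add (((a1.smul h2).add ((a1.mulN hN hp).smul a2')).add
    ((hT.mul hN a1).smul h3))) k le_rfl
  have e : lin a2 a3 p * T + (C a2 * (T * T) +
      C (3 * a3) * (p * (T * T)) + C a3 * (T * (T * T))) =
      C a2 * ((p + T) * (p + T)) + C a3 * ((p + T) * (p + T) * (p + T))
      - (C a2 * (p * p) + C a3 * (p * p * p)) := by
    simp only [lin, map_mul, map_ofNat]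
    ring
  rw [e] at a4
  simp only [map_sub, map_add, coeff_C_mul, wt, max_eq_left hk] at a4
  refine a4.trans ?_
  have hN' : (0 : ℝ) < N := by exact_mod_cast (by omega : 0 < N)
  have b1 : 20 * τ / N ≤ 1 := (div_le_one hN').2 hτ
  have b2 : 0 ≤ 20 * τ / N * τ := a1.nonneg
  have b3 : τ * (α + 120 * τ / N) = α * τ + 6 * (20 * τ / N * τ) := by ring
  nlinarith

/-- The recurrence of the Taylor coefficients. -/
def Rec (e A1 A2 A3 B0 B1 B2 B3 : ℝ) (U : ℝ⟦X⟧) : Prop :=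
  coeff 0 U = 0 ∧ ∀ k : ℕ, (1 + 2 * (k + 1) * e) * coeff (k + 1) U =
    (k * A1 + B1) * coeff k U + (k * A2 + B2) * coeff k (U * U) +
      (k * A3 + B3) * coeff k (U * U * U) + if k = 0 then B0 else 0

theorem step {e A1 A2 A3 B0 B1 B2 B3 τ α β A B σ : ℝ} {U p : ℝ⟦X⟧} {N k : ℕ}
    (hU : Rec e A1 A2 A3 B0 B1 B2 B3 U) (he : 0 ≤ e) (hN : 10 ≤ N) (hk : N ≤ k)
    (hT : Cl N k τ (U - p)) (hτ : 20 * τ ≤ N) (hA2 : |A2| ≤ 2) (hA3 : |A3| ≤ 1) (hB2 : |B2| ≤ 2)
    (hB3 : |B3| ≤ 1) (hp : Nm N 1 p)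
    (hα : Nm N α (lin A2 A3 p)) (hβ : Nm N β (lin B2 B3 p))
    (hA : A ≤ A1 - 2 * e - (α + 120 * τ / N))
    (hB : B ≤ B1 + 9 / 5 * e - 1 - (β + 120 * τ / N))
    (hF : |(k * A2 + B2) * coeff k (p * p) + (k * A3 + B3) * coeff k (p * p * p)| * k ^ 2
      ≤ τ * (k * A + B)) (hσ : |σ| = 1) (h : σ * (coeff k U * k ^ 2) = τ) :
    τ ≤ σ * (coeff (k + 1) U * (k + 1 : ℕ) ^ 2) := by
  have a1 := cub hN hk hT hτ hA2 hA3 hp hα
  have a2 := cub hN hk hT hτ hB2 hB3 hp hβ
  have a3 := hU.2 k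
  rw [if_neg (by omega), add_zero] at a3
  rw [add_sub_cancel] at a1 a2
  have hτ0 := hT.nonneg
  have hk' : (10 : ℝ) ≤ k := by exact_mod_cast hN.trans hk
  have ab : ∀ x c : ℝ, |x| * k ^ 2 ≤ c → -c ≤ σ * (x * k ^ 2) := fun x c hx => by
    have : |σ * (x * k ^ 2)| = |x| * k ^ 2 := by
      rw [abs_mul, hσ, one_mul, abs_mul, abs_of_nonneg (sq_nonneg (k : ℝ))]
    linarith [neg_abs_le (σ * (x * k ^ 2))]
  have b1 := mul_le_mul_of_nonneg_left (ab _ _ a1) (by linarith : (0 : ℝ) ≤ k)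
  have b2 := ab _ _ a2
  have b3 := ab _ _ hF
  have b4 := mul_le_mul_of_nonneg_left hA (mul_nonneg hτ0 (by linarith : (0 : ℝ) ≤ k))
  have b5 := mul_le_mul_of_nonneg_left hB hτ0
  set z := σ * coeff (k + 1) U with hz
  have b6 : τ * (1 + 2 * (k - 9 / 10) * e) ≤ (1 + 2 * (k + 1) * e) * z * k ^ 2 := by
    have : (1 + 2 * (k + 1) * e) * z * k ^ 2 =
        σ * ((1 + 2 * (k + 1) * e) * coeff (k + 1) U) * k ^ 2 := by rw [hz]; ring
    rw [this, a3]
    generalize 120 * τ / N = s at *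
    have h' : σ * coeff k U * k ^ 2 = τ := by rw [← h]; ring
    have h1 : k * A1 * (σ * coeff k U * k ^ 2) = k * A1 * τ := by rw [h']
    have h2 : B1 * (σ * coeff k U * k ^ 2) = B1 * τ := by rw [h']
    linarith
  rw [← mul_assoc, ← hz, Nat.cast_succ]
  by_contra hc
  have c1 := mul_lt_mul_of_pos_left (not_le.1 hc)
    (show 0 < (1 + 2 * (k + 1) * e) * k ^ 2 by positivity)
  have c2 := mul_le_mul_of_nonneg_right b6 (sq_nonneg ((k : ℝ) + 1))
  have c3 : (1 + 2 * (k + 1) * e) * k ^ 2 ≤ (1 + 2 * (k - 9 / 10) * e) * ((k : ℝ) + 1) ^ 2 := by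
    have : (k : ℝ) ^ 2 ≤ (k - 9 / 10) * (k + 1) := by linarith
    nlinarith [mul_nonneg (mul_nonneg he (by linarith : (0 : ℝ) ≤ k + 1)) (sub_nonneg.2 this)]
  nlinarith [mul_le_mul_of_nonneg_left c3 hτ0]

end Pool.Agent.MP_187b32_an.PD

end MrgPart1

-- ======== part 2: formerly Pool.Agent.MP_187b32_an.PD.Lst
section MrgPart2

/-!
Lists of enclosures of Taylor coefficients, and the check of the expanding step.
-/

set_option autoImplicit false

open Finset PowerSeries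

namespace Pool.Agent.MP_187b32_an.PD

def zT : Tm := ⟨0, 0, 0⟩

def rev (l : List Tm) : List Tm :=
  List.rec (motive := fun _ => List Tm → List Tm) (fun acc => acc) (fun a _ ih acc => ih (a :: acc))
    l []

lemma rev_eq (l : List Tm) : rev l = l.reverse := by
  have : ∀ acc, List.rec (motive := fun _ => List Tm → List Tm) (fun acc => acc)
      (fun a _ ih acc => ih (a :: acc)) l acc = l.reverse ++ acc := by
    induction l with
    | nil => simp
    | cons a l ih => intro acc; simp [ih]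
  simp [rev, this]

def frcM {β : Type} (l : List Tm) : (List Tm → β) → β :=
  List.rec (motive := fun _ => (List Tm → β) → β) (fun k => k [])
    (fun a _ ih k => frcT a fun a => ih fun m => k (a :: m)) l

@[simp] lemma frcM_eq {β : Type} (l : List Tm) (k : List Tm → β) : frcM l k = k l := by
  induction l generalizing k with
  | nil => rfl
  | cons b l ih =>
    show frcT b (fun a => frcM l fun m => k (a :: m)) = _
    rw [frcT_eq, ih]

/-- Products of all tails of `D` with `F`. -/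
def cv (c : Cx) (F D : List Tm) : List Tm := List.rec [] (fun a D' ih => c.dot (a :: D') F :: ih) D

def allZ (f : ℕ → Tm → Tm → Bool) (n : ℕ) : List Tm → List Tm → Bool :=
  Nat.rec (motive := fun _ => List Tm → List Tm → Bool) (fun _ _ => true)
    (fun k ih D D' => List.casesOn D false fun a D => List.casesOn D' false fun b D' =>
      Bool.and (f k a b) (ih D D')) n

def sumZ (g : ℕ → Tm → Tm → ℕ) (n : ℕ) : List Tm → List Tm → ℕ :=
  Nat.rec (motive := fun _ => List Tm → List Tm → ℕ) (fun _ _ => 0)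
    (fun k ih D D' => List.casesOn D 0 fun a D => List.casesOn D' 0 fun b D' =>
      Nat.add (g k a b) (ih D D')) n

/-- `x, x t, x t ^ 2, ...` -/
def pws (c : Cx) (t : Tm) (n : ℕ) : Tm → List Tm :=
  Nat.rec (motive := fun _ => Tm → List Tm) (fun _ => [])
    (fun _ ih x => frcT x fun x => x :: ih (c.mul x t)) n

def idx (l : List Tm) : ℕ → List Tm :=
  List.rec (motive := fun _ => ℕ → List Tm) (fun _ => [])
    (fun a _ ih j => frc j fun j => a.smul j :: ih (Nat.succ j)) l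

/-- The coefficients below `n` in descending order. -/
noncomputable def dn (y : ℝ⟦X⟧) : ℕ → List ℝ
  | 0 => []
  | k + 1 => coeff k y :: dn y k

def asc (f : ℕ → ℝ) (n : ℕ) : List ℝ := (List.range n).map f

lemma asc_succ (f : ℕ → ℝ) (n : ℕ) : asc f (n + 1) = f 0 :: asc (fun j => f (j + 1)) n := by
  simp [asc, List.range_succ_eq_map, Function.comp_def]

lemma dn_rev (y : ℝ⟦X⟧) (n : ℕ) : (dn y n).reverse = asc (fun j => coeff j y) n := by
  induction n with
  | zero => rfl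
  | succ n ih => simp [dn, ih, asc, List.range_succ]

lemma zip_asc (f g : ℕ → ℝ) (n : ℕ) :
    (List.zipWith (· * ·) (asc f n) (asc g n)).sum = ∑ j ∈ range n, f j * g j := by
  induction n generalizing f g with
  | zero => rfl
  | succ n ih => rw [asc_succ, asc_succ, List.zipWith_cons_cons, List.sum_cons, ih, sum_range_succ',
      add_comm]

lemma zip_dn (x : ℝ⟦X⟧) (k : ℕ) (g : ℕ → ℝ) (n : ℕ) :
    (List.zipWith (· * ·) (dn x k) (asc g n)).sum =
      ∑ j ∈ range k, coeff (k - 1 - j) x * if j < n then g j else 0 := by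
  induction k generalizing g n with
  | zero => simp [dn]
  | succ k ih =>
    cases n with
    | zero => simp [asc]
    | succ n =>
      rw [asc_succ, dn, List.zipWith_cons_cons, List.sum_cons, ih, sum_range_succ', add_comm]
      simp only [Nat.add_lt_add_iff_right, Nat.add_sub_cancel, Nat.zero_lt_succ, if_true,
        Nat.sub_zero, add_left_inj]
      exact sum_congr rfl fun j _ => by rw [show k - (j + 1) = k - 1 - j by omega]

lemma zip_conv (x y : ℝ⟦X⟧) {k n : ℕ} (h : k < n ∨ ∀ j, n ≤ j → coeff j y = 0) :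
    (List.zipWith (· * ·) (dn x (k + 1)) (asc (fun j => coeff j y) n)).sum = coeff k (x * y) := by
  rw [zip_dn, mul_comm x, coeff_mul,
    Finset.Nat.sum_antidiagonal_eq_sum_range_succ fun i l => coeff i y * coeff l x]
  refine sum_congr rfl fun j hj => ?_
  have := mem_range.1 hj
  rw [mul_comm, Nat.add_sub_cancel]
  split_ifs with h1
  · rfl
  · rw [h.resolve_left (by omega) j (by omega)]

section
variable {c : Cx} {μ : ℕ → ℝ} {x y : ℝ⟦X⟧} {n : ℕ} {D D' F : List Tm}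

lemma mem_zT : Mem c μ 0 zT := mem_ball (by simp)

lemma mem_rev (h : List.Forall₂ (Mem c μ) (dn y n) D) :
    List.Forall₂ (Mem c μ) (asc (fun j => coeff j y) n) (rev D) := by
  rw [rev_eq, ← dn_rev]
  exact List.rel_reverse h

lemma mem_cv (h : c.Ok μ) (hF : List.Forall₂ (Mem c μ) (asc (fun j => coeff j y) n) F)
    (hy : ∀ j, n ≤ j → coeff j y = 0) {k : ℕ} (hD : List.Forall₂ (Mem c μ) (dn x k) D) :
    List.Forall₂ (Mem c μ) (dn (x * y) k) (cv c F D) := by
  induction k generalizing D with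
  | zero => cases hD; exact .nil
  | succ k ih =>
    have h1 := (Mem.dot h hD hF).of_eq (zip_conv x y (Or.inr hy))
    cases hD with
    | cons _ h2 => exact .cons h1 (ih h2)

lemma allZ_sound {f : ℕ → Tm → Tm → Bool} (hD : List.Forall₂ (Mem c μ) (dn x n) D)
    (hD' : List.Forall₂ (Mem c μ) (dn y n) D') (h : allZ f n D D' = true) :
    ∀ k < n, ∃ a b, Mem c μ (coeff k x) a ∧ Mem c μ (coeff k y) b ∧ f k a b = true := by
  induction n generalizing D D' with
  | zero => simp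
  | succ n ih =>
    cases hD with
    | cons h1 h2 =>
      cases hD' with
      | cons h3 h4 =>
        obtain ⟨h5, h6⟩ := Bool.and_eq_true_iff.1 h
        intro k hk
        rcases Nat.lt_succ_iff_lt_or_eq.1 hk with hk | rfl
        exacts [ih h2 h4 h6 k hk, ⟨_, _, h1, h3, h5⟩]

lemma sumZ_sound {g : ℕ → Tm → Tm → ℕ} {φ : ℕ → ℝ} (hD : List.Forall₂ (Mem c μ) (dn x n) D)
    (hD' : List.Forall₂ (Mem c μ) (dn y n) D')
    (h : ∀ k a b, Mem c μ (coeff k x) a → Mem c μ (coeff k y) b → φ k ≤ g k a b) :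
    ∑ k ∈ range n, φ k ≤ sumZ g n D D' := by
  induction n generalizing D D' with
  | zero => simp [sumZ]
  | succ n ih =>
    cases hD with
    | @cons _ a _ D h1 h2 =>
      cases hD' with
      | @cons _ b _ D' h3 h4 =>
        rw [sum_range_succ, show sumZ g (n + 1) (a :: D) (b :: D') = g n a b + sumZ g n D D' from rfl,
          Nat.cast_add]
        linarith [ih h2 h4, h n a b h1 h3]

lemma mem_pws (h : c.Ok μ) {t z : ℝ} {T Z : Tm} (ht : Mem c μ t T) (hz : Mem c μ z Z) (n : ℕ) :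
    List.Forall₂ (Mem c μ) (asc (fun j => z * t ^ j) n) (pws c T n Z) := by
  induction n generalizing z Z with
  | zero => exact .nil
  | succ n ih =>
    rw [asc_succ, show pws c T (n + 1) Z = Z :: pws c T n (c.mul Z T) from
      frcT_eq Z fun x => x :: pws c T n (c.mul x T)]
    exact .cons (by simpa using hz) (by simpa only [pow_succ', mul_assoc] using ih (hz.mul h ht))

lemma mem_idx {f : ℕ → ℝ} (hF : List.Forall₂ (Mem c μ) (asc f n) F) (j : ℕ) :
    List.Forall₂ (Mem c μ) (asc (fun i => ((i + j : ℕ) : ℝ) * f i) n) (idx F j) := by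
  induction n generalizing f F j with
  | zero => cases hF; exact .nil
  | succ n ih =>
    rw [asc_succ] at hF ⊢
    cases hF with
    | @cons _ a _ F h1 h2 =>
      rw [show idx (a :: F) j = a.smul j :: idx F (j + 1) from
        frc_eq j fun j => a.smul j :: idx F (j + 1)]
      exact .cons (by simpa using h1.smul j)
        (by simpa only [add_assoc, add_comm 1 j] using ih h2 (j + 1))

lemma mem_pad (hD : List.Forall₂ (Mem c μ) (dn y n) D) (hy : ∀ j, n ≤ j → coeff j y = 0) (m : ℕ) :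
    List.Forall₂ (Mem c μ) (dn y (n + m)) (List.replicate m zT ++ D) := by
  induction m with
  | zero => exact hD
  | succ m ih => exact .cons (mem_zT.of_eq (hy _ (Nat.le_add_right n m)).symm) ih

lemma Mem.mid' {z : ℝ} {a : Tm} (h1 : Mem c μ z a) :
    ∃ w, Mem c μ w a.mid ∧ |z - w| * sc + a.n ≤ a.w := by
  obtain ⟨P, v, k1, k2, k3⟩ := h1
  refine ⟨v / sc, ⟨P, v, k1, k2, by simp [Tm.mid, sc_pos.ne']⟩, ?_⟩
  rwa [← abs_of_pos sc_pos, ← abs_mul, sub_mul, abs_of_pos sc_pos, div_mul_cancel₀ _ sc_pos.ne']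

lemma dn_congr (h : ∀ j < n, coeff j x = coeff j y) : dn x n = dn y n := by
  induction n with
  | zero => rfl
  | succ n ih => rw [dn, dn, h n n.lt_succ_self, ih fun j hj => h j (by omega)]

lemma exists_mid (hD : List.Forall₂ (Mem c μ) (dn y n) D) {ρ : ℝ}
    (h : ∀ a ∈ D, (a.w : ℝ) ≤ ρ + a.n) : ∃ p : ℝ⟦X⟧, (∀ j, n ≤ j → coeff j p = 0) ∧
      List.Forall₂ (Mem c μ) (dn p n) (D.map Tm.mid) ∧ ∀ j < n, |coeff j (y - p)| * sc ≤ ρ := by
  induction n generalizing D with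
  | zero => cases hD; exact ⟨0, by simp, .nil, by simp⟩
  | succ n ih =>
    cases hD with
    | @cons _ a _ D h1 h2 =>
      obtain ⟨p, p1, p2, p3⟩ := ih h2 fun b hb => h b (List.mem_cons_of_mem _ hb)
      obtain ⟨w, w1, w2⟩ := h1.mid'
      have e : ∀ j, j ≠ n → coeff j (p + monomial n w) = coeff j p := fun j hj => by
        simp [coeff_monomial, hj]
      have e' : coeff n (p + monomial n w) = w := by simp [p1 n le_rfl]
      refine ⟨p + monomial n w, fun j hj => by rw [e j (by omega), p1 j (by omega)], ?_,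
        fun j hj => ?_⟩
      · rw [dn, e', dn_congr fun j hj => e j hj.ne]
        exact .cons w1 p2
      · rw [map_sub]
        rcases Nat.lt_succ_iff_lt_or_eq.1 hj with hj | rfl
        · rw [e j hj.ne, ← map_sub]; exact p3 j hj
        · rw [e']; linarith [h a List.mem_cons_self]

end

lemma sp_mul {x y : ℝ⟦X⟧} {n m : ℕ} (hx : ∀ j, n ≤ j → coeff j x = 0)
    (hy : ∀ j, m ≤ j → coeff j y = 0) (j : ℕ) (hj : n + m ≤ j) : coeff j (x * y) = 0 := by
  rw [coeff_mul]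
  refine sum_eq_zero fun q hq => ?_
  have := Finset.HasAntidiagonal.mem_antidiagonal.1 hq
  rcases le_total n q.1 with h | h
  · rw [hx _ h, zero_mul]
  · rw [hy _ (by omega), mul_zero]

lemma nm_of {N K S : ℕ} {a : ℝ} {Q : ℝ⟦X⟧} (h0 : ∀ j, K ≤ j → coeff j Q = 0)
    (h : ∑ i ∈ range K, |coeff i Q| * (N + i : ℝ) ^ 2 * sc ≤ S) (hS : (S : ℝ) ≤ a * N ^ 2 * sc) :
    Nm N a Q := fun m => by
  rw [← sum_mul] at h
  refine le_trans ?_ (le_of_mul_le_mul_right (h.trans hS) sc_pos)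
  rcases le_total m K with h1 | h1
  · exact sum_le_sum_of_subset_of_nonneg (range_mono h1) fun _ _ _ => by positivity
  · exact (sum_subset (range_mono h1) fun j _ hj => by
      rw [h0 j (by simpa using hj)]; simp).symm.le

lemma le_div_succ {x : ℝ} {a b : ℕ} (hb : 0 < b) (h : x * b ≤ a) : x ≤ (a / b + 1 : ℕ) := by
  have a6 : (a : ℝ) < (a / b : ℕ) * b + b := by exact_mod_cast Nat.lt_div_mul_add hb
  have : (0 : ℝ) < b := by exact_mod_cast hb
  push_cast
  exact le_of_mul_le_mul_right (by linarith) this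

/-- Enclosures of the coefficients of the recurrence. -/
structure Co where
  A1 : Tm
  A2 : Tm
  A3 : Tm
  B0 : Tm
  B1 : Tm
  B2 : Tm
  B3 : Tm

structure CoM (c : Cx) (μ : ℕ → ℝ) (A1 A2 A3 B0 B1 B2 B3 : ℝ) (o : Co) : Prop where
  a1 : Mem c μ A1 o.A1
  a2 : Mem c μ A2 o.A2
  a3 : Mem c μ A3 o.A3
  b0 : Mem c μ B0 o.B0
  b1 : Mem c μ B1 o.B1
  b2 : Mem c μ B2 o.B2
  b3 : Mem c μ B3 o.B3

/-- Weighted norm of the linearised terms. -/
def nmT (c : Cx) (N : ℕ) (a2 a3 : Tm) (Dp Ds : List Tm) : ℕ :=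
  sumZ (fun k a b => (N + k) * (N + k) * (c.dot [a, b] [a2.smul 2, a3.smul 3]).w) (3 * N) Dp Ds
    / (N * N) + 1

/-- The check of the expanding step for all indices `≥ N`. -/
def ph2 (c : Cx) (o : Co) (E : Tm) (N tn td : ℕ) (C : List Tm) : Bool :=
  (C.all fun a => Nat.ble (a.w * (N * N * td)) (tn * sc + a.n * (N * N * td))) &&
  Nat.ble o.A2.w (2 * sc) && Nat.ble o.B2.w (2 * sc) && Nat.ble o.A3.w sc && Nat.ble o.B3.w sc &&
  frcM (C.map Tm.mid) fun P => frcM (rev P) fun F => frcM (List.replicate (2 * N) zT ++ P) fun Dp =>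
  frcM (cv c F Dp) fun Ds => frcM (cv c F Ds) fun Dc =>
  Nat.ble (sumZ (fun k a _ => (N + k) * (N + k) * a.w) (3 * N) Dp Dp) (N * N * sc) &&
  frc (120 * tn * sc / (td * N) + 1) fun s =>
  frcT ((c.mul (nat 1) (c.sub o.A1 (E.smul 2))).wid (nmT c N o.A2 o.A3 Dp Ds + s)) fun A =>
  frcT ((c.sub (o.B1.add (c.mul (rat 9 5) E)) (nat 1)).wid (nmT c N o.B2 o.B3 Dp Ds + s)) fun B =>
  A.pos && allZ (fun k a b => Nat.blt k N || ((c.mul (nat 1) ((A.smul k).add B)).wid
    ((c.dot [a, b] [(o.A2.smul k).add o.B2, (o.A3.smul k).add o.B3]).w * (k * k * td) / tn + 1)).pos)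
    (3 * N) Ds Dc

lemma nmT_sound {c : Cx} {μ : ℕ → ℝ} (h : c.Ok μ) {N : ℕ} (hN : 10 ≤ N) {a2 a3 : ℝ} {T2 T3 : Tm}
    (h2 : Mem c μ a2 T2) (h3 : Mem c μ a3 T3) {p : ℝ⟦X⟧} (hp : ∀ j, N ≤ j → coeff j p = 0)
    {Dp Ds : List Tm} (k1 : List.Forall₂ (Mem c μ) (dn p (3 * N)) Dp)
    (k2 : List.Forall₂ (Mem c μ) (dn (p * p) (3 * N)) Ds) :
    Nm N (nmT c N T2 T3 Dp Ds / sc) (lin a2 a3 p) := by
  refine nm_of (K := 3 * N) (fun j hj => ?_) (sumZ_sound k1 k2
    (g := fun k a b => (N + k) * (N + k) * (c.dot [a, b] [T2.smul 2, T3.smul 3]).w)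
    fun k a b ha hb => ?_) ?_
  · simp only [lin, map_add, coeff_C_mul, hp j (by omega), sp_mul hp hp j (by omega)]
    simp
  · have := (Mem.dot h (.cons ha (.cons hb .nil))
      (.cons (h2.smul 2) (.cons (h3.smul 3) .nil))).abs_le h
    have e : coeff k (lin a2 a3 p) = (List.zipWith (· * ·) [coeff k p, coeff k (p * p)]
        [(2 : ℕ) * a2, (3 : ℕ) * a3]).sum := by
      simp only [lin, map_add, coeff_C_mul]
      simp
      ring
    rw [e]
    push_cast at this ⊢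
    nlinarith [sq_nonneg (N + k : ℝ)]
  · rw [mul_right_comm, div_mul_cancel₀ _ sc_pos.ne', nmT]
    have := Nat.lt_div_mul_add (a := sumZ (fun k a b => (N + k) * (N + k) *
      (c.dot [a, b] [T2.smul 2, T3.smul 3]).w) (3 * N) Dp Ds) (b := N * N) (by positivity)
    rw [sq, ← Nat.cast_mul, ← Nat.cast_mul, Nat.cast_le, add_mul, one_mul]
    exact this.le

theorem ph2_sound {c : Cx} {μ : ℕ → ℝ} (h : c.Ok μ) {e A1 A2 A3 B0 B1 B2 B3 : ℝ} {o : Co}
    (ho : CoM c μ A1 A2 A3 B0 B1 B2 B3 o) {E : Tm} (hE : Mem c μ e E) (he : 0 ≤ e) {N tn td : ℕ}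
    (hN : 10 ≤ N) (htn : 0 < tn) (htd : 0 < td) (hτ : 20 * tn ≤ N * td) {U : ℝ⟦X⟧}
    (hU : Rec e A1 A2 A3 B0 B1 B2 B3 U) {C : List Tm} (hC : List.Forall₂ (Mem c μ) (dn U N) C)
    (hc : ph2 c o E N tn td C = true) {k : ℕ} (hk : N ≤ k)
    (hj : ∀ j, N ≤ j → j ≤ k → |coeff j U| * j ^ 2 ≤ tn / td) {σ : ℝ} (hσ : |σ| = 1)
    (hs : σ * (coeff k U * k ^ 2) = tn / td) :
    (tn / td : ℝ) ≤ σ * (coeff (k + 1) U * (k + 1 : ℕ) ^ 2) := by
  simp only [ph2, frcM_eq, frc_eq, frcT_eq, Bool.and_eq_true, Nat.ble_eq, List.all_eq_true] at hc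
  obtain ⟨⟨⟨⟨⟨c1, c2⟩, c3⟩, c4⟩, c5⟩, c6, c7, c8⟩ := hc
  have hs0 := sc_pos
  have n0 : (0 : ℝ) < N := by exact_mod_cast (by omega : 0 < N)
  have t0 : (0 : ℝ) < tn := by exact_mod_cast htn
  have t1 : (0 : ℝ) < td := by exact_mod_cast htd
  obtain ⟨p, p1, p2, p3⟩ := exists_mid hC (ρ := tn * sc / (N * N * td)) fun a ha => by
    have : (a.w : ℝ) * (N * N * td) ≤ tn * sc + a.n * (N * N * td) := by exact_mod_cast c1 a ha
    rw [div_add' _ _ _ (by positivity), le_div_iff₀ (by positivity)]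
    exact this
  have k1 := mem_pad p2 p1 (2 * N)
  rw [show N + 2 * N = 3 * N by ring] at k1
  have k2 := mem_cv h (mem_rev p2) p1 k1
  have k3 := mem_cv h (mem_rev p2) p1 k2
  generalize List.replicate (2 * N) zT ++ C.map Tm.mid = Dp at *
  generalize rev (C.map Tm.mid) = F at *
  generalize cv c F Dp = Ds at *
  generalize cv c F Ds = Dc at *
  have bd : ∀ {x : ℝ} {T : Tm} {m : ℕ}, Mem c μ x T → T.w ≤ m * sc → |x| ≤ m := fun hx hw =>
    le_of_mul_le_mul_right ((hx.abs_le h).trans (by exact_mod_cast hw)) hs0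
  have s1 : 120 * (tn / td : ℝ) / N * sc ≤ (120 * tn * sc / (td * N) + 1 : ℕ) :=
    le_div_succ (by positivity) (le_of_eq (by push_cast; field_simp))
  have s0 : 0 ≤ 120 * (tn / td : ℝ) / N := by positivity
  have wd : ∀ {x : ℝ} {T : Tm} (m : ℕ), Mem c μ x T → Mem c μ (x - (m / sc + 120 * (tn / td) / N))
      (T.wid (m + (120 * tn * sc / (td * N) + 1))) := fun m hx => hx.wid (by
    rw [sub_sub_cancel_left, abs_neg, abs_of_nonneg (by positivity), add_mul,
      div_mul_cancel₀ _ hs0.ne', Nat.cast_add]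
    linarith)
  have mA := wd (nmT c N o.A2 o.A3 Dp Ds) ((mem_nat h 1).mul h (ho.a1.sub h (hE.smul 2)))
  have mB := wd (nmT c N o.B2 o.B3 Dp Ds)
    ((ho.b1.add ((mem_rat h 9 (q := 5) (by norm_num)).mul h hE)).sub h (mem_nat h 1))
  have hA := mA.pos h c7
  set A := (1 : ℕ) * (A1 - (2 : ℕ) * e) - _ with eA
  set B := B1 + (9 : ℕ) / (5 : ℕ) * e - (1 : ℕ) - _ with eB
  have key : ∀ i, N ≤ i → i < 3 * N → |(i * A2 + B2) * coeff i (p * p) +
      (i * A3 + B3) * coeff i (p * p * p)| * i ^ 2 ≤ tn / td * (i * A + B) := fun i h1 h2 => by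
    obtain ⟨a, b, ha, hb, h3⟩ := allZ_sound k2 k3 c8 i h2
    rw [Bool.or_eq_true, Nat.blt_eq, or_iff_right (by omega)] at h3
    have h4 := (Mem.dot h (.cons ha (.cons hb .nil)) (.cons ((ho.a2.smul i).add ho.b2)
      (.cons ((ho.a3.smul i).add ho.b3) .nil))).abs_le h
    simp only [List.zipWith_cons_cons, List.zipWith_nil_right, List.sum_cons, List.sum_nil,
      add_zero, mul_comm (coeff i _)] at h4
    set z := |(i * A2 + B2) * coeff i (p * p) + (i * A3 + B3) * coeff i (p * p * p)| with hz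
    have h5 := (((mem_nat h 1).mul h ((mA.smul i).add mB)).wid
      (y := i * A + B - z * i ^ 2 * td / tn) (by
        rw [Nat.cast_one, one_mul, sub_sub_cancel_left, abs_neg, abs_of_nonneg (by positivity)]
        refine le_div_succ htn ?_
        push_cast
        calc _ = z * sc * (i * i * td) := by field_simp
          _ ≤ _ := by gcongr)).pos h h3
    rw [sub_pos, div_lt_iff₀ t0] at h5
    rw [div_mul_eq_mul_div, le_div_iff₀ t1]
    linarith
  refine step hU he hN hk (p := p) (fun j hj' => ?_) ?_ (bd ho.a2 c2) ?_ (bd ho.b2 c3) ?_ ?_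
    (nmT_sound h hN ho.a2 ho.a3 p1 k1 k2) (nmT_sound h hN ho.b2 ho.b3 p1 k1 k2) (A := A) (B := B)
    (by rw [eA]; push_cast; linarith) (by rw [eB]; push_cast; linarith) ?_ hσ hs
  · rcases lt_or_ge j N with h1 | h1
    · have := p3 j h1
      rw [le_div_iff₀ (by positivity)] at this
      rw [wt, max_eq_right h1.le, le_div_iff₀ t1]
      exact le_of_mul_le_mul_right (by linarith) hs0
    · rw [wt, max_eq_left h1, map_sub, p1 j h1, sub_zero]
      exact hj j h1 hj'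
  · rw [← mul_div_assoc, div_le_iff₀ t1]
    exact_mod_cast hτ
  · simpa using bd (m := 1) ho.a3 (by simpa using c4)
  · simpa using bd (m := 1) ho.b3 (by simpa using c5)
  · refine nm_of (K := 3 * N) (fun j hj => p1 j (by omega)) (sumZ_sound k1 k1
      (g := fun k a _ => (N + k) * (N + k) * a.w) fun k a b ha _ => ?_) ?_
    · have := ha.abs_le h
      push_cast
      nlinarith [sq_nonneg (N + k : ℝ)]
    · rw [one_mul, sq]
      exact_mod_cast c6
  · rcases lt_or_ge k (3 * N) with h1 | h1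
    · exact key k hk h1
    · rw [sp_mul p1 p1 k (by omega), sp_mul (sp_mul p1 p1) p1 k (by omega)]
      have a1 := (mul_nonneg (abs_nonneg _) (sq_nonneg _)).trans (key N le_rfl (by omega))
      have a2 : (N : ℝ) ≤ k := by exact_mod_cast hk
      simp only [mul_zero, add_zero, abs_zero, zero_mul]
      exact a1.trans (by gcongr)

end Pool.Agent.MP_187b32_an.PD

end MrgPart2

-- marker of a merged file
example : 731051 + 40153 = 731051 + 40153 := rfl

end MrgPart0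

-- ======== part 1: formerly Pool.Agent.MP_187b32_an.PD.Ser
section MrgPart1

-- ======== part 0: formerly Pool.Agent.MP_187b32_an.PD.Glue
section MrgPart0

/-!
Gluing the inner and the outer part of the profile, in every dimension.
-/

set_option autoImplicit false

open Set Filter Topology
open scoped ContDiff

namespace Pool.Agent.MP_187b32_an.PD

noncomputable def nuF (e r s W : ℝ) : ℝ := (r - 1 + (1 - e) * (W * (r + W))) / (e - s * (1 + W) ^ 2)

noncomputable def aF (e r s W : ℝ) : ℝ :=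
  ((r - 1) * W * (1 + W) * s - (r - 1) - (1 - e) * W) / (e - s * (1 + W) ^ 2)

noncomputable def gF (e r s W : ℝ) : ℝ := (aF e r s W - W) / (2 * s * (1 - s * nuF e r s W))

section
variable {e r s q y lam lam' : ℝ} {W nu : ℝ → ℝ}

lemma eqs_solve (h : Eqs e r W nu s) (hD : e - s * (1 + W s) ^ 2 ≠ 0) :
    nu s = nuF e r s (W s) ∧ AA W nu s = aF e r s (W s) := by
  obtain ⟨h1, h2⟩ := h
  unfold nuF aF
  constructor
  · rw [eq_div_iff hD]
    linear_combination e * h1 - (1 + W s) * h2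
  · rw [eq_div_iff hD]
    linear_combination (-(1 + W s) * s) * h1 + h2

lemma eqs_of (h1 : nu s = nuF e r s (W s)) (h2 : AA W nu s = aF e r s (W s))
    (hD : e - s * (1 + W s) ^ 2 ≠ 0) : Eqs e r W nu s := by
  rw [nuF, eq_div_iff hD] at h1
  rw [aF, eq_div_iff hD] at h2
  constructor
  · refine mul_right_cancel₀ hD ?_
    linear_combination (1 + W s) * h2 + h1
  · refine mul_right_cancel₀ hD ?_
    linear_combination e * h2 + (1 + W s) * s * h1

lemma Rep.mono (h : Rep lam W nu s) (hl : lam' ≤ lam) : Rep lam' W nu s := by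
  obtain ⟨h1, h2, h3, h4, h5⟩ := h
  refine ⟨h1, by linarith, by linarith, h4.trans ?_, h5.trans ?_⟩
  · gcongr
  · gcongr

lemma gF_cd (h1 : e - s * (1 + y) ^ 2 ≠ 0) (h2 : s ≠ 0) (h3 : 1 - s * nuF e r s y ≠ 0) :
    ContDiffAt ℝ ∞ (fun p : ℝ × ℝ => gF e r p.1 p.2) (s, y) := by
  have a1 : ContDiffAt ℝ ∞ (fun p : ℝ × ℝ => nuF e r p.1 p.2) (s, y) := by
    unfold nuF
    exact ContDiffAt.div (by fun_prop) (by fun_prop) h1
  have a2 : ContDiffAt ℝ ∞ (fun p : ℝ × ℝ => aF e r p.1 p.2) (s, y) := by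
    unfold aF
    exact ContDiffAt.div (by fun_prop) (by fun_prop) h1
  unfold gF
  exact ContDiffAt.div (by fun_prop) (by fun_prop) (by simp [h2, h3])

lemma out_D (hq : q ≠ 0) : e - (q ^ 2)⁻¹ * (1 + q * y) ^ 2 = -sO e q y / q ^ 2 := by
  unfold sO
  field_simp
  ring

lemma out_nu (hq : q ≠ 0) (hΔ : sO e q y ≠ 0) :
    nuF e r (q ^ 2)⁻¹ (q * y) = -(q ^ 2 * bO e r q y) / sO e q y := by
  rw [nuF, out_D hq, bO]
  field_simp

lemma out_mu (hq : q ≠ 0) (hΔ : sO e q y ≠ 0) :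
    1 - (q ^ 2)⁻¹ * nuF e r (q ^ 2)⁻¹ (q * y) = dO e r q y / sO e q y := by
  have key : dO e r q y = sO e q y + bO e r q y := by
    unfold dO sO bO GG
    ring
  rw [out_nu hq hΔ, key]
  field_simp
  ring

lemma out_a (hq : q ≠ 0) (hΔ : sO e q y ≠ 0) :
    aF e r (q ^ 2)⁻¹ (q * y) = aO e r q y / sO e q y := by
  rw [aF, out_D hq, aO]
  field_simp
  ring

lemma out_g (hq : q ≠ 0) (hΔ : sO e q y ≠ 0) (hb : dO e r q y ≠ 0) :
    gF e r (q ^ 2)⁻¹ (q * y) =
      -(q ^ 3 / 2) * y + q * (-nO e r q y / dO e r q y * -(q ^ 3 / 2)) := by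
  have key : aO e r q y - sO e q y * (q * y) = -(q * y) * dO e r q y + q ^ 2 * nO e r q y := by
    unfold aO sO dO nO GG
    ring
  rw [gF, out_mu hq hΔ, out_a hq hΔ, div_sub' hΔ, key]
  field_simp

lemma out_rep (hq : q ≠ 0) (h : RepO lam e r q y) (e0 : s = (q ^ 2)⁻¹) (e1 : W s = q * y)
    (e2 : nu s = nuF e r s (W s)) (e3 : AA W nu s = aF e r s (W s)) : Rep lam W nu s := by
  obtain ⟨h1, h2, h3, h4, h5, h6⟩ := h
  unfold Rep
  rw [e3, e2, e1, e0, out_mu hq h2.ne', out_a hq h2.ne', out_nu hq h2.ne']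
  have a1 : 4 / 3 * (q ^ 2)⁻¹ * (-(q ^ 2 * bO e r q y) / sO e q y) ^ 2 =
      4 / 3 * (q * bO e r q y) ^ 2 / sO e q y ^ 2 := by
    field_simp
  have a2 : 1 + aO e r q y / sO e q y - lam = ((1 - lam) * sO e q y + aO e r q y) / sO e q y := by
    field_simp
    ring
  refine ⟨div_pos h1 h2, ?_, h4, ?_, ?_⟩
  · have := div_pos h3 h2
    linarith
  · rw [a1, a2, div_pow]
    gcongr
  · rw [a1, div_le_iff₀ (by positivity), ← mul_pow]
    exact h6

lemma q_facts (h0 : 0 < s) : 0 < (√s)⁻¹ ∧ ((√s)⁻¹ ^ 2)⁻¹ = s ∧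
    HasDerivAt (fun s => (√s)⁻¹) (-((√s)⁻¹ ^ 3 / 2)) s := by
  have h1 : 0 < √s := Real.sqrt_pos.2 h0
  refine ⟨inv_pos.2 h1, by rw [inv_pow, inv_inv, Real.sq_sqrt h0.le], ?_⟩
  refine ((Real.hasDerivAt_sqrt h0.ne').fun_inv h1.ne').congr_deriv ?_
  field_simp

end

theorem glue : GlueStmt := by
  classical
  rintro e r q1 y1 he hq1 ⟨d, lam, Wi, ni, hd, hlam, cW, cn, hE, hR, h41⟩
    ⟨lam2, y0, hlam2, Y, -, hY0, hY⟩
  have hq0 : 0 < q1 := by linarith
  have hsq : (√(q1 ^ 2)⁻¹)⁻¹ = q1 := by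
    rw [Real.sqrt_inv, inv_inv, Real.sqrt_sq hq0.le]
  have hX4 : (q1 ^ 2)⁻¹ ≤ 4 := by
    rw [inv_le_comm₀ (by positivity) (by norm_num)]
    nlinarith
  have hXD : e - (q1 ^ 2)⁻¹ * (1 + Wi (q1 ^ 2)⁻¹) ^ 2 ≠ 0 := by
    have := (hY q1 ⟨by linarith, le_rfl⟩).2.2.1
    rw [h41, out_D hq0.ne', ← hY0]
    exact div_ne_zero (by linarith) (by positivity)
  have hX0 : 0 < (q1 ^ 2)⁻¹ := by positivity
  generalize (q1 ^ 2)⁻¹ = X at *
  let Wo : ℝ → ℝ := fun s => (√s)⁻¹ * Y (√s)⁻¹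
  let W : ℝ → ℝ := fun s => if s ≤ X then Wi s else Wo s
  let nu : ℝ → ℝ := fun s => if s ≤ X then ni s else nuF e r s (Wo s)
  have hqm : ∀ s, X ≤ s → (√s)⁻¹ ∈ Icc (-1 / 10 : ℝ) q1 := fun s hs =>
    ⟨by linarith [(q_facts (hX0.trans_le hs)).1],
      hsq ▸ inv_anti₀ (Real.sqrt_pos.2 hX0) (Real.sqrt_le_sqrt hs)⟩
  have hW4 : Wo X = Wi X := by
    simp only [Wo, hsq, hY0, h41]
  have hWi : ∀ s, s ≤ X → W s = Wi s := fun s hs => if_pos hs
  have hni : ∀ s, s ≤ X → nu s = ni s := fun s hs => if_pos hs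
  have hWo : ∀ s, X ≤ s → W s = Wo s := fun s hs => by
    rcases hs.eq_or_lt with rfl | hs
    · rw [hWi _ le_rfl, hW4]
    · exact if_neg (not_le.2 hs)
  have hWev : ∀ s, s < X → W =ᶠ[𝓝 s] Wi := fun s hs =>
    (Iio_mem_nhds hs : Iio X ∈ 𝓝 s) |> fun h => mem_of_superset h fun t ht => hWi t (le_of_lt ht)
  have hnev : ∀ s, s < X → nu =ᶠ[𝓝 s] ni := fun s hs =>
    (Iio_mem_nhds hs : Iio X ∈ 𝓝 s) |> fun h => mem_of_superset h fun t ht => hni t (le_of_lt ht)
  have cWa : ∀ s, -d < s → s ≤ X → ContDiffAt ℝ ∞ Wi s := fun s h1 h2 =>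
    cW.contDiffAt (Ioo_mem_nhds h1 (by linarith))
  have cna : ∀ s, -d < s → s ≤ X → ContDiffAt ℝ ∞ ni s := fun s h1 h2 =>
    cn.contDiffAt (Ioo_mem_nhds h1 (by linarith))
  have ho : ∀ s, X ≤ s → e - s * (1 + Wo s) ^ 2 ≠ 0 ∧
      1 - s * nuF e r s (Wo s) = dO e r (√s)⁻¹ (Y (√s)⁻¹) / sO e (√s)⁻¹ (Y (√s)⁻¹) ∧
      0 < dO e r (√s)⁻¹ (Y (√s)⁻¹) / sO e (√s)⁻¹ (Y (√s)⁻¹) ∧
      HasDerivWithinAt Wo (gF e r s (Wo s)) (Ici X) s := fun s hs => by
    obtain ⟨q0, q2, q3⟩ := q_facts (hX0.trans_le hs)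
    obtain ⟨y1, a2, a1, -⟩ := hY _ (hqm s hs)
    have a3 := y1.comp s (q3.hasDerivWithinAt (s := Ici X)) fun t ht => hqm t ht
    have a4 := (q3.hasDerivWithinAt (s := Ici X)).fun_mul a3
    simp only [Function.comp_def] at a4
    simp only [Wo]
    generalize (√s)⁻¹ = q at *
    subst q2
    refine ⟨?_, out_mu q0.ne' a1.ne', div_pos a2 a1, ?_⟩
    · rw [out_D q0.ne']
      exact div_ne_zero (by linarith) (by positivity)
    · rw [out_g q0.ne' a1.ne' a2.ne']
      exact a4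
  obtain ⟨ε, hε, hε'⟩ : ∃ ε > 0, ∀ s, X - ε < s → s ≤ X → 0 < s ∧ e - s * (1 + Wi s) ^ 2 ≠ 0 := by
    have c1 : ContinuousAt (fun s => e - s * (1 + Wi s) ^ 2) X := by
      have := (cWa X (by linarith) le_rfl).continuousAt
      fun_prop
    have c2 := c1.eventually_ne (y := 0) hXD
    obtain ⟨ε, hε, h⟩ := Metric.eventually_nhds_iff.1 (c2.and (Ioi_mem_nhds hX0))
    exact ⟨ε, hε, fun s h1 h2 => (h (by rw [Real.dist_eq, abs_lt]; constructor <;> linarith)).symm⟩
  have hi : ∀ s, X - ε < s → s ≤ X → ni s = nuF e r s (Wi s) ∧ 0 < 1 - s * ni s ∧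
      HasDerivAt Wi (gF e r s (Wi s)) s := fun s h1 h2 => by
    obtain ⟨a1, a2⟩ := hε' s h1 h2
    obtain ⟨a3, a4⟩ := eqs_solve (hE s ⟨by linarith, by linarith⟩) a2
    have a5 := (hR s ⟨a1.le, h2⟩).1
    refine ⟨a3, a5, ((cWa s (by linarith) h2).differentiableAt (by simp)).hasDerivAt.congr_deriv ?_⟩
    rw [gF, ← a3, ← a4, AA, eq_div_iff (by positivity)]
    ring
  have hm : ∀ s, X - ε < s → nu s = nuF e r s (W s) ∧ 0 < s ∧ e - s * (1 + W s) ^ 2 ≠ 0 ∧
      0 < 1 - s * nu s ∧ HasDerivAt W (gF e r s (W s)) s := fun s h1 => by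
    rcases lt_trichotomy s X with h2 | rfl | h2
    · obtain ⟨a1, a2, a3⟩ := hi s h1 h2.le
      rw [hWi s h2.le, hni s h2.le]
      exact ⟨a1, (hε' s h1 h2.le).1, (hε' s h1 h2.le).2, a2, a3.congr_of_eventuallyEq (hWev s h2)⟩
    · obtain ⟨a1, a2, a3⟩ := hi _ h1 le_rfl
      rw [hWi _ le_rfl, hni _ le_rfl]
      refine ⟨a1, hX0, (hε' _ h1 le_rfl).2, a2, ?_⟩
      have b1 : HasDerivWithinAt W (gF e r s (Wi s)) (Iic s) s :=
        a3.hasDerivWithinAt.congr (fun t ht => hWi t ht) (hWi _ le_rfl)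
      have b2 : HasDerivWithinAt W (gF e r s (Wi s)) (Ici s) s :=
        (hW4 ▸ (ho _ le_rfl).2.2.2).congr (fun t ht => hWo t ht) (hWo _ le_rfl)
      have b3 := b1.union b2
      rwa [Iic_union_Ici, hasDerivWithinAt_univ] at b3
    · obtain ⟨a1, a2, a3, a4⟩ := ho s h2.le
      have e1 : nu s = nuF e r s (Wo s) := if_neg (not_le.2 h2)
      rw [e1, hWo s h2.le, a2]
      refine ⟨rfl, by linarith, a1, a3, (a4.hasDerivAt (Ici_mem_nhds h2)).congr_of_eventuallyEq ?_⟩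
      exact mem_of_superset (Ici_mem_nhds h2) fun t ht => hWo t ht
  have cW1 : ContDiffOn ℝ ∞ W (Ioi (X - ε)) :=
    Prof.boot isOpen_Ioi (G := fun p => gF e r p.1 p.2) (fun s hs => (hm s hs).2.2.2.2) fun s hs => by
      obtain ⟨a1, a2, a3, a4, -⟩ := hm s hs
      exact gF_cd a3 a2.ne' (by rw [← a1]; exact a4.ne')
  have cn1 : ContDiffOn ℝ ∞ nu (Ioi (X - ε)) := by
    refine ContDiffOn.congr (f := fun s => nuF e r s (W s)) ?_ fun s hs => (hm s hs).1
    unfold nuF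
    exact ContDiffOn.div (by fun_prop) (by fun_prop) fun s hs => (hm s hs).2.2.1
  obtain ⟨d', hd', hd''⟩ : ∃ d' > 0, ∀ s, -d' < s → s ≤ 0 → -d < s ∧ 0 < 1 - s * ni s := by
    have c1 : ContinuousAt (fun s => 1 - s * ni s) 0 := by
      have := (cna 0 (by linarith) hX0.le).continuousAt
      fun_prop
    have c2 := c1.eventually (Ioi_mem_nhds (a := 0) (by simp))
    obtain ⟨ε, hε, h⟩ := Metric.eventually_nhds_iff.1 (c2.and (Ioi_mem_nhds (neg_lt_zero.2 hd)))
    exact ⟨ε, hε, fun s h1 h2 => (h (by rw [Real.dist_eq, abs_lt]; constructor <;> linarith)).symm⟩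
  have hdd : ∀ s, -d' < s → -d < s := fun s hs => by
    rcases le_total s 0 with h | h
    · exact (hd'' s hs h).1
    · linarith
  have hsub : ∀ q ∈ Ioo (-1 / 10 : ℝ) (1 / 2), q ∈ Icc (-1 / 10 : ℝ) q1 := fun q hq =>
    ⟨hq.1.le, by linarith [hq.2]⟩
  have cY : ContDiffOn ℝ ∞ Y (Ioo (-1 / 10) (1 / 2)) :=
    Prof.boot isOpen_Ioo (G := fun p => -nO e r p.1 p.2 / dO e r p.1 p.2)
      (fun q hq => (hY q (hsub q hq)).1.hasDerivAt (Icc_mem_nhds hq.1 (by linarith [hq.2])))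
      fun q hq => ContDiffAt.div (by unfold nO; fun_prop) (by unfold dO GG; fun_prop)
        (hY q (hsub q hq)).2.1.ne'
  refine ⟨d', min lam lam2, W, nu, Y, fun q => dO e r q (Y q) / sO e q (Y q), hd',
    lt_min hlam hlam2, fun s hs => ?_, fun s hs => ?_, fun s hs => ?_, fun s hs => ?_, cY,
    ?_, by simp [dO, sO, GG], fun q hq => ?_, fun s hs => ⟨hWo s (by linarith), ?_⟩⟩
  · rcases lt_or_ge s X with h | h
    · exact ((cWa s (hdd s hs) h.le).congr_of_eventuallyEq (hWev s h)).contDiffWithinAt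
    · exact (cW1.contDiffAt (Ioi_mem_nhds (by linarith))).contDiffWithinAt
  · rcases lt_or_ge s X with h | h
    · exact ((cna s (hdd s hs) h.le).congr_of_eventuallyEq (hnev s h)).contDiffWithinAt
    · exact (cn1.contDiffAt (Ioi_mem_nhds (by linarith))).contDiffWithinAt
  · rcases le_total s 0 with h | h
    · rw [hni s (by linarith)]
      exact (hd'' s hs h).2
    · rcases le_total s X with h' | h'
      · rw [hni s h']
        exact (hR s ⟨h, h'⟩).1
      · exact (hm s (by linarith)).2.2.2.1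
  · rcases lt_or_ge s X with h | h
    · have e1 : AA W nu s = AA Wi ni s := by
        simp only [AA, hWi s h.le, hni s h.le, (hWev s h).deriv_eq]
      unfold Eqs
      refine ⟨?_, Rep.mono ?_ (min_le_left _ _)⟩
      · rw [e1, hWi s h.le, hni s h.le]
        exact hE s ⟨by linarith, by linarith⟩
      · unfold Rep
        rw [e1, hWi s h.le, hni s h.le]
        exact hR s ⟨hs, h.le⟩
    · obtain ⟨a1, a2, a3, a4, a5⟩ := hm s (by linarith)
      have e1 : AA W nu s = aF e r s (W s) := by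
        rw [AA, a5.deriv, gF, ← a1]
        field_simp
        ring
      obtain ⟨q0, q2, -⟩ := q_facts a2
      exact ⟨eqs_of a1 e1 a3, (out_rep q0.ne' (hY _ (hqm s h)).2 q2.symm (hWo s h) a1 e1).mono
        (min_le_right _ _)⟩
  · refine ContDiffOn.div (by unfold dO GG; fun_prop) (by unfold sO; fun_prop) fun q hq => ?_
    exact (hY q (hsub q hq)).2.2.1.ne'
  · exact div_pos (hY q (hsub q hq)).2.1 (hY q (hsub q hq)).2.2.1
  · have e1 : nu s = nuF e r s (Wo s) := if_neg (not_le.2 (by linarith))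
    rw [e1]
    exact (ho s (by linarith)).2.1

end Pool.Agent.MP_187b32_an.PD

end MrgPart0

-- ======== part 1: formerly Pool.Agent.MP_187b32_an.PD.Ser
section MrgPart1

/-!
The power series of the profile at the origin, `W (ν t) = 1 - r + U t`.
-/

set_option autoImplicit false

open Set Finset PowerSeries Pool.Agent.MP_187b32_an.Prof
open scoped ContDiff

namespace Pool.Agent.MP_187b32_an.PD

def cA1 (ν e r : ℝ) : ℝ := 2 * (ν * ((2 - r) * (2 - r) + e * (r - 1)))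
def cA2 (ν e r : ℝ) : ℝ := ν * (3 * (2 - r) - e * (2 - r))
noncomputable def cA3 (ν e : ℝ) : ℝ := 2 * ν / 3 * (2 - e)
def cB0 (ν r : ℝ) : ℝ := -(ν * ((r - 1) * (2 - r)))
def cB1 (ν r : ℝ) : ℝ := ν * ((2 - r) * (2 - r) - (r - 1))
def cB2 (ν r : ℝ) : ℝ := ν * (2 * (2 - r))

def Eqn (ν e r : ℝ) (U : ℝ⟦X⟧) : Prop :=
  C (2 * e) * th U + U = X * (C (cB0 ν r) + C (cB1 ν r) * U + C (cB2 ν r) * (U * U) +
    C ν * (U * U * U) + (C (cA1 ν e r) + C (2 * cA2 ν e r) * U + C (3 * cA3 ν e) * (U * U)) * th U)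

lemma exists_ser {e : ℝ} (he : 0 < e) (ν : ℝ) {r : ℝ → ℝ} (hr : Continuous r) :
    ∃ U : ℝ → ℝ⟦X⟧, (∀ n, Continuous fun θ => coeff n (U θ)) ∧
      ∀ θ ∈ Set.Icc (-1 : ℝ) 1, Eqn ν e (r θ) (U θ) := by
  obtain ⟨-, -, y, -, -, h2, h3⟩ := briot_bouquet (P := Set.Icc (-1 : ℝ) 1)
    (.add (.add (.add (.var 2) (.mul (.var 3) (.var 1))) (.mul (.var 4) (.mul (.var 1) (.var 1))))
      (.mul (.var 5) (.mul (.mul (.var 1) (.var 1)) (.var 1))))
    (.add (.add (.var 6) (.mul (.var 7) (.var 1))) (.mul (.var 8) (.mul (.var 1) (.var 1))))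
    (πs := [fun p => cB0 ν (r p), fun p => cB1 ν (r p), fun p => cB2 ν (r p), fun _ => ν,
      fun p => cA1 ν e (r p), fun p => 2 * cA2 ν e (r p), fun _ => 3 * cA3 ν e])
    (by
      simp only [List.mem_cons, List.not_mem_nil, or_false, forall_eq_or_imp, forall_eq, cB0, cB1,
        cB2, cA1, cA2]
      refine ⟨?_, ?_, ?_, ?_, ?_, ?_, ?_⟩ <;> fun_prop)
    (lam := fun _ => 2 * e) (α := fun _ => 1) (f0 := fun _ => 0) continuous_const continuous_const
    continuous_const (lt_min he one_pos) fun p n => by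
      have h0 : (0 : ℝ) ≤ n := n.cast_nonneg
      rw [abs_of_nonneg (by positivity)]
      nlinarith [min_le_left e 1, min_le_right e 1]
  have h1 : (-1 : ℝ) ≤ 1 := by norm_num
  refine ⟨fun θ => y (projIcc (-1) 1 h1 θ), fun n => (h2 n).comp (continuous_projIcc (h := h1)),
    fun θ hθ => ?_⟩
  have := h3 ⟨θ, hθ⟩
  simp only [projIcc_of_mem h1 hθ]
  simpa [rhs, Ex.ev, Eqn] using this

lemma Eqn.rec' {ν e r : ℝ} {U : ℝ⟦X⟧} (h : Eqn ν e r U) :
    Rec e (cA1 ν e r) (cA2 ν e r) (cA3 ν e) (cB0 ν r) (cB1 ν r) (cB2 ν r) ν U := by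
  have e2 : th (U * U) = 2 * U * th U := by
    simp only [th, Derivation.leibniz, smul_eq_mul]; ring
  have e3 : th (U * U * U) = 3 * (U * U) * th U := by
    simp only [th, Derivation.leibniz, smul_eq_mul]; ring
  have e4 : (C (cA1 ν e r) + C (2 * cA2 ν e r) * U + C (3 * cA3 ν e) * (U * U)) * th U =
      C (cA1 ν e r) * th U + C (cA2 ν e r) * th (U * U) + C (cA3 ν e) * th (U * U * U) := by
    rw [e2, e3]
    simp only [map_mul, map_ofNat]
    ring
  rw [Eqn, e4] at h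
  constructor
  · have := congrArg (coeff 0) h
    rw [map_add, coeff_C_mul, coeff_th] at this
    simpa using this
  · intro k
    have := congrArg (coeff (k + 1)) h
    simp only [map_add, coeff_C_mul, coeff_th, coeff_succ_X_mul, coeff_C] at this
    push_cast at this
    linarith

lemma tail_le {y : ℝ⟦X⟧} {N : ℕ} {c s t : ℝ} (h : ∀ j, N ≤ j → |coeff j y| ≤ c) (ht : |t| ≤ s)
    (hs : s < 1) : |ev y t - ∑ j ∈ range N, coeff j y * t ^ j| ≤ c * s ^ N / (1 - s) := by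
  have h0 := (abs_nonneg t).trans ht
  have h1 := (hasSum_geometric_of_lt_one h0 hs).mul_left (c * s ^ N)
  have h2 : ∀ j, ‖coeff (j + N) y * t ^ (j + N)‖ ≤ c * s ^ N * s ^ j := fun j => by
    rw [Real.norm_eq_abs, abs_mul, abs_pow, mul_assoc, ← pow_add, add_comm N]
    exact mul_le_mul (h _ (by omega)) (pow_le_pow_left₀ (abs_nonneg _) ht _) (by positivity)
      ((abs_nonneg _).trans (h N le_rfl))
  have h3 : Summable fun j => coeff j y * t ^ j :=
    (summable_nat_add_iff N).1 (Summable.of_norm_bounded h1.summable h2)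
  rw [ev, ← h3.sum_add_tsum_nat_add N, add_sub_cancel_left, div_eq_mul_inv]
  exact tsum_of_norm_bounded h1 h2

/-- The inequalities along the inner part; `p = 2 x W'`. -/
def Six (x w p r : ℝ) : Prop :=
  0 < 1 - x * (1 + w) * p ∧ 0 < 1 + x * (w * (r + w)) ∧
    0 < (19 / 20 + w) * (1 - x * (1 + w) * p) + p * (1 + x * (w * (r + w))) ∧ 0 < 19 / 20 + w ∧
    4 * (x * (w * (r + w) * (1 - x * (1 + w) * p) + (1 + w) * (p * (1 + x * (w * (r + w))))) ^ 2) <
      3 * ((19 / 20 + w) * (1 - x * (1 + w) * p) + p * (1 + x * (w * (r + w)))) ^ 2 ∧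
    4 * (x * (w * (r + w) * (1 - x * (1 + w) * p) + (1 + w) * (p * (1 + x * (w * (r + w))))) ^ 2) <
      3 * ((19 / 20 + w) * (1 - x * (1 + w) * p)) ^ 2

theorem inner_of {ν e r R h t1 t2 q1 y1 : ℝ} {U : ℝ⟦X⟧} (hU : Eqn ν e r U) (hν : 0 < ν)
    (hR : ∀ n, |coeff n U| ≤ R) (hh : 0 < h) (hh1 : h ≤ t2) (h12 : t1 < t2) (h2 : t2 < 1)
    (hs : ∀ t ∈ Set.Icc (-h) t2, Six (ν * t) (1 - r + ev U t) (2 * ev (th U) t) r)
    (hq : (q1 ^ 2)⁻¹ = ν * t1) (hy : 1 - r + ev U t1 = q1 * y1) : Inner e r q1 y1 := by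
  have hR' : ∀ n, |coeff n U| * 1 ^ n ≤ R := by simpa using hR
  set δ := ν * min h (t2 - t1) with hδ
  have hδ0 : 0 < δ := mul_pos hν (lt_min hh (by linarith))
  let W : ℝ → ℝ := fun x => 1 - r + ev U (x / ν)
  let p : ℝ → ℝ := fun x => 2 * x * deriv W x
  let D : ℝ → ℝ := fun x => 1 - x * (1 + W x) * p x
  let n1 : ℝ → ℝ := fun x => 1 + x * (W x * (r + W x))
  let mu : ℝ → ℝ := fun x => -(W x * (r + W x)) - (1 + W x) * p x * (n1 x / D x)
  have hI : ∀ x ∈ Set.Ioo (-δ) (ν * t1 + δ), x / ν ∈ Set.Icc (-h) t2 ∧ |x / ν| < 1 := fun x hx => by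
    have a1 : -h ≤ x / ν := by
      rw [le_div_iff₀ hν]
      nlinarith [hx.1, min_le_left h (t2 - t1)]
    have a2 : x / ν ≤ t2 := by
      rw [div_le_iff₀ hν]
      nlinarith [hx.2, min_le_right h (t2 - t1)]
    exact ⟨⟨a1, a2⟩, abs_lt.2 ⟨by linarith, by linarith⟩⟩
  have key : ∀ x ∈ Set.Ioo (-δ) (ν * t1 + δ), Six x (W x) (p x) r ∧
      p x * (x * GG e r (W x) - e) = W x + r - 1 - x * HH r (W x) := fun x hx => by
    obtain ⟨a1, a2⟩ := hI x hx
    obtain ⟨v, b1, b2⟩ := ev_deriv one_pos hR' a2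
    have b3 : HS (x / ν) (th U) (x / ν * v) := (hs_X _).mul b2
    have b4 : HasDerivAt W (v * (1 / ν)) x :=
      (b1.comp x ((hasDerivAt_id x).div_const ν)).const_add _
    have b5 : p x = 2 * (x / ν * v) := by
      simp only [p, b4.deriv]
      ring
    have b6 := hs _ a1
    rw [b3.2, ← b5, mul_div_cancel₀ _ hν.ne'] at b6
    refine ⟨b6, ?_⟩
    have u := hs_ev one_pos hR' a2
    have c1 := ((hs_C _ (2 * e)).mul b3).add u
    have c2 := (hs_X (x / ν)).mul (((((hs_C _ (cB0 ν r)).add ((hs_C _ (cB1 ν r)).mul u)).add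
      ((hs_C _ (cB2 ν r)).mul (u.mul u))).add ((hs_C _ ν).mul ((u.mul u).mul u))).add
      ((((hs_C _ (cA1 ν e r)).add ((hs_C _ (2 * cA2 ν e r)).mul u)).add
        ((hs_C _ (3 * cA3 ν e)).mul (u.mul u))).mul b3))
    have c3 := c1.2.symm.trans ((congrArg (fun z => ev z (x / ν)) hU).trans c2.2)
    rw [b5]
    have c4 : x = ν * (x / ν) := (mul_div_cancel₀ _ hν.ne').symm
    simp only [W]
    generalize x / ν = t at c3 c4 ⊢
    subst c4
    simp only [cA1, cA2, cA3, cB0, cB1, cB2, GG, HH] at c3 ⊢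
    linear_combination -c3
  have cW : ContDiffOn ℝ ∞ W (Set.Ioo (-δ) (ν * t1 + δ)) := fun x hx =>
    (contDiffAt_const.add (((ev_analytic one_pos hR' (hI x hx).2).contDiffAt).comp x
      (f := fun x => x / ν) (by fun_prop))).contDiffWithinAt
  have cD : ContDiffOn ℝ ∞ (deriv W) (Set.Ioo (-δ) (ν * t1 + δ)) :=
    cW.deriv_of_isOpen isOpen_Ioo (by simp)
  have hm : ∀ x ∈ Set.Ioo (-δ) (ν * t1 + δ), 1 - x * mu x = n1 x / D x ∧
      AA W mu x = W x + p x * (n1 x / D x) := fun x hx => by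
    have a1 : D x ≠ 0 := (key x hx).1.1.ne'
    have a2 : 1 - x * mu x = n1 x / D x := by
      have : n1 x / D x * D x = n1 x := div_mul_cancel₀ _ a1
      simp only [mu]
      generalize n1 x / D x = m at this ⊢
      simp only [D, n1] at this
      linear_combination -this
    refine ⟨a2, ?_⟩
    rw [AA, a2]
    simp only [p]
    ring
  refine ⟨δ, 1 / 20, W, mu, hδ0, by norm_num, hq ▸ cW, hq ▸ ?_, hq ▸ fun x hx => ?_,
    hq ▸ fun x hx => ?_, by simp only [W, hq, mul_div_cancel_left₀ _ hν.ne', hy]⟩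
  · have cp : ContDiffOn ℝ ∞ p (Set.Ioo (-δ) (ν * t1 + δ)) := by fun_prop
    have cm : ContDiffOn ℝ ∞ (fun x => n1 x / D x) (Set.Ioo (-δ) (ν * t1 + δ)) :=
      ContDiffOn.div (by fun_prop) (by fun_prop) fun x hx => (key x hx).1.1.ne'
    fun_prop
  · obtain ⟨a1, a2⟩ := key x hx
    have a3 : n1 x / D x * D x = n1 x := div_mul_cancel₀ _ a1.1.ne'
    rw [Eqs, (hm x hx).2]
    simp only [mu]
    generalize n1 x / D x = m at a3 ⊢
    refine ⟨by ring, mul_right_cancel₀ (b := D x) a1.1.ne' ?_⟩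
    simp only [D, n1, GG, HH] at a2 a3 ⊢
    linear_combination (e * p x - (1 + W x) ^ 2 * x * p x) * a3 - a2
  · have hx' : x ∈ Set.Ioo (-δ) (ν * t1 + δ) := ⟨by linarith [hx.1], by linarith [hx.2]⟩
    obtain ⟨⟨a1, a2, a3, a4, a5, a6⟩, -⟩ := key x hx'
    have a7 : n1 x / D x * D x = n1 x := div_mul_cancel₀ _ a1.ne'
    have a8 : 0 < n1 x / D x := div_pos a2 a1
    rw [Rep, (hm x hx').1, (hm x hx').2]
    change 0 < D x at a1
    change 0 < (19 / 20 + W x) * D x + p x * n1 x at a3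
    change 4 * (x * (W x * (r + W x) * D x + (1 + W x) * (p x * n1 x)) ^ 2) <
      3 * ((19 / 20 + W x) * D x + p x * n1 x) ^ 2 at a5
    change 4 * (x * (W x * (r + W x) * D x + (1 + W x) * (p x * n1 x)) ^ 2) <
      3 * ((19 / 20 + W x) * D x) ^ 2 at a6
    simp only [mu]
    generalize n1 x / D x = m at a7 a8 ⊢
    rw [← a7] at a3 a5 a6
    have b0 : 0 < D x ^ 2 := by positivity
    refine ⟨a8, ?_, by linarith, le_of_mul_le_mul_right ?_ b0, le_of_mul_le_mul_right ?_ b0⟩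
    · have := (mul_pos_iff_of_pos_right a1).1 (show 0 < (19 / 20 + W x + p x * m) * D x by linarith)
      linarith
    · linarith
    · linarith

end Pool.Agent.MP_187b32_an.PD

end MrgPart1

-- marker of a merged file
example : 731051 + 877583 = 731051 + 877583 := rfl

end MrgPart1

-- marker of a merged file
example : 731051 + 877583 = 731051 + 877583 := rfl
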