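import Pool.Agent.MP_187b32_an.PD.Dim.O
import Pool.Agent.MP_187b32_an.PD.Dim.C
import Pool.Agent.MP_187b32_an.PD.Dim.D
import Pool.Agent.MP_187b32_an.PD.Dim.E
import Pool.Agent.MP_187b32_an.PD.Dim.F
import Pool.Agent.MP_187b32_an.PD.Dim.I
import Pool.Agent.MP_187b32_an.PD.Small.Main
import Pool.Agent.MP_187b32_an.PD.SmallO.Out

-- ======== part 0: formerly Pool.Agent.MP_187b32_an.PD.Dim.All
section MrgPart0

/-!
Both parts of the profile in every dimension `d ≥ 6`.
-/

set_option autoImplicit false

namespace Pool.Agent.MP_187b32_an.PD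

theorem both_big {e : ℝ} (h0 : 0 < e) (h1 : e ≤ 1 / 64) : Both e := by
  refine both_cell bigI bigO (ε := 128 * e - 1) (abs_le.2 ⟨by linarith, by linarith⟩) h0 ?_
    (by simpa using h0.le)
  have a1 : ((Int.ofNat (sc / 128) : ℤ) : ℝ) = sc / 128 := by norm_num [sc]
  have a2 : e - hv (128 * e - 1) [Int.ofNat (sc / 128), Int.ofNat (sc / 128)] / sc = 0 := by
    simp only [hv, a1]
    field_simp [sc_pos.ne']
    ring
  rw [a2]
  simp

theorem both_large {d : ℕ} (h : 6 ≤ d) : Both (1 / d) := by
  rcases lt_or_ge d 64 with h1 | h1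
  · interval_cases d
    exacts [b6, b7, b8, b9, b10, b11, b12, b13, b14, b15, b16, b17, b18, b19, b20, b21,
      b22, b23, b24, b25, b26, b27, b28, b29, b30, b31, b32, b33, b34, b35, b36, b37,
      b38, b39, b40, b41, b42, b43, b44, b45, b46, b47, b48, b49, b50, b51, b52, b53,
      b54, b55, b56, b57, b58, b59, b60, b61, b62, b63]
  · have h2 : (64 : ℝ) ≤ d := by exact_mod_cast h1
    exact both_big (by positivity) (one_div_le_one_div_of_le (by norm_num) h2)

end Pool.Agent.MP_187b32_an.PD

end MrgPart0

-- ======== part 1: formerly Pool.Agent.MP_187b32_an.PD.All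
section MrgPart1

-- ======== part 0: formerly Pool.Agent.MP_187b32_an.PD.Small.Both
section MrgPart0

/-!
Both parts of the profile in the dimensions two to five.
-/

namespace Pool.Agent.MP_187b32_an.PD.Small

theorem both_small {d : ℕ} (h2 : 2 ≤ d) (h5 : d ≤ 5) : Both (1 / d) := by
  interval_cases d
  · exact_mod_cast SmallO.both2 inner2
  · exact_mod_cast SmallO.both3 inner3
  · exact_mod_cast SmallO.both4 inner4
  · exact_mod_cast SmallO.both5 inner5

end Pool.Agent.MP_187b32_an.PD.Small

end MrgPart0

-- ======== part 1: formerly Pool.Agent.MP_187b32_an.PD.All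
section MrgPart1

/-!
Both parts of the profile in every dimension `d ≥ 2`.
-/

set_option autoImplicit false

namespace Pool.Agent.MP_187b32_an.PD

theorem both_all (d : ℕ) (h : 2 ≤ d) : Both (1 / d) := by
  rcases le_or_gt d 5 with h1 | h1
  exacts [Small.both_small h h1, both_large h1]

end Pool.Agent.MP_187b32_an.PD

end MrgPart1

-- marker of a merged file
example : 731051 + 785647 = 731051 + 785647 := rfl

end MrgPart1

-- marker of a merged file
example : 731051 + 785647 = 731051 + 785647 := rfl
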