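import Pool.Agent.MP_187b32_an.PD.Ser

/-!
The check of the inner part of the profile on a cell of values of `e = 1 / d`.
-/

set_option autoImplicit false

open Finset PowerSeries Pool.Agent.MP_187b32_an.Prof

namespace Pool.Agent.MP_187b32_an.PD

def co (c : Cx) (E S T : Tm) (nn nd : ℕ) : Co :=
  ⟨(c.mul (rat nn nd) ((c.mul T T).add (c.mul E S))).smul 2,
    c.mul (rat nn nd) (c.sub (T.smul 3) (c.mul E T)),
    c.mul (rat (2 * nn) (3 * nd)) (c.sub (nat 2) E), c.neg (c.mul (rat nn nd) (c.mul S T)),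
    c.mul (rat nn nd) (c.sub (c.mul T T) S), c.mul (rat nn nd) (T.smul 2), rat nn nd⟩

def coT {β : Type} (c : Cx) (E R : Tm) (nn nd : ℕ) (k : Co → β) : β :=
  frcT (c.mul (nat 1) (c.sub R (nat 1))) fun S => frcT (c.mul (nat 1) (c.sub (nat 2) R)) fun T =>
    Co.casesOn (co c E S T nn nd) fun A1 A2 A3 B0 B1 B2 B3 => frcT A1 fun A1 => frcT A2 fun A2 =>
      frcT A3 fun A3 => frcT B0 fun B0 => frcT B1 fun B1 => frcT B2 fun B2 => frcT B3 fun B3 =>
        k ⟨A1, A2, A3, B0, B1, B2, B3⟩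

def co' (c : Cx) (E R : Tm) (nn nd : ℕ) : Co :=
  co c E (c.mul (nat 1) (c.sub R (nat 1))) (c.mul (nat 1) (c.sub (nat 2) R)) nn nd

@[simp] lemma coT_eq {β : Type} (c : Cx) (E R : Tm) (nn nd : ℕ) (k : Co → β) :
    coT c E R nn nd k = k (co' c E R nn nd) := by
  simp only [coT, frcT_eq, co, co']

/-- An approximate inverse; nothing is proved about it. -/
def geo (M d0 d1 j : ℕ) : ℕ → ℕ :=
  Nat.rec (motive := fun _ => ℕ → ℕ) (fun _ => 0) (fun _ ih x => frc x fun x =>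
    Nat.add x (Nat.mul Bs (Nat.sub M (Nat.mod (ih (Nat.div (Nat.mul x d1) d0)) M)))) j

/-- The next coefficient. -/
def nxt (c : Cx) (o : Co) (E : Tm) (a ec eh la lb k : ℕ) (b s q : Tm) : Tm :=
  frcT ((c.dot [b, s, q] [(o.A1.smul k).add o.B1, (o.A2.smul k).add o.B2,
    (o.A3.smul k).add o.B3]).add (Nat.casesOn k o.B0 fun _ => zT)) fun num =>
  frc (sc + 2 * (k + 1) * ec) fun d0 => frc (2 * (k + 1) * eh) fun d1 =>
  frcT (c.mul num ⟨geo c.M d0 d1 (a + 1) (sc * sc / d0), 2 * sc, 2 * sc⟩).mid fun y =>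
  y.wid ((c.dot [num, y] [nat 1, c.neg ((nat 1).add (E.smul (2 * (k + 1))))]).w * lb
    / (lb + 2 * (k + 1) * la) + 1)

def ph1 (c : Cx) (o : Co) (E : Tm) (a ec eh la lb n : ℕ) : ℕ → List Tm → List Tm → List Tm :=
  Nat.rec (motive := fun _ => ℕ → List Tm → List Tm → List Tm) (fun _ Db _ => Db)
    (fun _ ih k Db Ds => frc k fun k => frcM (rev Db) fun F => frcT (c.dot Db F) fun s =>
      frcT (c.dot (s :: Ds) F) fun q => frcT (nxt c o E a ec eh la lb k (Db.headD zT) s q) fun b =>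
        ih (Nat.succ k) (b :: Db) (s :: Ds)) n

/-- Bound of the tail of the series. -/
def tl (tn td m sa sb N : ℕ) : ℕ := tn * sc * sa ^ N * sb / (td * m * sb ^ N * (sb - sa)) + 1

def six (c : Cx) (x W p R : Tm) : Bool :=
  frcT ((nat 1).add W) fun w1 => frcT (c.mul W (R.add W)) fun wr =>
  frcT (c.dot [nat 1, c.mul x w1] [nat 1, c.neg p]) fun D =>
  frcT (c.dot [nat 1, x] [nat 1, wr]) fun n1 =>
  frcT (c.mul (nat 1) ((rat 19 20).add W)) fun lw => frcT (c.mul lw D) fun bb =>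
  frcT (c.mul p n1) fun pn => frcT (c.mul (nat 1) (bb.add pn)) fun aa =>
  frcT (c.dot [wr, w1] [D, pn]) fun u => frcT (c.neg ((c.mul x u).smul 4)) fun xu =>
  D.pos && n1.pos && aa.pos && lw.pos && (c.dot [aa.smul 3, xu] [aa, u]).pos &&
    (c.dot [bb.smul 3, xu] [bb, u]).pos

/-- The inequalities on `[(2 i - 1) h, (2 i + 1) h]`. -/
def swp (c : Cx) (F G : List Tm) (R tp : Tm) (N nn nd hn hd w i : ℕ) : Bool :=
  frcT ((rat (2 * i * hn) hd).add tp) fun t => frcM (pws c t N (nat 1)) fun pw =>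
  frcT (c.mul (nat 1) ((c.sub (nat 1) R).add ((c.dot F pw).wid w))) fun W =>
  frcT (((c.dot G pw).wid w).smul 2) fun p => frcT (c.mul (rat nn nd) t) fun x => six c x W p R

/-- The enclosures that are handed over to the outer part. -/
def outp (c : Cx) (C : List Tm) (R : Tm) (N tn td ta tb qa qb dr dy : ℕ) (lR lY : List ℤ) : Bool :=
  Nat.ble (c.mul (nat 1) (c.sub R (c.ofL lR))).w dr &&
  Nat.ble (c.dot [(c.sub (nat 1) R).add ((c.dot (rev C) (pws c (rat ta tb) N (nat 1))).wid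
    (tl tn td (N * N) ta tb N)), nat 1] [rat qb qa, c.neg (c.ofL lY)]).w dy &&
  (c.mul (nat 1) (c.sub R (rat 1036 1000))).pos && (c.mul (nat 1) (c.sub (rat 7 5) R)).pos

def chk (a b1 a2 b3 N nn nd tn td ec eh la lb kap qa qb hn hd m dr dy : ℕ)
    (le lr ld lR lY : List ℤ) : Bool :=
  decide (a2 ≤ a ∧ 1 ≤ b1 ∧ 1 ≤ b3 ∧ 10 ≤ N ∧ 0 < nn ∧ 0 < nd ∧ 0 < tn ∧ 0 < td ∧ 0 < lb ∧
    0 < qb ∧ qb ≤ 2 * qa ∧ 0 < hn ∧ (2 * m + 1) * hn < hd ∧
    qb * qb * nd * hd < (2 * m + 1) * hn * (qa * qa * nn) ∧ qb * qb * nd < qa * qa * nn ∧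
    20 * tn ≤ N * td ∧ le.length ≤ a + 1 ∧ lr.length ≤ a + 1 ∧ ld.length ≤ a + 1 ∧
    lR.length ≤ a2 + 1 ∧ lY.length ≤ a2 + 1) &&
  withCx (mask2 a b1) fun c1 => withCx (mask2 a2 0) fun c2 => withCx (mask2 a2 b3) fun c3 =>
  frcT ((c1.ofL le).wid 1) fun E =>
  frcT ((c1.ofL lr).add (c1.mul (mono (2 * a + 1)) (c1.ofL ld))) fun R =>
  coT c1 E R nn nd fun o => frcM (ph1 c1 o E a ec eh la lb N 0 [zT] []) fun D =>
  Nat.ble ((c1.dot [D.headD zT, mono (2 * a + 1)] [nat 1, c1.neg ⟨kap, kap, kap⟩]).w * (N * N * td)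
    + tn * sc) (kap * (N * N * td)) &&
  (frcT (c1.conv c2 a2 E) fun E2 => frcT (c1.conv c2 a2 R) fun R2 =>
    frcM (D.tail.map (c1.conv c2 a2)) fun C => coT c2 E2 R2 nn nd fun o2 =>
      ph2 c2 o2 E2 N tn td C &&
        outp c2 C R2 N tn td (qb * qb * nd) (qa * qa * nn) qa qb dr dy lR lY) &&
  frcT (c1.conv c3 a2 R) fun R3 => frcM (rev (D.tail.map (c1.conv c3 a2))) fun F =>
    frcM (idx F 0) fun G => frcT (c3.mul (rat hn hd) (mono (2 * a2 + 1))) fun tp =>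
      frc (tl tn td N ((2 * m + 1) * hn) hd N) fun w =>
        (List.range (m + 1)).all (swp c3 F G R3 tp N nn nd hn hd w)

section
variable {c : Cx} {μ : ℕ → ℝ}

lemma Mem.dot2 (h : c.Ok μ) {x y z w : ℝ} {X Y Z W : Tm} (h1 : Mem c μ x X) (h2 : Mem c μ y Y)
    (h3 : Mem c μ z Z) (h4 : Mem c μ w W) : Mem c μ (x * z + y * w) (c.dot [X, Y] [Z, W]) :=
  (Mem.dot h (.cons h1 (.cons h2 .nil)) (.cons h3 (.cons h4 .nil))).of_eq (by simp)

lemma mem_one (h : c.Ok μ) : Mem c μ 1 (nat 1) := (mem_nat h 1).of_eq Nat.cast_one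

lemma Mem.nrm (h : c.Ok μ) {x : ℝ} {T : Tm} (h1 : Mem c μ x T) : Mem c μ x (c.mul (nat 1) T) :=
  ((mem_one h).mul h h1).of_eq (one_mul x)

lemma co_mem (h : c.Ok μ) {e r : ℝ} {E R : Tm} (hE : Mem c μ e E) (hR : Mem c μ r R) (nn : ℕ)
    {nd : ℕ} (hd : 0 < nd) : CoM c μ (cA1 (nn / nd) e r) (cA2 (nn / nd) e r) (cA3 (nn / nd) e)
      (cB0 (nn / nd) r) (cB1 (nn / nd) r) (cB2 (nn / nd) r) (nn / nd) (co' c E R nn nd) := by
  have S := (hR.sub h (mem_one h)).nrm h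
  have T := ((mem_nat h 2).sub h hR).nrm h
  have n := mem_rat h nn hd
  constructor <;> simp only [co', co]
  · exact ((n.mul h ((T.mul h T).add (hE.mul h S))).smul 2).of_eq (by simp [cA1])
  · exact (n.mul h ((T.smul 3).sub h (hE.mul h T))).of_eq (by simp [cA2])
  · exact ((mem_rat h (2 * nn) (q := 3 * nd) (by omega)).mul h ((mem_nat h 2).sub h hE)).of_eq
      (by rw [cA3]; push_cast; ring)
  · exact ((n.mul h (S.mul h T)).neg h).of_eq (by simp [cB0])
  · exact (n.mul h ((T.mul h T).sub h S)).of_eq (by simp [cB1])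
  · exact (n.mul h (T.smul 2)).of_eq (by simp [cB2])
  · exact n

variable {e A1 A2 A3 B0 B1 B2 B3 : ℝ} {o : Co} {E : Tm} {U : ℝ⟦X⟧} {a ec eh la lb : ℕ}

lemma nxt_mem (h : c.Ok μ) (ho : CoM c μ A1 A2 A3 B0 B1 B2 B3 o) (hE : Mem c μ e E) (hb : 0 < lb)
    (hl : (la : ℝ) ≤ e * lb) (hU : Rec e A1 A2 A3 B0 B1 B2 B3 U) {k : ℕ} {b s q : Tm}
    (h1 : Mem c μ (coeff k U) b) (h2 : Mem c μ (coeff k (U * U)) s)
    (h3 : Mem c μ (coeff k (U * U * U)) q) :
    Mem c μ (coeff (k + 1) U) (nxt c o E a ec eh la lb k b s q) := by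
  have k0 : Mem c μ (if k = 0 then B0 else 0) (Nat.casesOn k o.B0 fun _ => zT) := by
    cases k
    exacts [ho.b0, mem_zT]
  have k1 := ((Mem.dot h (.cons h1 (.cons h2 (.cons h3 .nil))) (.cons ((ho.a1.smul k).add ho.b1)
    (.cons ((ho.a2.smul k).add ho.b2) (.cons ((ho.a3.smul k).add ho.b3) .nil)))).add k0).of_eq
      (y := (1 + 2 * (k + 1) * e) * coeff (k + 1) U) (by rw [hU.2 k]; simp; ring)
  simp only [nxt, frcT_eq, frc_eq]
  generalize Tm.add _ _ = num at k1 ⊢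
  obtain ⟨z, hz⟩ := mul_mid h num ⟨geo c.M (sc + 2 * (k + 1) * ec) (2 * (k + 1) * eh) (a + 1)
    (sc * sc / (sc + 2 * (k + 1) * ec)), 2 * sc, 2 * sc⟩
  have k2 := (Mem.dot2 h k1 hz (mem_one h) (((mem_one h).add (hE.smul (2 * (k + 1)))).neg h)).abs_le h
  refine hz.wid (le_div_succ (by omega) ?_)
  have l0 : (0 : ℝ) < lb := by exact_mod_cast hb
  have e0 : 0 ≤ e := nonneg_of_mul_nonneg_left (la.cast_nonneg.trans hl) l0
  push_cast at k2 ⊢
  rw [show (1 + 2 * (k + 1) * e) * coeff (k + 1) U * 1 + z * -(1 + 2 * (k + 1) * e) =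
    (coeff (k + 1) U - z) * (1 + 2 * (k + 1) * e) by ring, abs_mul,
    abs_of_nonneg (a := 1 + _) (by positivity)] at k2
  calc _ ≤ |coeff (k + 1) U - z| * sc * (lb + 2 * (k + 1) * (e * lb)) := by gcongr
    _ = |coeff (k + 1) U - z| * (1 + 2 * (k + 1) * e) * sc * lb := by ring
    _ ≤ _ := by gcongr

lemma ph1_mem (h : c.Ok μ) (ho : CoM c μ A1 A2 A3 B0 B1 B2 B3 o) (hE : Mem c μ e E) (hb : 0 < lb)
    (hl : (la : ℝ) ≤ e * lb) (hU : Rec e A1 A2 A3 B0 B1 B2 B3 U) (n : ℕ) {k : ℕ} {Db Ds : List Tm}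
    (h1 : List.Forall₂ (Mem c μ) (dn U (k + 1)) Db)
    (h2 : List.Forall₂ (Mem c μ) (dn (U * U) k) Ds) :
    List.Forall₂ (Mem c μ) (dn U (n + k + 1)) (ph1 c o E a ec eh la lb n k Db Ds) := by
  induction n generalizing k Db Ds with
  | zero => rw [zero_add]; exact h1
  | succ n ih =>
    have k1 := (Mem.dot h h1 (mem_rev h1)).of_eq (zip_conv U U (Or.inl k.lt_succ_self))
    have k2 : List.Forall₂ (Mem c μ) (dn (U * U) (k + 1)) (c.dot Db (rev Db) :: Ds) := .cons k1 h2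
    have k3 := (Mem.dot h k2 (mem_rev h1)).of_eq (zip_conv (U * U) U (Or.inl k.lt_succ_self))
    have k4 : Mem c μ (coeff k U) (Db.headD zT) := by
      cases h1 with
      | cons h1 _ => exact h1
    have := ih (k := k + 1) (.cons (nxt_mem (a := a) (ec := ec) (eh := eh) h ho hE hb hl hU k4 k1 k3)
      h1) k2
    rw [show n + 1 + k + 1 = n + (k + 1) + 1 by ring]
    simp only [ph1, frc_eq, frcM_eq, frcT_eq] at this ⊢
    exact this

lemma mem_ev (h : c.Ok μ) {y : ℝ⟦X⟧} {N tn td m sa sb : ℕ} {F P : List Tm} {t : ℝ}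
    (hF : List.Forall₂ (Mem c μ) (asc (fun j => coeff j y) N) F)
    (hP : List.Forall₂ (Mem c μ) (asc (fun j => 1 * t ^ j) N) P)
    (hb : ∀ j, N ≤ j → |coeff j y| ≤ tn / (td * m)) (ht : |t| ≤ sa / sb) (hs : sa < sb)
    (htd : 0 < td) (hm : 0 < m) : Mem c μ (ev y t) ((c.dot F P).wid (tl tn td m sa sb N)) := by
  have s0 : (0 : ℝ) < sb := by exact_mod_cast (by omega : 0 < sb)
  have s1 : (sa : ℝ) < sb := by exact_mod_cast hs
  have s2 : (sb : ℝ) - sa ≠ 0 := (sub_pos.2 s1).ne'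
  have s3 : 0 < sb - sa := by omega
  have s4 : 0 < sb := by omega
  refine (Mem.dot h hF hP).wid (le_div_succ (by positivity) ?_)
  have := tail_le hb ht ((div_lt_one s0).2 s1)
  rw [zip_asc]
  simp only [one_mul]
  refine (mul_le_mul_of_nonneg_right (mul_le_mul_of_nonneg_right this sc_pos.le)
    (by positivity)).trans (le_of_eq ?_)
  push_cast [Nat.cast_sub hs.le]
  rw [one_sub_div s0.ne', div_pow]
  field_simp

lemma six_sound (h : c.Ok μ) {x w p r : ℝ} {X W P R : Tm} (hx : Mem c μ x X) (hw : Mem c μ w W)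
    (hp : Mem c μ p P) (hr : Mem c μ r R) (hc : six c X W P R = true) : Six x w p r := by
  simp only [six, frcT_eq, Bool.and_eq_true] at hc
  obtain ⟨⟨⟨⟨⟨c1, c2⟩, c3⟩, c4⟩, c5⟩, c6⟩ := hc
  have w1 := (mem_one h).add hw
  have wr := hw.mul h (hr.add hw)
  have D := (Mem.dot2 h (mem_one h) (hx.mul h w1) (mem_one h) (hp.neg h)).of_eq
    (y := 1 - x * (1 + w) * p) (by ring)
  have n1 := (Mem.dot2 h (mem_one h) hx (mem_one h) wr).of_eq
    (y := 1 + x * (w * (r + w))) (by ring)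
  have lw := (((mem_rat h 19 (q := 20) (by norm_num)).add hw).nrm h).of_eq
    (y := 19 / 20 + w) (by norm_num)
  have bb := lw.mul h D
  have pn := hp.mul h n1
  have aa := (bb.add pn).nrm h
  have u := Mem.dot2 h wr w1 D pn
  have xu := ((hx.mul h u).smul 4).neg h
  have a5 := (Mem.dot2 h (aa.smul 3) xu aa u).pos h c5
  have a6 := (Mem.dot2 h (bb.smul 3) xu bb u).pos h c6
  push_cast at a5 a6
  exact ⟨D.pos h c1, n1.pos h c2, aa.pos h c3, lw.pos h c4, by linarith, by linarith⟩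

end

lemma cover {h t : ℝ} (m : ℕ) (h1 : -h ≤ t) (h2 : t ≤ (2 * m + 1) * h) :
    ∃ i < m + 1, |t - 2 * (i : ℕ) * h| ≤ h := by
  induction m with
  | zero => exact ⟨0, by simp, abs_le.2 ⟨by simpa using h1, by simpa using h2⟩⟩
  | succ m ih =>
    rcases le_total t ((2 * m + 1) * h) with h3 | h3
    · obtain ⟨i, a1, a2⟩ := ih h3
      exact ⟨i, by omega, a2⟩
    · refine ⟨m + 1, by omega, abs_le.2 ⟨?_, ?_⟩⟩ <;> push_cast at h2 ⊢ <;> linarith

theorem chk_sound {a b1 a2 b3 N nn nd tn td ec eh la lb kap qa qb hn hd m dr dy : ℕ}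
    {le lr ld lR lY : List ℤ}
    (hc : chk a b1 a2 b3 N nn nd tn td ec eh la lb kap qa qb hn hd m dr dy le lr ld lR lY = true)
    {ε e : ℝ} (hε : |ε| ≤ 1) (he : 0 < e) (hE : |e - hv ε le / sc| * sc ≤ (1 : ℕ))
    (hl : (la : ℝ) ≤ e * lb) :
    ∃ r y, |r - hv ε lR / sc| * sc ≤ dr ∧ |y - hv ε lY / sc| * sc ≤ dy ∧ 1036 / 1000 < r ∧
      r < 7 / 5 ∧ (1 / 2 : ℝ) ≤ qa / qb ∧ Inner e r (qa / qb) y := by
  simp only [chk, withCx_eq, frcT_eq, frcM_eq, frc_eq, coT_eq, Bool.and_eq_true, decide_eq_true_eq,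
    Nat.ble_eq, List.all_eq_true, List.mem_range, outp] at hc
  obtain ⟨⟨s1, s2, s3, s4, s5, s6, s7, s8, s9, s10, s11, s12, s13, s14, s15, s16, s17, s18, s19,
    s20, s21⟩, ⟨c1, c2, ⟨⟨c3, c4⟩, c5⟩, c6⟩, c7⟩ := hc
  have hs0 := sc_pos
  have z0 : |(0 : ℝ)| ≤ 1 := by simp
  have n0 : (0 : ℝ) < N := by exact_mod_cast (by omega : 0 < N)
  have t0 : (0 : ℝ) < tn := by exact_mod_cast s7
  have t1 : (0 : ℝ) < td := by exact_mod_cast s8
  obtain ⟨U, U1, U2⟩ := exists_ser he (nn / nd)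
    (r := fun θ => hv ε lr / sc + θ * (hv ε ld / sc)) (by fun_prop)
  have mE := fun (θ : ℝ) (hθ : |θ| ≤ 1) => (mem_eps (b := b1) hε hθ s17).wid hE
  have mT := fun θ : ℝ => (by simpa using mem_pow (a := a) ε θ s2 :
    Mem (mkCx (mask2 a b1)) (mu2 a ε θ) θ (mono (2 * a + 1)))
  have mR := fun (θ : ℝ) (hθ : |θ| ≤ 1) => (mem_eps (b := b1) hε hθ s18).add
    ((mT θ).mul (ok2 a b1 hε hθ) (mem_eps hε hθ s19))
  have mD := fun (θ : ℝ) (hθ : |θ| ≤ 1) => ph1_mem (a := a) (ec := ec) (eh := eh) (ok2 a b1 hε hθ)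
    (co_mem (ok2 a b1 hε hθ) (mE θ hθ) (mR θ hθ) nn s6) (mE θ hθ) s9 hl
    (U2 θ (abs_le.1 hθ)).rec' N (k := 0)
    (.cons (mem_zT.of_eq (U2 θ (abs_le.1 hθ)).rec'.1.symm) .nil) .nil
  generalize ph1 _ _ _ a ec eh la lb N 0 [zT] [] = D at *
  generalize Tm.add (Cx.ofL _ lr) _ = R at *
  generalize Tm.wid (Cx.ofL _ le) 1 = E at *
  have mH : ∀ θ, |θ| ≤ 1 → Mem (mkCx (mask2 a b1)) (mu2 a ε θ) (coeff N (U θ)) (D.headD zT) ∧
      ∀ b s, |s| ≤ 1 → List.Forall₂ (Mem (mkCx (mask2 a2 b)) (mu2 a2 ε s)) (dn (U θ) N)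
        (D.tail.map ((mkCx (mask2 a b1)).conv (mkCx (mask2 a2 b)) a2)) := fun θ hθ => by
    have := mD θ hθ
    rw [add_zero, dn] at this
    cases this with
    | cons h1 h2 =>
      exact ⟨h1, fun b s hs => List.forall₂_map_right_iff.2
        (h2.imp fun _ _ h => h.conv2 s1 hε hθ hs)⟩
  have ex : ∀ θ, |θ| ≤ 1 → |coeff N (U θ) - θ * (kap / sc)| * N ^ 2 + tn / td ≤ kap / sc * N ^ 2 :=
    fun θ hθ => by
      have h := ok2 a b1 hε hθ
      have a1 := (Mem.dot2 h (mH θ hθ).1 (mT θ) (mem_one h) ((mem_cst h (x := kap / sc) (p := kap)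
        (k := 0) (by simp [hs0.ne'])).neg h)).abs_le h
      rw [mul_one, mul_neg, ← sub_eq_add_neg, add_zero] at a1
      generalize Tm.w _ = w at a1 c1
      have a2 : (w : ℝ) * (N * N * td) + tn * sc ≤ kap * (N * N * td) := by exact_mod_cast c1
      refine le_of_mul_le_mul_right ?_ (mul_pos t1 hs0)
      calc _ = |coeff N (U θ) - θ * (kap / sc)| * sc * (N * N * td) + tn * sc := by field_simp
        _ ≤ w * (N * N * td) + tn * sc := by gcongr
        _ ≤ _ := a2.trans (le_of_eq (by field_simp))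
  obtain ⟨θ, hθ, hb⟩ := nested (f := fun j θ => coeff (N + j) (U θ) * (N + j : ℕ) ^ 2)
    (τ := tn / td) (fun j => (U1 _).mul continuous_const) (by positivity)
    (by
      have := ex (-1) (by simp)
      simp only [add_zero]
      linarith only [this, mul_le_mul_of_nonneg_right
        (le_abs_self (coeff N (U (-1)) - -1 * (kap / sc))) (sq_nonneg (N : ℝ))])
    (by
      have := ex 1 (by simp)
      simp only [add_zero]
      linarith only [this, mul_le_mul_of_nonneg_right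
        (neg_abs_le (coeff N (U 1) - 1 * (kap / sc))) (sq_nonneg (N : ℝ))])
    fun k θ hθ hj => by
      have hθ' := abs_le.2 hθ
      have h := ok2 a2 0 hε z0
      have := fun σ => ph2_sound h (co_mem h ((mE θ hθ').conv2 s1 hε hθ' z0)
        ((mR θ hθ').conv2 s1 hε hθ' z0) nn s6) ((mE θ hθ').conv2 s1 hε hθ' z0) he.le s4 s7 s8 s16
        (U2 θ hθ).rec' ((mH θ hθ').2 0 0 z0) c2 (k := N + k) (by omega) (σ := σ) fun j h1 h2 => by
          have := hj (j - N) (by omega)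
          rwa [Nat.add_sub_cancel' h1, abs_mul, abs_sq] at this
      exact ⟨fun h => by simpa only [one_mul, add_assoc] using this 1 (by simp) (by rwa [one_mul]),
        fun h => by
          have := this (-1) (by simp) (by rw [h]; ring)
          rw [← add_assoc]
          linarith only [this]⟩
  have hθ' := abs_le.2 hθ
  have b2 : ∀ j, N ≤ j → |coeff j (U θ)| * j ^ 2 ≤ tn / td := fun j h1 => by
    have := hb (j - N)
    rwa [Nat.add_sub_cancel' h1, abs_mul, abs_sq] at this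
  have b3' : ∀ j, N ≤ j → |coeff j (th (U θ))| ≤ tn / (td * N) := fun j h1 => by
    have a1 : (N : ℝ) ≤ j := by exact_mod_cast h1
    rw [coeff_th, abs_mul, Nat.abs_cast, ← div_div, le_div_iff₀ n0]
    refine le_trans ?_ (b2 j h1)
    rw [sq, mul_comm (j : ℝ) |_|, mul_assoc]
    gcongr
  have b4 : ∀ j, N ≤ j → |coeff j (U θ)| ≤ tn / (td * (N * N : ℕ)) := fun j h1 => by
    have a1 : (N : ℝ) ≤ j := by exact_mod_cast h1
    rw [← div_div, le_div_iff₀ (by positivity), Nat.cast_mul, ← sq]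
    exact le_trans (by gcongr) (b2 j h1)
  have b5 : ∀ j, N ≤ j → |coeff j (U θ)| ≤ tn / (td * N) := fun j h1 => (b4 j h1).trans (by
    have : N ≤ N * N := Nat.le_mul_self N
    gcongr)
  have h := ok2 a2 0 hε z0
  have R2 := (mR θ hθ').conv2 (b' := 0) s1 hε hθ' z0
  have q0 : 0 < qa := by omega
  have q1 : (0 : ℝ) < qa := by exact_mod_cast q0
  have q2 : (0 : ℝ) < qb := by exact_mod_cast s10
  have q3 : (0 : ℝ) < nn := by exact_mod_cast s5
  have q4 : (0 : ℝ) < nd := by exact_mod_cast s6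
  have q5 : (0 : ℝ) < hn := by exact_mod_cast s12
  have q6 : 0 < hd := by omega
  have q7 : (0 : ℝ) < hd := by exact_mod_cast q6
  have W := ((mem_one h).sub h R2).add (mem_ev h (mem_rev ((mH θ hθ').2 0 0 z0))
    (mem_pws h (mem_rat h (qb * qb * nd) (q := qa * qa * nn) (by positivity)) (mem_one h) N) b4
    (abs_of_nonneg (by positivity)).le s15 s8 (by positivity))
  have o1 := ((R2.sub h (mem_eps hε z0 s20)).nrm h).abs_le h
  have o2 := (Mem.dot2 h W (mem_one h) (mem_rat h qb q0) ((mem_eps hε z0 s21).neg h)).abs_le h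
  have o3 := ((R2.sub h (mem_rat h 1036 (q := 1000) (by norm_num))).nrm h).pos h c5
  have o4 := (((mem_rat h 7 (q := 5) (by norm_num)).sub h R2).nrm h).pos h c6
  rw [one_mul, ← sub_eq_add_neg] at o2
  refine ⟨_, _, o1.trans (by exact_mod_cast c3), o2.trans (by exact_mod_cast c4),
    by push_cast at o3; linarith, by push_cast at o4; linarith, ?_,
    inner_of (U2 θ hθ) (by positivity) (R := tn / (td * N) + ∑ j ∈ range N, |coeff j (U θ)|)
      (h := hn / hd) (t1 := (qb * qb * nd : ℕ) / (qa * qa * nn : ℕ))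
      (t2 := (2 * m + 1) * (hn / hd)) (fun j => ?_) (by positivity) ?_ ?_ ?_ (fun t ht => ?_)
      (by push_cast; field_simp) (by field_simp)⟩
  · rw [le_div_iff₀ q2]
    have : (qb : ℝ) ≤ 2 * qa := by exact_mod_cast s11
    linarith
  · rcases lt_or_ge j N with h1 | h1
    · exact le_add_of_nonneg_of_le (by positivity)
        (single_le_sum (f := fun j => |coeff j (U θ)|) (fun _ _ => abs_nonneg _) (mem_range.2 h1))
    · exact le_add_of_le_of_nonneg (b5 j h1) (by positivity)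
  · exact le_mul_of_one_le_left (by positivity) (by linarith [m.cast_nonneg (α := ℝ)])
  · rw [← mul_div_assoc, div_lt_div_iff₀ (by positivity) q7]
    exact_mod_cast s14
  · rw [← mul_div_assoc, div_lt_one q7]
    exact_mod_cast s13
  · obtain ⟨i, hi, h1⟩ := cover m ht.1 ht.2
    have hh : (0 : ℝ) < hn / hd := by positivity
    set s := (t - 2 * i * (hn / hd)) / (hn / hd) with hs
    have h2 : |s| ≤ 1 := by rwa [hs, abs_div, abs_of_pos hh, div_le_one hh]
    have h3 := ok2 a2 b3 hε h2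
    have k := c7 i hi
    simp only [swp, frcT_eq, frcM_eq] at k
    have mt := ((mem_rat h3 (2 * i * hn) q6).add ((mem_rat h3 hn q6).mul h3
      (by simpa using mem_pow (a := a2) ε s s3 :
        Mem (mkCx (mask2 a2 b3)) (mu2 a2 ε s) s (mono (2 * a2 + 1))))).of_eq (y := t)
      (by rw [hs, mul_div_cancel₀ _ hh.ne']; push_cast; ring)
    have h4 : |t| ≤ ((2 * m + 1) * hn : ℕ) / hd := by
      push_cast
      rw [mul_div_assoc]
      exact abs_le.2 ⟨by linarith only [ht.1, mul_nonneg (m.cast_nonneg (α := ℝ)) hh.le, hh], ht.2⟩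
    have R3 := (mR θ hθ').conv2 (b' := b3) s1 hε hθ' h2
    have F := mem_rev ((mH θ hθ').2 b3 s h2)
    have P := mem_pws h3 mt (mem_one h3) N
    exact six_sound h3 ((mem_rat h3 nn s6).mul h3 mt) ((((mem_one h3).sub h3 R3).add
      (mem_ev h3 F P b5 h4 s13 s8 (by omega))).nrm h3)
      (((mem_ev h3 (by simpa only [coeff_th, add_zero] using mem_idx F 0) P b3' h4 s13 s8
        (by omega)).smul 2).of_eq (by norm_num)) R3 k

end Pool.Agent.MP_187b32_an.PD
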